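import Mathlib

set_option autoImplicit false

namespace Pool.Agent.H248Z.Beer

open MeasureTheory Set Filter Topology

lemma analytic_compact_approx {X : Type*} [MetricSpace X] [MeasurableSpace X] [BorelSpace X]
    (ν : Measure X) [IsFiniteMeasure ν] (f : (ℕ → ℕ) → X) (hf : Continuous f)
    (c : ENNReal) (hc : c < ν (range f)) :
    ∃ K, K ⊆ range f ∧ IsCompact K ∧ c ≤ ν K := by
  have step : ∀ (T : Set (ℕ → ℕ)) (k : ℕ), c < ν (f '' T) →
      ∃ m, c < ν (f '' (T ∩ {σ | σ k ≤ m})) := by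
    intro T k h
    have hU : f '' T = ⋃ m : ℕ, f '' (T ∩ {σ | σ k ≤ m}) := by
      rw [← image_iUnion]
      congr 1
      ext σ
      simp only [mem_iUnion, mem_inter_iff, mem_ofPred_eq]
      exact ⟨fun h => ⟨σ k, h, le_rfl⟩, fun ⟨_, h, _⟩ => h⟩
    have hmono : Monotone (fun m : ℕ => f '' (T ∩ {σ | σ k ≤ m})) := by
      intro a b hab
      apply image_mono
      intro σ hσ
      exact ⟨hσ.1, le_trans hσ.2 hab⟩
    rw [hU, hmono.measure_iUnion] at h
    exact lt_iSup_iff.1 h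
  choose! g hg using step
  let T : ℕ → Set (ℕ → ℕ) := fun k =>
    Nat.rec (univ : Set (ℕ → ℕ)) (fun k U => U ∩ {σ | σ k ≤ g U k}) k
  have hT0 : T 0 = univ := rfl
  have hTs : ∀ k, T (k + 1) = T k ∩ {σ | σ k ≤ g (T k) k} := fun k => rfl
  let n : ℕ → ℕ := fun k => g (T k) k
  have hTc : ∀ k, c < ν (f '' T k) := by
    intro k
    induction k with
    | zero => rw [hT0, image_univ]; exact hc
    | succ k ih => rw [hTs]; exact hg _ _ ih
  have hTmem : ∀ k σ, σ ∈ T k → ∀ i, i < k → σ i ≤ n i := by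
    intro k
    induction k with
    | zero => intro σ _ i hi; omega
    | succ k ih =>
      intro σ hσ i hi
      rw [hTs] at hσ
      rcases Nat.lt_succ_iff_lt_or_eq.1 hi with h | rfl
      · exact ih σ hσ.1 i h
      · exact hσ.2
  let C : Set (ℕ → ℕ) := Set.pi univ (fun i => Iic (n i))
  have hC : IsCompact C := isCompact_univ_pi (fun i => (finite_Iic (n i)).isCompact)
  refine ⟨f '' C, image_subset_range _ _, hC.image hf, ?_⟩
  have hanti : Antitone (fun k => closure (f '' T k)) := by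
    apply antitone_nat_of_succ_le
    intro k
    apply closure_mono
    apply image_mono
    rw [hTs]
    exact inter_subset_left
  have hsub : (⋂ k, closure (f '' T k)) ⊆ f '' C := by
    intro x hx
    have h1 : ∀ k : ℕ, ∃ σ ∈ T k, dist x (f σ) < 1 / ((k : ℝ) + 1) := by
      intro k
      obtain ⟨y, ⟨σ, hσ, rfl⟩, hy⟩ := Metric.mem_closure_iff.1 (mem_iInter.1 hx k)
        (1 / ((k : ℝ) + 1)) Nat.one_div_pos_of_nat
      exact ⟨σ, hσ, hy⟩
    choose σ hσT hσd using h1
    let τ : ℕ → ℕ → ℕ := fun k i => min (σ k i) (n i)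
    have hτC : ∀ k, τ k ∈ C := fun k i _ => (min_le_right _ _ : min (σ k i) (n i) ≤ n i)
    obtain ⟨τ0, hτ0, φ, hφ, hlim⟩ := hC.tendsto_subseq hτC
    have hlim2 : Tendsto (fun j => σ (φ j)) atTop (𝓝 τ0) := by
      rw [tendsto_pi_nhds] at hlim ⊢
      intro i
      refine (hlim i).congr' ?_
      filter_upwards [eventually_gt_atTop i] with j hj
      have : i < φ j := lt_of_lt_of_le hj (hφ.id_le j)
      exact min_eq_left (hTmem _ _ (hσT (φ j)) i this)
    have hlim3 : Tendsto (fun j => f (σ (φ j))) atTop (𝓝 (f τ0)) := (hf.tendsto _).comp hlim2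
    have hlim4 : Tendsto (fun k => f (σ k)) atTop (𝓝 x) := by
      rw [tendsto_iff_dist_tendsto_zero]
      refine squeeze_zero (fun _ => dist_nonneg) (fun k => ?_)
        tendsto_one_div_add_atTop_nhds_zero_nat
      rw [dist_comm]
      exact (hσd k).le
    exact ⟨τ0, hτ0, tendsto_nhds_unique hlim3 (hlim4.comp hφ.tendsto_atTop)⟩
  refine le_trans ?_ (measure_mono hsub)
  rw [hanti.measure_iInter (fun k => isClosed_closure.measurableSet.nullMeasurableSet)
    ⟨0, measure_ne_top _ _⟩]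
  exact le_iInf fun k => (hTc k).le.trans (measure_mono subset_closure)

lemma analytic_nullMeasurable {X : Type*} [MetricSpace X] [MeasurableSpace X] [BorelSpace X]
    (ν : Measure X) [IsFiniteMeasure ν] {A : Set X} (hA : AnalyticSet A) :
    NullMeasurableSet A ν := by
  rw [AnalyticSet] at hA
  rcases hA with rfl | ⟨f, hf, rfl⟩
  · exact nullMeasurableSet_empty
  by_cases h0 : ν (range f) = 0
  · exact NullMeasurableSet.of_null h0
  obtain ⟨u, -, hu, hlim⟩ := exists_seq_strictMono_tendsto' (pos_iff_ne_zero.2 h0)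
  choose K hK1 hK2 hK3 using fun j => analytic_compact_approx ν f hf (u j) (hu j).2
  have hB : MeasurableSet (⋃ j, K j) := MeasurableSet.iUnion fun j => (hK2 j).measurableSet
  have hBA : (⋃ j, K j) ⊆ range f := iUnion_subset hK1
  have hle : ν (range f) ≤ ν (⋃ j, K j) :=
    le_of_tendsto' hlim fun j => (hK3 j).trans (measure_mono (subset_iUnion K j))
  exact hB.nullMeasurableSet.congr
    (ae_eq_of_subset_of_measure_ge hBA hle hB.nullMeasurableSet (measure_ne_top _ _))

/-- The set of visible pairs has a Borel subset of the same outer measure. -/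
lemma exists_borel_seg (S : Set (ℝ × ℝ)) (hS : MeasurableSet S) (hfin : volume S < ⊤) :
    ∃ E : Set ((ℝ × ℝ) × (ℝ × ℝ)), MeasurableSet E ∧ (∀ p ∈ E, segment ℝ p.1 p.2 ⊆ S) ∧
      volume {p : (ℝ × ℝ) × (ℝ × ℝ) | segment ℝ p.1 p.2 ⊆ S} ≤
        ((volume.restrict S).prod (volume.restrict S)) E := by
  have : IsFiniteMeasure (volume.restrict S) := isFiniteMeasure_restrict.2 hfin.ne
  set ν := (volume.restrict S).prod (volume.restrict S) with hν
  let B : Set (((ℝ × ℝ) × (ℝ × ℝ)) × ℝ) :=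
    {z | z.2 ∈ Icc (0 : ℝ) 1 ∧ (1 - z.2) • z.1.1 + z.2 • z.1.2 ∈ Sᶜ}
  have hB : MeasurableSet B := by
    apply MeasurableSet.inter
    · exact measurable_snd measurableSet_Icc
    · have : Measurable (fun z : ((ℝ × ℝ) × (ℝ × ℝ)) × ℝ =>
          (1 - z.2) • z.1.1 + z.2 • z.1.2) := by fun_prop
      exact this hS.compl
  have hA : AnalyticSet (Prod.fst '' B) := hB.analyticSet_image measurable_fst
  have hE : {p : (ℝ × ℝ) × (ℝ × ℝ) | segment ℝ p.1 p.2 ⊆ S} = (Prod.fst '' B)ᶜ := by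
    ext p
    simp only [mem_ofPred_eq, mem_compl_iff, segment_eq_image]
    constructor
    · rintro h ⟨z, ⟨hz1, hz2⟩, rfl⟩
      exact hz2 (h ⟨z.2, hz1, rfl⟩)
    · rintro h _ ⟨t, ht, rfl⟩
      by_contra hn
      exact h ⟨(p, t), ⟨ht, hn⟩, rfl⟩
  have hN : NullMeasurableSet {p : (ℝ × ℝ) × (ℝ × ℝ) | segment ℝ p.1 p.2 ⊆ S} ν := by
    rw [hE]
    exact (analytic_nullMeasurable ν hA).compl
  obtain ⟨E, hE1, hE2, hE3⟩ := hN.exists_measurable_subset_ae_eq
  refine ⟨E, hE2, fun p hp => hE1 hp, ?_⟩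
  rw [measure_congr hE3, hν, Measure.prod_restrict, Measure.restrict_apply' (hS.prod hS)]
  apply le_of_eq
  rw [inter_eq_left.2]
  · rfl
  · intro p hp
    exact ⟨hp (left_mem_segment ℝ _ _), hp (right_mem_segment ℝ _ _)⟩

end Pool.Agent.H248Z.Beer
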