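import Pool.Agent.Helper212.Fourier

namespace Pool.Agent.H248Z.Aff

open MeasureTheory Filter Topology Set
open scoped ComplexConjugate
open Pool.Agent.Helper212.Sq

/-- the circle character -/
noncomputable def ee (t : UnitAddCircle) : ℂ := ((AddCircle.toCircle t : Circle) : ℂ)

theorem ee_add (s t : UnitAddCircle) : ee (s + t) = ee s * ee t := by
  simp [ee, AddCircle.toCircle_add]

theorem ee_zero : ee 0 = 1 := by simp [ee]

theorem norm_ee (t : UnitAddCircle) : ‖ee t‖ = 1 := Circle.norm_coe _

theorem ee_ne (t : UnitAddCircle) : ee t ≠ 0 := by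
  intro h; have := norm_ee t; rw [h] at this; simp at this

theorem ee_inj : Function.Injective ee := fun _ _ h =>
  AddCircle.injective_toCircle one_ne_zero (Circle.coe_injective h)

theorem ee_neg (t : UnitAddCircle) : ee (-t) = conj (ee t) := by
  have h1 : ee (-t) * ee t = 1 := by rw [← ee_add, neg_add_cancel, ee_zero]
  have h2 : conj (ee t) * ee t = 1 := by
    rw [RCLike.conj_mul, norm_ee]; simp
  exact mul_right_cancel₀ (ee_ne t) (h1.trans h2.symm)

theorem continuous_ee : Continuous ee :=
  continuous_subtype_val.comp AddCircle.continuous_toCircle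

variable {I : Type}

/-- the torus -/
abbrev K (I : Type) : Type := I → UnitAddCircle

/-- its dual group -/
abbrev G (I : Type) : Type := I →₀ ℤ

/-- the pairing -/
noncomputable def pr (x : K I) : G I →ₗ[ℤ] UnitAddCircle := Finsupp.linearCombination ℤ x

theorem pr_single (x : K I) (i : I) : pr x (Finsupp.single i 1) = x i := by simp [pr]

theorem pr_add (x y : K I) (γ : G I) : pr (x + y) γ = pr x γ + pr y γ := by
  induction γ using Finsupp.induction_linear with
  | zero => simp
  | add f g hf hg => simp only [map_add, hf, hg]; abel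
  | single i n => simp [pr]

theorem pr_sub (x y : K I) (γ : G I) : pr (x - y) γ = pr x γ - pr y γ := by
  rw [eq_sub_iff_add_eq, ← pr_add, sub_add_cancel]

theorem continuous_pr (γ : G I) : Continuous fun x : K I => pr x γ := by
  induction γ using Finsupp.induction_linear with
  | zero => simpa using continuous_const
  | add f g hf hg => simp only [map_add]; exact hf.add hg
  | single i n =>
    simp only [pr, Finsupp.linearCombination_single]
    fun_prop

theorem K_ext {x y : K I} (h : ∀ γ, pr x γ = pr y γ) : x = y := by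
  funext i
  rw [← pr_single x, ← pr_single y, h]

/-- characters -/
noncomputable def ch (γ : G I) : C(K I, ℂ) :=
  ⟨fun x => ee (pr x γ), continuous_ee.comp (continuous_pr γ)⟩

theorem ch_apply (γ : G I) (x : K I) : ch γ x = ee (pr x γ) := rfl

theorem ch_add (γ δ : G I) (x : K I) : ch (γ + δ) x = ch γ x * ch δ x := by
  simp only [ch_apply, map_add, ee_add]

theorem ch_zero (x : K I) : ch 0 x = 1 := by simp only [ch_apply, map_zero, ee_zero]

theorem norm_ch (γ : G I) (x : K I) : ‖ch γ x‖ = 1 := norm_ee _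

theorem ch_neg (γ : G I) (x : K I) : ch (-γ) x = conj (ch γ x) := by
  simp only [ch_apply, map_neg, ee_neg]

/-- the family of characters -/
noncomputable def fam (I : Type) : CharFam (K I) (G I) where
  χ := ch
  add_arg d y y' := by simp only [ch_apply, pr_add, ee_add]
  add_idx := ch_add
  zero_idx := ch_zero
  neg_idx := ch_neg
  sep y y' h := by
    by_contra hcon
    push Not at hcon
    exact h (K_ext fun γ => ee_inj (hcon γ))

/-- affine maps -/
noncomputable def aff (Φ : G I →ₗ[ℤ] G I) (c : G I →ₗ[ℤ] UnitAddCircle) (x : K I) : K I :=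
  fun i => pr x (Φ (Finsupp.single i 1)) + c (Finsupp.single i 1)

theorem pr_aff (Φ : G I →ₗ[ℤ] G I) (c : G I →ₗ[ℤ] UnitAddCircle) (x : K I) (γ : G I) :
    pr (aff Φ c x) γ = pr x (Φ γ) + c γ := by
  induction γ using Finsupp.induction_linear with
  | zero => simp
  | add f g hf hg => simp only [map_add, hf, hg]; abel
  | single i n =>
    have : Finsupp.single i n = n • Finsupp.single i (1 : ℤ) := by simp
    rw [this]
    simp only [map_smul, pr_single, aff, smul_add]

theorem ch_aff (Φ : G I →ₗ[ℤ] G I) (c : G I →ₗ[ℤ] UnitAddCircle) (x : K I) (γ : G I) :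
    ch γ (aff Φ c x) = ee (c γ) * ch (Φ γ) x := by
  rw [ch_apply, pr_aff, ee_add, mul_comm]; rfl

theorem continuous_aff (Φ : G I →ₗ[ℤ] G I) (c : G I →ₗ[ℤ] UnitAddCircle) :
    Continuous (aff Φ c) :=
  continuous_pi fun _ => (continuous_pr _).add continuous_const

/-- affine homeomorphisms -/
noncomputable def affH (Φ Ψ : G I →ₗ[ℤ] G I) (c : G I →ₗ[ℤ] UnitAddCircle)
    (h1 : ∀ γ, Φ (Ψ γ) = γ) (h2 : ∀ γ, Ψ (Φ γ) = γ) : K I ≃ₜ K I where
  toFun := aff Φ c
  invFun := aff Ψ (-(c.comp Ψ))
  left_inv x := K_ext fun γ => by simp [pr_aff, h1]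
  right_inv x := K_ext fun γ => by simp [pr_aff, h2]
  continuous_toFun := continuous_aff _ _
  continuous_invFun := continuous_aff _ _

variable [Countable I]

/-- Haar measure -/
noncomputable def mu (I : Type) [Countable I] : Measure (K I) := Measure.addHaarMeasure ⊤

instance : (mu I).IsAddHaarMeasure := Measure.isAddHaarMeasure_addHaarMeasure ⊤
instance : IsProbabilityMeasure (mu I) := ⟨Measure.addHaarMeasure_self (K₀ := ⊤)⟩

theorem wr (ν : Measure (K I)) [IsProbabilityMeasure ν] : ν.WeaklyRegular := by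
  have h1 : TopologicalSpace.PseudoMetrizableSpace (K I) := inferInstance
  have h2 : BorelSpace (K I) := inferInstance
  exact @Measure.WeaklyRegular.of_pseudoMetrizableSpace_of_isFiniteMeasure (K I) _ h1 _ h2 ν _

omit [Countable I] in
theorem exists_pr_ne {γ : G I} (h : γ ≠ 0) : ∃ x : K I, pr x γ ≠ 0 := by
  classical
  obtain ⟨i, hi⟩ := Finsupp.ne_iff.mp h
  have hi' : (γ i : ℝ) ≠ 0 := by exact_mod_cast hi
  refine ⟨Pi.single i (((1 / (2 * γ i) : ℝ) : UnitAddCircle)), ?_⟩
  have : pr (Pi.single i (((1 / (2 * γ i) : ℝ) : UnitAddCircle))) γ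
      = ((1 / 2 : ℝ) : UnitAddCircle) := by
    rw [pr, Finsupp.linearCombination_apply, Finsupp.sum, Finset.sum_eq_single i]
    · rw [Pi.single_eq_same, ← AddCircle.coe_zsmul]
      congr 1
      rw [zsmul_eq_mul]; field_simp
    · intro j _ hj
      rw [Pi.single_eq_of_ne hj, smul_zero]
    · intro hh
      exact absurd (Finsupp.mem_support_iff.mpr hi) hh
  rw [this, Ne, AddCircle.coe_eq_zero_iff]
  rintro ⟨n, hn⟩
  rw [zsmul_eq_mul, mul_one] at hn
  have h2 : (2 * n : ℤ) = 1 := by
    have : (2 * n : ℝ) = 1 := by linarith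
    exact_mod_cast this
  omega

theorem int_ch {γ : G I} (h : γ ≠ 0) : ∫ x, ch γ x ∂mu I = 0 := by
  obtain ⟨a, ha⟩ := exists_pr_ne h
  have h1 := integral_add_left_eq_self (μ := mu I) (fun x => ch γ x) a
  simp only [ch_apply, pr_add, ee_add] at h1
  rw [integral_const_mul] at h1
  have h2 : ee (pr a γ) ≠ 1 := fun h3 => ha (ee_inj (h3.trans ee_zero.symm))
  have h3 : (ee (pr a γ) - 1) * ∫ x, ee (pr x γ) ∂mu I = 0 := by rw [sub_mul, h1]; simp
  exact (mul_eq_zero.mp h3).resolve_left (sub_ne_zero.mpr h2)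

theorem integrable_C (f : C(K I, ℂ)) (ν : Measure (K I)) [IsProbabilityMeasure ν] :
    Integrable f ν :=
  f.continuous.integrable_of_hasCompactSupport (HasCompactSupport.of_compactSpace _)

theorem meas_ext (ν : Measure (K I)) [IsProbabilityMeasure ν]
    (h : ∀ γ : G I, γ ≠ 0 → ∫ x, ch γ x ∂ν = 0) : ν = mu I := by
  have key : ∀ f : C(K I, ℂ), ∫ x, f x ∂ν = ∫ x, f x ∂mu I := by
    intro f
    have hf : f ∈ (Submodule.span ℂ (range (fam I).χ)).topologicalClosure := by
      rw [(fam I).span_closure]; trivial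
    have hcl : IsClosed {f : C(K I, ℂ) | ∫ x, f x ∂ν = ∫ x, f x ∂mu I} := by
      have hc : ∀ (m : Measure (K I)) [IsProbabilityMeasure m],
          Continuous fun f : C(K I, ℂ) => ∫ x, f x ∂m := by
        intro m _
        refine (LipschitzWith.of_dist_le_mul (K := 1) fun f g => ?_).continuous
        rw [dist_eq_norm, ← integral_sub (integrable_C f m) (integrable_C g m)]
        have := norm_integral_le_of_norm_le_const (μ := m) (f := fun x => f x - g x)
          (C := dist f g) (Eventually.of_forall fun x => by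
            rw [← dist_eq_norm]; exact ContinuousMap.dist_apply_le_dist x)
        simpa using this
      exact isClosed_eq (hc ν) (hc (mu I))
    refine closure_minimal (fun g hg => ?_) hcl hf
    induction hg using Submodule.span_induction with
    | mem g hg =>
      obtain ⟨γ, rfl⟩ := hg
      change ∫ x, ch γ x ∂ν = ∫ x, ch γ x ∂mu I
      by_cases h0 : γ = 0
      · subst h0; simp [ch_zero]
      · rw [h γ h0, int_ch h0]
    | zero => simp
    | add f g _ _ hf hg =>
      change ∫ x, (f x + g x) ∂ν = ∫ x, (f x + g x) ∂mu I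
      rw [integral_add (integrable_C f _) (integrable_C g _),
        integral_add (integrable_C f _) (integrable_C g _), hf, hg]
    | smul a f _ hf =>
      change ∫ x, a * f x ∂ν = ∫ x, a * f x ∂mu I
      rw [integral_const_mul, integral_const_mul, hf]
  refine ext_of_forall_integral_eq_of_IsFiniteMeasure fun f => ?_
  have := key ⟨fun x => (f x : ℂ), by fun_prop⟩
  simp only [ContinuousMap.coe_mk, integral_complex_ofReal] at this
  exact_mod_cast this

theorem aff_mp (Φ : G I →ₗ[ℤ] G I) (c : G I →ₗ[ℤ] UnitAddCircle) (hΦ : ∀ γ, Φ γ = 0 → γ = 0) :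
    MeasurePreserving (aff Φ c) (mu I) (mu I) := by
  have hm := (continuous_aff Φ c).measurable
  have : IsProbabilityMeasure ((mu I).map (aff Φ c)) :=
    Measure.isProbabilityMeasure_map hm.aemeasurable
  refine ⟨hm, meas_ext _ fun γ hγ => ?_⟩
  rw [integral_map hm.aemeasurable (ch γ).continuous.aestronglyMeasurable]
  simp only [ch_aff]
  rw [integral_const_mul, int_ch fun h => hγ (hΦ γ h), mul_zero]

/-- Bessel -/
theorem bessel (ν : Measure (K I)) [IsProbabilityMeasure ν] (g : ℕ → G I)
    (hg : ∀ n m, n ≠ m → ∫ x, ch (g n - g m) x ∂ν = 0) (F : K I → ℂ) (hF : MemLp F 2 ν) (r : ℝ)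
    (hr : ∀ n, ‖∫ x, ch (-g n) x * F x ∂ν‖ = r) : r = 0 := by
  classical
  set v : ℕ → Lp ℂ 2 ν := fun n => ContinuousMap.toLp (E := ℂ) 2 ν ℂ (ch (g n)) with hv
  have hin : ∀ (n : ℕ) (f : K I → ℂ) (hf : MemLp f 2 ν),
      inner ℂ (v n) (hf.toLp f) = ∫ x, ch (-g n) x * f x ∂ν := by
    intro n f hf
    rw [L2.inner_def]
    refine integral_congr_ae ?_
    filter_upwards [ContinuousMap.coeFn_toLp (p := 2) (𝕜 := ℂ) ν (ch (g n)), hf.coeFn_toLp]
      with y hy1 hy2
    rw [hv]
    simp only
    rw [hy1, hy2, ch_neg]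
    simp [mul_comm]
  have horth : Orthonormal ℂ v := by
    rw [orthonormal_iff_ite]
    intro n m
    rw [hv]
    simp only
    rw [ContinuousMap.inner_toLp]
    simp only [← ch_neg, ← ch_add]
    split_ifs with h
    · subst h; simp [ch_zero]
    · rw [← sub_eq_add_neg]; exact hg m n (Ne.symm h)
  have hs := (horth.inner_products_summable (x := hF.toLp F)).tendsto_atTop_zero
  simp only [hin, hr] at hs
  have := tendsto_nhds_unique hs tendsto_const_nhds
  exact pow_eq_zero_iff (two_ne_zero) |>.mp this.symm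

end Pool.Agent.H248Z.Aff
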