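import Pool.Agent.H248Z.AffCore

namespace Pool.Agent.H248Z.Aff

open MeasureTheory Filter Topology Set
open scoped ComplexConjugate
open Pool.Agent.Helper212.Sq

theorem krylov {Y : Type} [TopologicalSpace Y] [CompactSpace Y]
    [TopologicalSpace.MetrizableSpace Y] [MeasurableSpace Y] [BorelSpace Y] (T : Y → Y)
    (hT : Continuous T) (X : Set Y) (hX : IsClosed X) (x0 : Y) (hx0 : ∀ j, T^[j] x0 ∈ X) :
    ∃ μ : Measure Y, IsProbabilityMeasure μ ∧ μ Xᶜ = 0 ∧ MeasurePreserving T μ μ := by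
  classical
  let mm : ℕ → Measure Y := fun n =>
    ((n + 1 : ℕ) : ENNReal)⁻¹ • ∑ j ∈ Finset.range (n + 1), Measure.dirac (T^[j] x0)
  have hmmS : ∀ n (S : Set Y), (∀ j, T^[j] x0 ∈ S) → mm n S = 1 := by
    intro n S hS
    simp only [mm, Measure.smul_apply, Measure.finsetSum_apply, smul_eq_mul]
    rw [Finset.sum_congr rfl (g := fun _ => (1 : ENNReal))
      (fun j _ => Measure.dirac_apply_of_mem (hS j))]
    simp only [Finset.sum_const, Finset.card_range, nsmul_eq_mul, mul_one]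
    exact ENNReal.inv_mul_cancel (by simp) (by simp)
  have hmm : ∀ n, IsProbabilityMeasure (mm n) := fun n => ⟨hmmS n _ (fun _ => Set.mem_univ _)⟩
  let m : ℕ → ProbabilityMeasure Y := fun n => ⟨mm n, hmm n⟩
  have hint : ∀ (n : ℕ) (f : BoundedContinuousFunction Y ℝ), ∫ x, f x ∂(m n : Measure Y)
      = ((n:ℝ) + 1)⁻¹ * ∑ j ∈ Finset.range (n + 1), f (T^[j] x0) := by
    intro n f
    show ∫ x, f x ∂(mm n) = _
    simp only [mm]
    rw [integral_smul_measure, integral_finsetSum_measure (fun j _ => f.integrable _)]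
    simp only [integral_dirac, smul_eq_mul, ENNReal.toReal_inv, ENNReal.toReal_natCast]
    push_cast; rfl
  let U : Ultrafilter ℕ := Ultrafilter.of atTop
  have hU : (U : Filter ℕ) ≤ atTop := Ultrafilter.of_le atTop
  let μ : ProbabilityMeasure Y := (U.map m).lim
  have hμ : Tendsto m U (𝓝 μ) := (U.map m).le_nhds_lim
  have hμf := ProbabilityMeasure.tendsto_iff_forall_integral_tendsto.1 hμ
  have hinv : ∀ (f : BoundedContinuousFunction Y ℝ),
      ∫ x, f (T x) ∂(μ : Measure Y) = ∫ x, f x ∂(μ : Measure Y) := by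
    intro f
    have h1 := hμf f
    have h2 := hμf (f.compContinuous ⟨T, hT⟩)
    have h3 : Tendsto (fun n : ℕ => (∫ x, (f.compContinuous ⟨T, hT⟩) x ∂(m n : Measure Y))
        - ∫ x, f x ∂(m n : Measure Y)) U (𝓝 0) := by
      have h4 : Tendsto (fun n : ℕ => (2 * ‖f‖) * (1 / ((n : ℝ) + 1))) U (𝓝 ((2 * ‖f‖) * 0)) :=
        (tendsto_one_div_add_atTop_nhds_zero_nat.mono_left hU).const_mul _
      rw [mul_zero] at h4
      refine squeeze_zero_norm (fun n => ?_) h4
      rw [hint, hint, ← mul_sub, ← Finset.sum_sub_distrib]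
      have e : ∑ j ∈ Finset.range (n + 1), ((f.compContinuous ⟨T, hT⟩) (T^[j] x0) - f (T^[j] x0))
          = f (T^[n + 1] x0) - f (T^[0] x0) := by
        rw [← Finset.sum_range_sub (fun j => f (T^[j] x0)) (n + 1)]
        apply Finset.sum_congr rfl
        intro j _
        rw [Function.iterate_succ_apply']
        rfl
      rw [e, norm_mul, norm_inv, Real.norm_of_nonneg (by positivity), mul_comm, one_div]
      gcongr
      refine (norm_sub_le _ _).trans ?_
      linarith [f.norm_coe_le_norm (T^[n + 1] x0), f.norm_coe_le_norm (T^[0] x0)]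
    have h5 := tendsto_nhds_unique h3 (h2.sub h1)
    have h6 : (∫ x, (f.compContinuous ⟨T, hT⟩) x ∂(μ : Measure Y)) = ∫ x, f x ∂(μ : Measure Y) := by
      linarith
    exact h6
  refine ⟨μ, inferInstance, ?_, ⟨hT.measurable, ?_⟩⟩
  · have h := ProbabilityMeasure.limsup_measure_closed_le_of_tendsto hμ hX
    have e : (fun n => (m n : Measure Y) X) = fun _ => 1 := funext fun n => hmmS n X hx0
    rw [e, limsup_const] at h
    rw [prob_compl_eq_zero_iff hX.measurableSet]
    exact le_antisymm prob_le_one h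
  · have : IsProbabilityMeasure ((μ : Measure Y).map T) :=
      Measure.isProbabilityMeasure_map hT.measurable.aemeasurable
    refine ext_of_forall_integral_eq_of_IsFiniteMeasure fun f => ?_
    rw [integral_map hT.measurable.aemeasurable f.continuous.aestronglyMeasurable]
    exact hinv f

variable {I : Type}

/-- standing hypotheses on the data of an affine unipotent map -/
structure Good (σ : G I →ₗ[ℤ] G I) (ι : G I →ₗ[ℤ] UnitAddCircle) : Prop where
  nil : ∀ γ, σ (σ (σ γ)) = 0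
  inj : ∀ γ, ι γ = 0 → γ = 0

/-- the transformation -/
noncomputable def TT (σ : G I →ₗ[ℤ] G I) (ι : G I →ₗ[ℤ] UnitAddCircle) : K I → K I :=
  aff (LinearMap.id + σ) ι

theorem pr_TT (σ : G I →ₗ[ℤ] G I) (ι : G I →ₗ[ℤ] UnitAddCircle) (x : K I) (γ : G I) :
    pr (TT σ ι x) γ = pr x γ + pr x (σ γ) + ι γ := by
  simp [TT, pr_aff]

theorem ch_TT (σ : G I →ₗ[ℤ] G I) (ι : G I →ₗ[ℤ] UnitAddCircle) (x : K I) (γ : G I) :
    ch γ (TT σ ι x) = ee (ι γ) * ch (γ + σ γ) x := by
  simp [TT, ch_aff]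

variable {σ : G I →ₗ[ℤ] G I} {ι : G I →ₗ[ℤ] UnitAddCircle}

/-- the transformation as a homeomorphism -/
noncomputable def TH (h : Good σ ι) : K I ≃ₜ K I :=
  affH (LinearMap.id + σ) (LinearMap.id - σ + σ.comp σ) ι
    (fun γ => by simp [h.nil]) (fun γ => by simp [h.nil]; abel)

theorem TH_apply (h : Good σ ι) (x : K I) : TH h x = TT σ ι x := rfl

theorem continuous_TT : Continuous (TT σ ι) := continuous_aff _ _

theorem Good.one_add (h : Good σ ι) (γ : G I) (h0 : γ + σ γ = 0) : γ = 0 := by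
  have h1 : σ γ = -γ := by rw [eq_neg_iff_add_eq_zero, add_comm, h0]
  have := h.nil γ
  simp only [h1, map_neg, neg_neg] at this
  exact neg_eq_zero.mp this

/-- affine orbits in the dual group -/
noncomputable def orb (σ : G I →ₗ[ℤ] G I) (δ γ : G I) : ℕ → G I
  | 0 => γ
  | n + 1 => orb σ δ γ n + σ (orb σ δ γ n) - δ

theorem orb_inj (h : Good σ ι) (δ γ : G I) (hne : σ γ ≠ δ) : Function.Injective (orb σ δ γ) := by
  have hv : σ γ - δ ≠ 0 := sub_ne_zero.mpr hne
  obtain ⟨θ, h1, h2, h3⟩ : ∃ θ : G I →ₗ[ℤ] G I, θ (σ γ - δ) ≠ 0 ∧ σ (θ (σ γ - δ)) = 0 ∧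
      ∀ u, θ (σ u) = σ (θ u) := by
    by_cases c1 : σ (σ γ - δ) = 0
    · exact ⟨LinearMap.id, hv, c1, fun _ => rfl⟩
    by_cases c2 : σ (σ (σ γ - δ)) = 0
    · exact ⟨σ, c1, c2, fun _ => rfl⟩
    · exact ⟨σ.comp σ, c2, h.nil _, fun _ => rfl⟩
  have a1 : ∀ n, θ (σ (orb σ δ γ n) - δ) = θ (σ γ - δ) := by
    intro n
    induction n with
    | zero => rfl
    | succ n ih =>
      have : σ (orb σ δ γ (n + 1)) - δ
          = (σ (orb σ δ γ n) - δ) + σ (σ (orb σ δ γ n) - δ) := by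
        simp only [orb, map_sub, map_add]; abel
      rw [this, map_add, h3, ih, h2, add_zero]
  have a2 : ∀ n : ℕ, θ (orb σ δ γ n) = θ γ + (n : ℤ) • θ (σ γ - δ) := by
    intro n
    induction n with
    | zero => simp [orb]
    | succ n ih =>
      rw [orb, add_sub_assoc, map_add, ih, a1]
      push_cast
      rw [add_smul, one_smul, add_assoc]
  intro n m hnm
  have := congrArg θ hnm
  rw [a2, a2, add_right_inj, ← sub_eq_zero, ← sub_smul, smul_eq_zero] at this
  have h4 := this.resolve_right h1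
  omega

variable [Countable I]

theorem TT_mp (h : Good σ ι) : MeasurePreserving (TT σ ι) (mu I) (mu I) :=
  aff_mp _ _ fun γ hγ => h.one_add γ (by simpa using hγ)

theorem uniq_erg (h : Good σ ι) (ν : Measure (K I)) [IsProbabilityMeasure ν]
    (hν : MeasurePreserving (TT σ ι) ν ν) : ν = mu I := by
  have shift : ∀ γ, ∫ x, ch γ x ∂ν = ee (ι γ) * ∫ x, ch (γ + σ γ) x ∂ν := by
    intro γ
    rw [← integral_const_mul]
    simp only [← ch_TT]
    conv_lhs => rw [← hν.map_eq]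
    rw [integral_map hν.measurable.aemeasurable (ch γ).continuous.aestronglyMeasurable]
  have base : ∀ γ, γ ≠ 0 → σ γ = 0 → ∫ x, ch γ x ∂ν = 0 := by
    intro γ h0 h1
    have h2 := shift γ
    rw [h1, add_zero] at h2
    have h3 : ee (ι γ) ≠ 1 := fun h4 => h0 (h.inj γ (ee_inj (h4.trans ee_zero.symm)))
    have h4 : (ee (ι γ) - 1) * ∫ x, ch γ x ∂ν = 0 := by rw [sub_mul, ← h2]; simp
    exact (mul_eq_zero.mp h4).resolve_left (sub_ne_zero.mpr h3)
  have step : ∀ θ : G I →ₗ[ℤ] G I, (∀ u, θ (σ u) = σ (θ u)) →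
      (∀ γ, γ ≠ 0 → θ γ = 0 → ∫ x, ch γ x ∂ν = 0) →
      ∀ γ, γ ≠ 0 → σ (θ γ) = 0 → ∫ x, ch γ x ∂ν = 0 := by
    intro θ hθ ih γ h0 h1
    by_cases c1 : σ γ = 0
    · exact base γ h0 c1
    have hinj := orb_inj h 0 (-γ) (by simpa using c1)
    have a1 : ∀ n, θ (orb σ 0 (-γ) n) = θ (-γ) := by
      intro n
      induction n with
      | zero => rfl
      | succ n ih => rw [orb, sub_zero, map_add, hθ, ih, map_neg, map_neg, h1]; simp
    have := bessel ν (orb σ 0 (-γ)) (fun n m hnm => ih _ (sub_ne_zero.mpr (hinj.ne hnm))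
      (by rw [map_sub, a1, a1, sub_self])) (fun _ => 1) (memLp_const 1) ‖∫ x, ch γ x ∂ν‖ (by
        intro n
        simp only [mul_one]
        induction n with
        | zero => simp [orb]
        | succ n ih =>
          rw [← ih, shift (-orb σ 0 (-γ) n), norm_mul, norm_ee, one_mul, orb, sub_zero, map_neg,
            neg_add])
    exact norm_eq_zero.mp this
  have s1 := step σ (fun _ => rfl) base
  have s2 := step (σ.comp σ) (fun _ => rfl) s1
  exact meas_ext ν fun γ hγ => s2 γ hγ (h.nil γ)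

theorem dense_orbit (h : Good σ ι) (x : K I) : Dense (range fun n : ℕ => (TT σ ι)^[n] x) := by
  obtain ⟨ν, hp, h0, hν⟩ := krylov (TT σ ι) continuous_TT
    (closure (range fun n : ℕ => (TT σ ι)^[n] x)) isClosed_closure x
    (fun j => subset_closure ⟨j, rfl⟩)
  rw [uniq_erg h ν hν] at h0
  have := (isClosed_closure.isOpen_compl.measure_eq_zero_iff (mu I)).mp h0
  rw [dense_iff_closure_eq, ← compl_empty_iff, this]

theorem eig (h : Good σ ι) (F : K I → ℂ) (hF : MemLp F 2 (mu I)) (l : ℂ) (hl : ‖l‖ = 1) (δ : G I)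
    (hT : ∀ᵐ x ∂mu I, F (TT σ ι x) = l * ch δ x * F x) :
    F =ᵐ[mu I] 0 ∨ ∃ γ a, σ γ = δ ∧ ee (ι γ) = l ∧ ∀ᵐ x ∂mu I, F x = a * ch γ x := by
  have := wr (mu I)
  set c : G I → ℂ := fun γ => ∫ x, ch (-γ) x * F x ∂mu I with hc
  have shift : ∀ γ, c γ = ee (-ι γ) * l * c (γ + σ γ - δ) := by
    intro γ
    simp only [hc]
    rw [← integral_const_mul]
    conv_lhs => rw [← (TT_mp h).map_eq]
    rw [integral_map (TT_mp h).measurable.aemeasurable (by
      rw [(TT_mp h).map_eq]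
      exact (ch _).continuous.aestronglyMeasurable.mul hF.aestronglyMeasurable)]
    refine integral_congr_ae ?_
    filter_upwards [hT] with x hx
    rw [hx, ch_TT, map_neg, map_neg, show -(γ + σ γ - δ) = (-γ + -σ γ) + δ by abel, ch_add _ δ]
    ring
  have fix : ∀ γ, c γ ≠ 0 → σ γ = δ ∧ ee (ι γ) = l := by
    intro γ hγ
    have h1 : σ γ = δ := by
      by_contra hne
      have hinj := orb_inj h δ γ hne
      have := bessel (mu I) (orb σ δ γ) (fun n m hnm => int_ch (sub_ne_zero.mpr (hinj.ne hnm)))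
        F hF ‖c γ‖ (by
          intro n
          change ‖c (orb σ δ γ n)‖ = _
          induction n with
          | zero => rfl
          | succ n ih => rw [← ih, shift (orb σ δ γ n), norm_mul, norm_mul, norm_ee, hl, orb]; simp)
      exact hγ (norm_eq_zero.mp this)
    refine ⟨h1, ?_⟩
    have h2 := shift γ
    rw [h1, add_sub_cancel_right] at h2
    have h3 : ee (-ι γ) * l = 1 := by
      have : (ee (-ι γ) * l - 1) * c γ = 0 := by rw [sub_mul, ← h2]; simp
      exact sub_eq_zero.mp ((mul_eq_zero.mp this).resolve_right hγ)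
    have h4 : ee (-ι γ) * ee (ι γ) = 1 := by rw [← ee_add, neg_add_cancel, ee_zero]
    exact mul_left_cancel₀ (ee_ne _) (h4.trans h3.symm)
  by_cases hall : ∀ γ, c γ = 0
  · left
    refine (fam I).ae_zero (mu I) F hF fun d => ?_
    have := hall (-d)
    simp only [hc, neg_neg] at this
    exact this
  push Not at hall
  obtain ⟨γ, hγ⟩ := hall
  refine Or.inr ⟨γ, c γ, (fix γ hγ).1, (fix γ hγ).2, ?_⟩
  have hmem : MemLp (fun x => c γ * ch γ x) 2 (mu I) :=
    MemLp.of_bound (continuous_const.mul (ch γ).continuous).aestronglyMeasurable ‖c γ‖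
      (Eventually.of_forall fun x => by rw [norm_mul, norm_ch, mul_one])
  have hz := (fam I).ae_zero (mu I) (fun x => F x - c γ * ch γ x) (hF.sub hmem) (by
    intro d
    change ∫ x, ch d x * (F x - c γ * ch γ x) ∂mu I = 0
    have i1 : Integrable (fun x => ch d x * F x) (mu I) :=
      (hF.integrable (by norm_num)).bdd_mul (ch d).continuous.aestronglyMeasurable
        (Eventually.of_forall fun x => (norm_ch d x).le)
    have e : ∀ x, ch d x * (F x - c γ * ch γ x) = ch d x * F x - c γ * ch (d + γ) x := by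
      intro x; rw [ch_add]; ring
    simp only [e]
    rw [integral_sub i1 ((integrable_C (ch (d + γ)) _).const_mul _), integral_const_mul]
    have e2 : ∫ x, ch d x * F x ∂mu I = c (-d) := by simp only [hc, neg_neg]
    rw [e2]
    by_cases hd : d + γ = 0
    · rw [hd, show -d = γ by rw [neg_eq_iff_add_eq_zero, hd]]
      simp [ch_zero]
    · rw [int_ch hd, mul_zero, sub_zero]
      by_contra hne
      apply hd
      have h1 := fix _ hne
      have h2 := fix _ hγ
      have h3 : ι (-d) = ι γ := ee_inj (h1.2.trans h2.2.symm)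
      apply h.inj
      rw [map_add, ← h3, map_neg, add_neg_cancel])
  filter_upwards [hz] with x hx
  exact sub_eq_zero.mp hx

theorem ch_uniq {γ δ : G I} {a b : ℂ} (ha : a ≠ 0)
    (h : ∀ᵐ x ∂mu I, a * ch γ x = b * ch δ x) : γ = δ := by
  by_contra hne
  have h1 : ∫ x, a ∂mu I = ∫ x, b * ch (δ - γ) x ∂mu I := by
    refine integral_congr_ae ?_
    filter_upwards [h] with x hx
    rw [sub_eq_add_neg, ch_add, ← mul_assoc, ← hx, mul_assoc, ← ch_add, add_neg_cancel, ch_zero,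
      mul_one]
  rw [integral_const_mul, int_ch (sub_ne_zero.mpr (Ne.symm hne))] at h1
  simp at h1
  exact ha h1

theorem rigid {σ' : G I →ₗ[ℤ] G I} (h : Good σ ι) (h' : Good σ' ι) (φ : K I → K I)
    (hφ : MeasurePreserving φ (mu I) (mu I))
    (hc : ∀ᵐ x ∂mu I, φ (TT σ ι x) = TT σ' ι (φ x)) :
    ∃ Φ : G I →+ G I, (∀ γ, σ (Φ γ) = Φ (σ' γ)) ∧ ∀ γ, σ' γ = 0 → Φ γ = γ := by
  have step : ∀ γ δ (b : ℂ), ‖b‖ = 1 → (∀ᵐ x ∂mu I, ch (σ' γ) (φ x) = b * ch δ x) →
      ∃ γ' a, ‖a‖ = 1 ∧ σ γ' = δ ∧ ee (ι γ') = ee (ι γ) * b ∧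
        ∀ᵐ x ∂mu I, ch γ (φ x) = a * ch γ' x := by
    intro γ δ b hb hδ
    have hmem : MemLp (fun x => ch γ (φ x)) 2 (mu I) :=
      MemLp.of_bound (((ch γ).continuous.measurable.comp hφ.measurable).aestronglyMeasurable) 1
        (Eventually.of_forall fun x => (norm_ch _ _).le)
    rcases eig h (fun x => ch γ (φ x)) hmem (ee (ι γ) * b) (by rw [norm_mul, norm_ee, hb, one_mul])
      δ (by
        filter_upwards [hc, hδ] with x h1 h2
        rw [h1, ch_TT, ch_add, h2]; ring) with h0 | ⟨γ', a, h1, h2, h3⟩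
    · obtain ⟨x, hx⟩ := h0.exists
      have := norm_ch γ (φ x)
      simp only [Pi.zero_apply] at hx
      rw [hx] at this; simp at this
    · refine ⟨γ', a, ?_, h1, h2, h3⟩
      obtain ⟨x, hx⟩ := h3.exists
      have := norm_ch γ (φ x)
      rwa [hx, norm_mul, norm_ch, mul_one] at this
  have step' : ∀ γ, (∃ δ b, ‖b‖ = 1 ∧ ∀ᵐ x ∂mu I, ch (σ' γ) (φ x) = b * ch δ x) →
      ∃ δ b, ‖b‖ = 1 ∧ ∀ᵐ x ∂mu I, ch γ (φ x) = b * ch δ x := by
    rintro γ ⟨δ, b, hb, hδ⟩
    obtain ⟨γ', a, h1, -, -, h4⟩ := step γ δ b hb hδ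
    exact ⟨γ', a, h1, h4⟩
  have all : ∀ γ, ∃ δ b, ‖b‖ = 1 ∧ ∀ᵐ x ∂mu I, ch γ (φ x) = b * ch δ x := fun γ =>
    step' γ (step' _ (step' _ ⟨0, 1, norm_one, Eventually.of_forall fun x => by
      rw [h'.nil, ch_zero, ch_zero, one_mul]⟩))
  choose Φ a ha hΦ using all
  have ha0 : ∀ γ, a γ ≠ 0 := fun γ h0 => by have := ha γ; rw [h0] at this; simp at this
  have uniq : ∀ γ δ (b : ℂ), (∀ᵐ x ∂mu I, ch γ (φ x) = b * ch δ x) → Φ γ = δ := by
    intro γ δ b hb
    refine ch_uniq (ha0 γ) (b := b) ?_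
    filter_upwards [hΦ γ, hb] with x h1 h2
    rw [← h1, h2]
  refine ⟨AddMonoidHom.mk' Φ fun γ δ => uniq _ _ (a γ * a δ) ?_, fun γ => ?_, fun γ hγ => ?_⟩
  · filter_upwards [hΦ γ, hΦ δ] with x h1 h2
    rw [ch_add, h1, h2, ch_add]; ring
  · obtain ⟨γ', b, -, h2, -, h4⟩ := step γ _ _ (ha _) (hΦ (σ' γ))
    change σ (Φ γ) = Φ (σ' γ)
    rw [uniq γ γ' b h4, h2]
  · obtain ⟨γ', b, -, -, h3, h4⟩ := step γ 0 1 norm_one (Eventually.of_forall fun x => by
      rw [hγ, ch_zero, ch_zero, one_mul])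
    change Φ γ = γ
    rw [uniq γ γ' b h4, ← sub_eq_zero]
    apply h.inj
    rw [mul_one] at h3
    rw [map_sub, ee_inj h3, sub_self]

theorem TT_ergodic (h : Good σ ι) : Ergodic (TT σ ι) (mu I) := by
  refine ⟨TT_mp h, ⟨fun s hs hinv => ?_⟩⟩
  have hmem : MemLp (s.indicator fun _ => (1 : ℂ)) 2 (mu I) := (memLp_const 1).indicator hs
  have key : ∃ a : ℂ, ∀ᵐ x ∂mu I, s.indicator (fun _ => (1 : ℂ)) x = a := by
    rcases eig h _ hmem 1 norm_one 0 (Eventually.of_forall fun x => by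
      rw [ch_zero, one_mul, one_mul]
      have : TT σ ι x ∈ s ↔ x ∈ s := by
        conv_rhs => rw [← hinv]
        rfl
      by_cases hx : x ∈ s
      · rw [indicator_of_mem hx, indicator_of_mem (this.mpr hx)]
      · rw [indicator_of_notMem hx, indicator_of_notMem (fun h => hx (this.mp h))])
      with h0 | ⟨γ, a, -, h2, h3⟩
    · exact ⟨0, h0⟩
    · have : γ = 0 := h.inj γ (ee_inj (h2.trans ee_zero.symm))
      subst this
      exact ⟨a, by simpa [ch_zero] using h3⟩
  obtain ⟨a, ha⟩ := key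
  rw [eventuallyConst_set]
  by_cases h1 : a = 1
  · left
    filter_upwards [ha] with x hx
    by_contra hh
    rw [indicator_of_notMem hh, h1] at hx
    exact zero_ne_one hx
  · right
    filter_upwards [ha] with x hx hh
    rw [indicator_of_mem hh] at hx
    exact h1 hx.symm

end Pool.Agent.H248Z.Aff
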