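import Pool.Agent.H248Z.AffTree

namespace Pool.Agent.H248Z.Aff

open MeasureTheory Filter Topology Set

theorem zpow_semiconj {A B : Type} [TopologicalSpace A] [TopologicalSpace B] (e : A → B)
    (S : A ≃ₜ A) (T : B ≃ₜ B) (h : ∀ x, T (e x) = e (S x)) (n : ℤ) (x : A) :
    (T ^ n) (e x) = e ((S ^ n) x) := by
  induction n using Int.induction_on generalizing x with
  | zero => simp
  | succ n ih => rw [zpow_add_one, zpow_add_one, Homeomorph.mul_apply, Homeomorph.mul_apply, h, ih]
  | pred n ih =>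
    rw [zpow_sub_one, zpow_sub_one, Homeomorph.mul_apply, Homeomorph.mul_apply, ← ih]
    congr 1
    change T.symm (e x) = e (S.symm x)
    rw [Homeomorph.symm_apply_eq, h, S.apply_symm_apply]

theorem zpow_rel {A : Type} [TopologicalSpace A] (S : A ≃ₜ A) (R : A → A → Prop)
    (h : ∀ x y, R (S x) (S y) ↔ R x y) (n : ℤ) (x y : A) (hxy : R x y) :
    R ((S ^ n) x) ((S ^ n) y) := by
  induction n using Int.induction_on generalizing x y with
  | zero => simpa
  | succ n ih =>
    rw [zpow_add_one, Homeomorph.mul_apply, Homeomorph.mul_apply]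
    exact ih _ _ ((h x y).mpr hxy)
  | pred n ih =>
    rw [zpow_sub_one, Homeomorph.mul_apply, Homeomorph.mul_apply]
    refine ih _ _ ((h _ _).mp ?_)
    change R (S (S.symm x)) (S (S.symm y))
    rwa [S.apply_symm_apply, S.apply_symm_apply]

theorem pow_apply_iter {A : Type} [TopologicalSpace A] (S : A ≃ₜ A) (n : ℕ) (x : A) :
    (S ^ (n : ℤ)) x = S^[n] x := by
  induction n generalizing x with
  | zero => simp
  | succ n ih =>
    push_cast
    rw [zpow_add_one, Homeomorph.mul_apply, ih]; rfl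

variable {I : Type} {σ : G I →ₗ[ℤ] G I} {ι : G I →ₗ[ℤ] UnitAddCircle}

theorem distal_rel (h : Good σ ι) (x y : K I) (hxy : x ≠ y) :
    ∃ R : Set (K I × K I), IsClosed R ∧ (∀ p ∈ R, p.1 ≠ p.2) ∧
      ∀ n : ℤ, ((TH h ^ n) x, (TH h ^ n) y) ∈ R := by
  obtain ⟨θ, γ, h1, h2, h3⟩ : ∃ (θ : G I →ₗ[ℤ] G I) (γ : G I), pr x (θ γ) ≠ pr y (θ γ) ∧
      (∀ u, pr x (σ (θ u)) = pr y (σ (θ u))) ∧ ∀ u, θ (σ u) = σ (θ u) := by
    by_cases c1 : ∀ u, pr x (σ u) = pr y (σ u)
    · by_contra hcon
      push Not at hcon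
      refine hxy (K_ext fun γ => ?_)
      by_contra hne
      obtain ⟨u, hu⟩ := hcon LinearMap.id γ hne c1
      exact hu rfl
    push Not at c1
    obtain ⟨u1, hu1⟩ := c1
    by_cases c2 : ∀ u, pr x (σ (σ u)) = pr y (σ (σ u))
    · exact ⟨σ, u1, hu1, c2, fun _ => rfl⟩
    push Not at c2
    obtain ⟨u2, hu2⟩ := c2
    exact ⟨σ.comp σ, u2, hu2, fun u => by simp [h.nil], fun _ => rfl⟩
  refine ⟨{p | pr p.1 (θ γ) - pr p.2 (θ γ) = pr x (θ γ) - pr y (θ γ)} ∩
    ⋂ u, {p | pr p.1 (σ (θ u)) = pr p.2 (σ (θ u))}, ?_, ?_, fun n => ?_⟩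
  · refine (isClosed_eq (((continuous_pr _).comp continuous_fst).sub
      ((continuous_pr _).comp continuous_snd)) continuous_const).inter
      (isClosed_iInter fun u => isClosed_eq ((continuous_pr _).comp continuous_fst)
        ((continuous_pr _).comp continuous_snd))
  · rintro p ⟨hp, -⟩ he
    have hp' : pr p.1 (θ γ) - pr p.2 (θ γ) = pr x (θ γ) - pr y (θ γ) := hp
    rw [he, sub_self] at hp'
    exact h1 (sub_eq_zero.mp hp'.symm)
  · have := zpow_rel (TH h) (fun a b => pr a (θ γ) - pr b (θ γ) = pr x (θ γ) - pr y (θ γ) ∧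
      ∀ u, pr a (σ (θ u)) = pr b (σ (θ u))) (by
        intro a b
        simp only [TH_apply, pr_TT]
        constructor
        · rintro ⟨a1, a2⟩
          have a3 : ∀ u, pr a (σ (θ u)) = pr b (σ (θ u)) := by
            intro u
            have := a2 (u - σ u + σ (σ u))
            simp only [map_add, map_sub, h3, h.nil, map_zero, add_left_inj] at this
            simpa using this
          refine ⟨?_, a3⟩
          rw [← a1, a3]; abel
        · rintro ⟨a1, a2⟩
          refine ⟨?_, fun u => ?_⟩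
          · rw [← a1, a2]; abel
          · rw [a2, ← h3 u, a2]) n x y ⟨rfl, h2⟩
    exact ⟨this.1, mem_iInter.mpr this.2⟩

variable [Countable I]

theorem mp_of_semiconj {σ' : G I →ₗ[ℤ] G I} (h : Good σ ι) (h' : Good σ' ι) (φ : K I → K I)
    (hφ : Continuous φ) (hc : ∀ x, φ (TT σ ι x) = TT σ' ι (φ x)) :
    MeasurePreserving φ (mu I) (mu I) := by
  have : IsProbabilityMeasure ((mu I).map φ) :=
    Measure.isProbabilityMeasure_map hφ.measurable.aemeasurable
  refine ⟨hφ.measurable, uniq_erg h' _ ⟨continuous_TT.measurable, ?_⟩⟩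
  rw [Measure.map_map continuous_TT.measurable hφ.measurable,
    show TT σ' ι ∘ φ = φ ∘ TT σ ι from funext fun x => (hc x).symm,
    ← Measure.map_map hφ.measurable continuous_TT.measurable, (TT_mp h).map_eq]

end Pool.Agent.H248Z.Aff
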