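import Pool.Agent.H248Z.AffDyn
import Pool.Agent.Helper212.NonBorel

namespace Pool.Agent.H248Z.Aff

open MeasureTheory Filter Topology Set
open Pool.Agent.Helper212.Sq

/-- generators of the dual group -/
inductive Ix : Type
  | nd (s : List ℕ)
  | ga (e : Bool) (s : List ℕ) (k : ℕ)
  | te (n : ℕ)
  | th (e : Bool) (n k : ℕ)
  | le (n : ℕ)
  | lh (e : Bool) (n k : ℕ)
  | yy (e : Bool) (n k : ℕ)
  | zz (e : Bool) (s : List ℕ) (k : ℕ)

/-- coding of the generators -/
def Ix.code : Ix → ℕ × Bool × List ℕ × ℕ × ℕ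
  | .nd s => (0, false, s, 0, 0)
  | .ga e s k => (1, e, s, 0, k)
  | .te n => (2, false, [], n, 0)
  | .th e n k => (3, e, [], n, k)
  | .le n => (4, false, [], n, 0)
  | .lh e n k => (5, e, [], n, k)
  | .yy e n k => (6, e, [], n, k)
  | .zz e s k => (7, e, s, 0, k)

theorem Ix.code_inj : Function.Injective Ix.code := by
  intro a b h
  cases a <;> cases b <;> simp_all [Ix.code]

instance : Countable Ix := Ix.code_inj.countable

/-- basis vectors -/
noncomputable def b (i : Ix) : G Ix := Finsupp.single i 1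

/-- linear maps given on the basis -/
noncomputable def lin {M : Type} [AddCommGroup M] (f : Ix → M) : G Ix →ₗ[ℤ] M :=
  Finsupp.linearCombination ℤ f

@[simp] theorem lin_b {M : Type} [AddCommGroup M] (f : Ix → M) (i : Ix) : lin f (b i) = f i := by
  simp [lin, b]

theorem lin_ext {M : Type} [AddCommGroup M] {f g : G Ix →ₗ[ℤ] M} (h : ∀ i, f (b i) = g (b i)) :
    f = g :=
  Finsupp.lhom_ext' fun i => LinearMap.ext_ring (h i)

/-- the primes -/
noncomputable def pp (e : Bool) (n : ℕ) : ℕ := Nat.nth Nat.Prime (2 * n + e.toNat)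

theorem pp_prime (e : Bool) (n : ℕ) : (pp e n).Prime := Nat.prime_nth_prime _

theorem pp_inj {e e' : Bool} {n n' : ℕ} (h : pp e n = pp e' n') : e = e' ∧ n = n' := by
  have := Nat.nth_injective Nat.infinite_setOfPred_prime h
  cases e <;> cases e' <;> simp at this ⊢ <;> omega

/-- node vectors -/
noncomputable def vv (e : Bool) (s : List ℕ) : G Ix :=
  if e then b (.nd s) - b (.nd s.tail) else b (.nd s)

/-- level vectors -/
noncomputable def mm (e : Bool) (n : ℕ) : G Ix :=
  if e then b (.le n) - b (.le (n - 1)) else b (.le n)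

/-- values of the nilpotent map on generators -/
noncomputable def sb (κ : ℤ) (t : Bool) : Ix → G Ix
  | .le n => b (.te n)
  | .lh e n k => b (.th e n k)
  | .yy e n k => ((pp e n : ℤ) ^ k) • b (.lh e n k) - mm e n
      + (if e = false ∧ n = 0 then κ • b (.nd []) else 0)
  | .zz e s k => ((pp e s.length : ℤ) ^ k) • b (.ga e s k)
      - (if t = true ∧ s ≠ [] then vv e s else 0)
  | _ => 0

/-- the node a generator depends on -/
def Ix.node : Ix → List ℕ
  | .zz _ s _ => s
  | _ => []

/-- the nilpotent map -/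
noncomputable def sig (κ : ℤ) (τ : Tr) : G Ix →ₗ[ℤ] G Ix := lin fun i => sb κ (τ i.node) i

theorem sig_b (κ : ℤ) (τ : Tr) (i : Ix) : sig κ τ (b i) = sb κ (τ i.node) i := lin_b _ _

theorem sig_vv (κ : ℤ) (τ : Tr) (e : Bool) (s : List ℕ) : sig κ τ (vv e s) = 0 := by
  cases e <;> simp [vv, sig_b, sb]

theorem sig_nil (κ : ℤ) (τ : Tr) (γ : G Ix) : sig κ τ (sig κ τ (sig κ τ γ)) = 0 := by
  have : (sig κ τ).comp ((sig κ τ).comp (sig κ τ)) = 0 := lin_ext fun i => by
    cases i with
    | yy e n k =>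
      cases e <;> by_cases hn : n = 0 <;> simp [sig_b, sb, mm, hn]
    | zz e s k =>
      simp only [LinearMap.comp_apply, sig_b, sb, map_sub, map_zsmul]
      split_ifs <;> simp [sig_vv]
    | _ => simp [sig_b, sb]
  exact congrArg (fun f : G Ix →ₗ[ℤ] G Ix => f γ) this

theorem exists_theta : ∃ θ : Ix → ℝ, ∀ γ : G Ix, ((lin θ γ : ℝ) : UnitAddCircle) = 0 → γ = 0 := by
  obtain ⟨f, hf⟩ := exists_injective_nat Ix
  set t : ℝ := liouvilleNumber (2 : ℕ)
  have ht : Transcendental ℤ t := transcendental_liouvilleNumber le_rfl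
  have hli : LinearIndependent ℤ fun n : ℕ => t ^ n := by
    have h1 := (Polynomial.basisMonomials ℤ).linearIndependent.map' (Polynomial.aeval t).toLinearMap
      (LinearMap.ker_eq_bot.mpr (transcendental_iff_injective.mp ht))
    have h2 : (⇑(Polynomial.aeval t).toLinearMap ∘ ⇑(Polynomial.basisMonomials ℤ))
        = fun n : ℕ => t ^ n := by
      ext n; simp
    rw [h2] at h1
    exact h1
  have hli2 : LinearIndependent ℤ fun o : Option Ix => t ^ (o.elim 0 fun i => f i + 1) := by
    refine hli.comp (fun o : Option Ix => o.elim 0 fun i => f i + 1) ?_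
    intro a b hab
    cases a <;> cases b <;> simp_all [hf.eq_iff]
  refine ⟨fun i => t ^ (f i + 1), fun γ hγ => ?_⟩
  rw [AddCircle.coe_eq_zero_iff] at hγ
  obtain ⟨n, hn⟩ := hγ
  have h3 := linearIndependent_iff.mp hli2 (Finsupp.mapDomain some γ - Finsupp.single none n) (by
    rw [map_sub, Finsupp.linearCombination_mapDomain, Finsupp.linearCombination_single]
    simp only [Option.elim_none, pow_zero]
    rw [hn, sub_eq_zero]
    rfl)
  ext i
  have := congrArg (fun g => g (some i)) h3
  simpa [Finsupp.mapDomain_apply (Option.some_injective _)] using this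

/-- the rationally independent frequencies -/
noncomputable def theta : Ix → ℝ := exists_theta.choose

/-- reduction mod one -/
noncomputable def red : ℝ →ₗ[ℤ] UnitAddCircle :=
  (QuotientAddGroup.mk' (AddSubgroup.zmultiples (1 : ℝ))).toIntLinearMap

theorem red_apply (x : ℝ) : red x = (x : UnitAddCircle) := rfl

/-- the translation part -/
noncomputable def io : G Ix →ₗ[ℤ] UnitAddCircle := red.comp (lin theta)

theorem good (κ : ℤ) (τ : Tr) : Good (sig κ τ) io :=
  ⟨sig_nil κ τ, exists_theta.choose_spec⟩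

theorem continuous_TT_tree (κ : ℤ) : Continuous fun p : Tr × K Ix => TT (sig κ p.1) io p.2 := by
  refine continuous_pi fun i => ?_
  have h1 : Continuous fun q : Bool × K Ix => pr q.2 (b i + sb κ q.1 i) + io (b i) :=
    continuous_prod_of_discrete_left.mpr fun t =>
      (continuous_pr (b i + sb κ t i)).add (continuous_const (y := io (b i)))
  have h2 : Continuous fun p : Tr × K Ix => (p.1 i.node, p.2) := by fun_prop
  refine (h1.comp h2).congr fun p => ?_
  change _ = pr p.2 (b i + sig κ p.1 (b i)) + io (b i)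
  rw [sig_b]; rfl

/-! ### a branch gives a conjugacy -/

/-- the nilpotent part of the conjugacy -/
noncomputable def NN (w : ℕ → ℕ) : G Ix →ₗ[ℤ] G Ix := lin fun i => match i with
  | .le n => - b (.nd (br w n))
  | .lh e n k => if n = 0 then 0 else - b (.ga e (br w n) k)
  | .yy e n k => if n = 0 then 0 else - b (.zz e (br w n) k)
  | _ => 0

theorem NN_NN (w : ℕ → ℕ) (γ : G Ix) : NN w (NN w γ) = 0 := by
  have : (NN w).comp (NN w) = 0 := lin_ext fun i => by
    cases i with
    | lh e n k => by_cases hn : n = 0 <;> simp [NN, hn]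
    | yy e n k => by_cases hn : n = 0 <;> simp [NN, hn]
    | _ => simp [NN]
  exact congrArg (fun f : G Ix →ₗ[ℤ] G Ix => f γ) this

theorem NN_vv (w : ℕ → ℕ) (e : Bool) (s : List ℕ) : NN w (vv e s) = 0 := by
  cases e <;> simp [vv, NN]

theorem NN_sig (w : ℕ → ℕ) (τ : Tr) (hw : ∀ n, τ (br w n) = true) (γ : G Ix) :
    sig 1 τ (γ + NN w γ) = sig 0 τ γ + NN w (sig 0 τ γ) := by
  have : (sig 1 τ).comp (LinearMap.id + NN w) = (LinearMap.id + NN w).comp (sig 0 τ) :=
    lin_ext fun i => by
    cases i with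
    | lh e n k => by_cases hn : n = 0 <;> simp [NN, hn, sig_b, sb]
    | yy e n k =>
      cases n with
      | zero => cases e <;> simp [NN, sig_b, sb, mm, br]
      | succ n =>
        have h1 := hw (n + 1)
        have h2 := br_length w n
        cases e <;> simp [NN, sig_b, sb, mm, br, vv, Ix.node, h2] at h1 ⊢ <;> simp [h1] <;> abel
    | zz e s k =>
      simp only [LinearMap.comp_apply, LinearMap.add_apply, LinearMap.id_apply, sig_b, sb, map_sub,
        map_zsmul, map_add]
      split_ifs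
      · rw [NN_vv]; simp [NN]
      · simp [NN]
    | _ => simp [NN, sig_b, sb]
  exact congrArg (fun f : G Ix →ₗ[ℤ] G Ix => f γ) this

/-- the translation part of the conjugacy -/
noncomputable def cc (w : ℕ → ℕ) : G Ix →ₗ[ℤ] UnitAddCircle := lin fun i => match i with
  | .te n => io (NN w (b (.le n)))
  | .th e n k => io (NN w (b (.lh e n k)))
  | .lh e n k => red (lin theta (NN w (b (.yy e n k))) / (pp e n : ℝ) ^ k)
  | _ => 0

theorem cc_vv (w : ℕ → ℕ) (e : Bool) (s : List ℕ) : cc w (vv e s) = 0 := by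
  cases e <;> simp [vv, cc]

theorem cc_sig (w : ℕ → ℕ) (τ : Tr) (γ : G Ix) : cc w (sig 0 τ γ) = io (NN w γ) := by
  have : (cc w).comp (sig 0 τ) = io.comp (NN w) := lin_ext fun i => by
    cases i with
    | le n => simp [sig_b, sb, cc]
    | lh e n k => simp [sig_b, sb, cc]
    | yy e n k =>
      have h1 : cc w (mm e n) = 0 := by cases e <;> simp [mm, cc]
      have h2 : (pp e n : ℝ) ≠ 0 := by exact_mod_cast (pp_prime e n).ne_zero
      simp only [LinearMap.comp_apply, sig_b, sb, zero_smul, ite_self, add_zero, map_sub, h1,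
        sub_zero, map_zsmul]
      simp only [cc, lin_b]
      rw [← map_zsmul, io, LinearMap.comp_apply]
      congr 1
      rw [zsmul_eq_mul]
      push_cast
      field_simp
    | zz e s k =>
      simp only [LinearMap.comp_apply, sig_b, sb, map_sub, map_zsmul]
      split_ifs
      · rw [cc_vv]; simp [cc, NN]
      · simp [cc, NN]
    | _ => simp [sig_b, sb, NN]
  exact congrArg (fun f : G Ix →ₗ[ℤ] UnitAddCircle => f γ) this

theorem conj_of_branch (τ : Tr) (w : ℕ → ℕ) (hw : ∀ n, τ (br w n) = true) :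
    ∃ φ : K Ix ≃ₜ K Ix, MeasurePreserving φ (mu Ix) (mu Ix) ∧
      ∀ x, φ (TT (sig 1 τ) io x) = TT (sig 0 τ) io (φ x) := by
  refine ⟨affH (LinearMap.id + NN w) (LinearMap.id - NN w) (cc w) (fun γ => by simp [NN_NN])
    (fun γ => by simp [NN_NN]), aff_mp _ _ fun γ hγ => ?_, fun x => K_ext fun γ => ?_⟩
  · have h1 := congrArg (NN w) hγ
    simp only [LinearMap.add_apply, LinearMap.id_apply, map_add, NN_NN, add_zero, map_zero] at h1
    simpa [h1] using hγ
  · change pr (aff _ _ _) γ = pr (TT _ _ (aff _ _ x)) γ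
    rw [pr_aff, pr_TT, pr_TT, pr_aff, pr_aff]
    simp only [LinearMap.add_apply, LinearMap.id_apply]
    rw [NN_sig w τ hw, cc_sig, map_add io]
    abel

/-! ### a conjugacy gives a branch -/

/-- rational node vectors -/
noncomputable def vq (e : Bool) (s : List ℕ) : List ℕ →₀ ℚ :=
  if e then Finsupp.single s 1 - Finsupp.single s.tail 1 else Finsupp.single s 1

/-- evaluation of the first level -/
noncomputable def psi (τ : Tr) : G Ix →ₗ[ℤ] (List ℕ →₀ ℚ) := lin fun i => match i with
  | .nd s => Finsupp.single s 1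
  | .ga e s k => if τ s = true ∧ s ≠ [] then (((pp e s.length : ℚ) ^ k)⁻¹) • vq e s else 0
  | _ => 0

/-- a rational solution -/
noncomputable def rho : G Ix →ₗ[ℤ] (List ℕ →₀ ℚ) := lin fun i => match i with
  | .lh e n k => if e = false ∧ n = 0 then (((pp e n : ℚ) ^ k)⁻¹) • Finsupp.single [] 1 else 0
  | _ => 0

/-- its copy one level down -/
noncomputable def rho' : G Ix →ₗ[ℤ] (List ℕ →₀ ℚ) := lin fun i => match i with
  | .th e n k => rho (b (.lh e n k))
  | _ => 0

theorem zsmul_inv (e : Bool) (n k : ℕ) (v : List ℕ →₀ ℚ) :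
    ((pp e n : ℤ) ^ k) • ((((pp e n : ℚ) ^ k)⁻¹) • v) = v := by
  have h2 : (pp e n : ℚ) ≠ 0 := by exact_mod_cast (pp_prime e n).ne_zero
  rw [← Int.cast_smul_eq_zsmul ℚ, smul_smul]
  push_cast
  rw [mul_inv_cancel₀ (pow_ne_zero _ h2), one_smul]

theorem psi_sig (τ : Tr) (γ : G Ix) : psi τ (sig 1 τ γ) = rho (sig 1 τ γ) := by
  have : (psi τ).comp (sig 1 τ) = rho.comp (sig 1 τ) := lin_ext fun i => by
    cases i with
    | yy e n k =>
      have h1 : psi τ (mm e n) = 0 := by cases e <;> simp [mm, psi]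
      have h2 : rho (mm e n) = 0 := by cases e <;> simp [mm, rho]
      simp only [LinearMap.comp_apply, sig_b, sb, map_sub, map_add, map_zsmul, h1, h2]
      simp only [psi, rho, lin_b]
      split_ifs
      · rw [zsmul_inv]; simp
      · simp
    | zz e s k =>
      have h1 : psi τ (vv e s) = vq e s := by cases e <;> simp [vv, vq, psi]
      have h2 : rho (vv e s) = 0 := by cases e <;> simp [vv, rho]
      simp only [LinearMap.comp_apply, sig_b, sb, map_sub, map_zsmul, Ix.node]
      by_cases hs : τ s = true ∧ s ≠ []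
      · rw [if_pos hs, h1, h2]
        simp only [psi, rho, lin_b, if_pos hs, zsmul_inv]
        simp
      · rw [if_neg hs]
        simp only [psi, rho, lin_b, if_neg hs]
        simp
    | _ => simp [sig_b, sb, psi, rho]
  exact congrArg (fun f : G Ix →ₗ[ℤ] (List ℕ →₀ ℚ) => f γ) this

theorem rho'_sig (τ : Tr) (γ : G Ix) : rho' (sig 1 τ γ) = rho γ := by
  have : rho'.comp (sig 1 τ) = rho := lin_ext fun i => by
    cases i with
    | lh e n k => simp [sig_b, sb, rho']
    | yy e n k => cases e <;> by_cases hn : n = 0 <;> simp [sig_b, sb, rho', rho, mm, hn]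
    | zz e s k =>
      have h2 : rho' (vv e s) = 0 := by cases e <;> simp [vv, rho']
      simp only [LinearMap.comp_apply, sig_b, sb, map_sub, map_zsmul]
      split_ifs
      · rw [h2]; simp [rho', rho]
      · simp [rho', rho]
    | _ => simp [sig_b, sb, rho', rho]
  exact congrArg (fun f : G Ix →ₗ[ℤ] (List ℕ →₀ ℚ) => f γ) this

/-- integrality at a prime -/
def PI (p : ℕ) (q : ℚ) : Prop := ∃ m : ℕ, ¬ p ∣ m ∧ ∃ z : ℤ, q * m = z

theorem PI.int {p : ℕ} (hp : p.Prime) (z : ℤ) : PI p z :=
  ⟨1, by simpa using hp.ne_one, z, by simp⟩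

theorem PI.add {p : ℕ} (hp : p.Prime) {q r : ℚ} (h1 : PI p q) (h2 : PI p r) : PI p (q + r) := by
  obtain ⟨m, hm, z, hz⟩ := h1
  obtain ⟨m', hm', z', hz'⟩ := h2
  refine ⟨m * m', fun h => (hp.dvd_mul.mp h).elim hm hm', z * m' + z' * m, ?_⟩
  push_cast
  rw [← hz, ← hz']; ring

theorem PI.zsmul {p : ℕ} {q : ℚ} (h1 : PI p q) (n : ℤ) : PI p (n • q) := by
  obtain ⟨m, hm, z, hz⟩ := h1
  refine ⟨m, hm, n * z, ?_⟩
  push_cast
  rw [← hz, zsmul_eq_mul]; ring

theorem PI.zero_of_div {p : ℕ} (hp : p.Prime) {q : ℚ} (h : ∀ k : ℕ, ∃ r, PI p r ∧ q = p ^ k * r) :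
    q = 0 := by
  have hk : ∀ k : ℕ, (p : ℤ) ^ k ∣ q.num := by
    intro k
    obtain ⟨r, ⟨m, hm, z, hz⟩, hq⟩ := h k
    have h1 : (q.num * m : ℤ) = p ^ k * (z * q.den) := by
      have : (q.num : ℚ) * m = p ^ k * (z * q.den) := by
        rw [← hz, ← Rat.mul_den_eq_num q]
        nth_rewrite 1 [hq]
        ring
      exact_mod_cast this
    have h2 : IsCoprime ((p : ℤ) ^ k) (m : ℤ) :=
      (Nat.isCoprime_iff_coprime.mpr ((Nat.Prime.coprime_iff_not_dvd hp).mpr hm)).pow_left
    exact h2.dvd_of_dvd_mul_right ⟨_, h1⟩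
  rw [← Rat.num_eq_zero]
  refine Int.eq_zero_of_abs_lt_dvd (hk q.num.natAbs) ?_
  rw [Int.abs_eq_natAbs]
  exact_mod_cast Nat.lt_pow_self hp.one_lt

/-- weighted sums -/
noncomputable def wt (w : List ℕ → ℤ) : (List ℕ →₀ ℚ) →ₗ[ℚ] ℚ :=
  Finsupp.linearCombination ℚ fun s => (w s : ℚ)

theorem wt_single (w : List ℕ → ℤ) (s : List ℕ) : wt w (Finsupp.single s 1) = w s := by simp [wt]

theorem wt_PI (τ : Tr) (w : List ℕ → ℤ) (e : Bool) (n : ℕ)
    (hw : ∀ s, τ s = true → s ≠ [] → s.length = n → wt w (vq e s) = 0) (γ : G Ix) :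
    PI (pp e n) (wt w (psi τ γ)) := by
  have hp := pp_prime e n
  induction γ using Finsupp.induction_linear with
  | zero => simpa using PI.int hp 0
  | add f g hf hg => rw [map_add, map_add]; exact hf.add hp hg
  | single i z =>
    have : Finsupp.single i z = z • b i := by simp [b]
    rw [this, map_zsmul, map_zsmul]
    refine PI.zsmul ?_ z
    cases i with
    | nd s => simpa [psi, wt_single] using PI.int hp (w s)
    | ga e' s k =>
      simp only [psi, lin_b]
      split_ifs with hs
      · by_cases hh : e' = e ∧ s.length = n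
        · rw [map_smul, hh.1, hw s hs.1 hs.2 hh.2]
          simpa using PI.int hp 0
        · obtain ⟨z, hz⟩ : ∃ z : ℤ, wt w (vq e' s) = z := by
            cases e'
            · exact ⟨w s, by simp [vq, wt_single]⟩
            · exact ⟨w s - w s.tail, by simp [vq, wt_single]⟩
          have h2 : (pp e' s.length : ℚ) ≠ 0 := by exact_mod_cast (pp_prime _ _).ne_zero
          refine ⟨pp e' s.length ^ k, fun h => hh ?_, z, ?_⟩
          · have := (Nat.prime_dvd_prime_iff_eq hp (pp_prime _ _)).mp (hp.dvd_of_dvd_pow h)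
            exact ⟨(pp_inj this).1.symm, (pp_inj this).2.symm⟩
          · rw [map_smul, hz, smul_eq_mul]
            push_cast
            field_simp
      · simpa using PI.int hp 0
    | _ => simpa [psi] using PI.int hp 0

theorem path_of_hom (τ : Tr) (Φ : G Ix →+ G Ix) (h1 : ∀ γ, sig 1 τ (Φ γ) = Φ (sig 0 τ γ))
    (h2 : ∀ γ, sig 0 τ γ = 0 → Φ γ = γ) : HasPath τ := by
  classical
  have hr1 : ∀ n, rho (Φ (b (.le n))) = 0 := by
    intro n
    rw [← rho'_sig τ, h1, sig_b, sb, h2 _ (by simp [sig_b, sb])]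
    simp [rho']
  have hr2 : ∀ e n k, rho (Φ (b (.lh e n k))) = rho (b (.lh e n k)) := by
    intro e n k
    rw [← rho'_sig τ, h1, sig_b, sb, h2 _ (by simp [sig_b, sb])]
    simp [rho']
  have hr3 : ∀ e n, rho (Φ (mm e n)) = 0 := by
    intro e n
    cases e <;> simp [mm, hr1]
  have eq : ∀ e n k, ((pp e n : ℤ) ^ k) • psi τ (Φ (b (.lh e n k))) - psi τ (Φ (mm e n))
      = if e = false ∧ n = 0 then Finsupp.single [] 1 else 0 := by
    intro e n k
    have h3 := psi_sig τ (Φ (b (.yy e n k)))
    rw [h1, sig_b, sb] at h3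
    simp only [zero_smul, ite_self, add_zero, map_sub, map_zsmul, hr2, hr3, sub_zero] at h3
    rw [h3]
    simp only [rho, lin_b]
    split_ifs
    · rw [zsmul_inv]
    · simp
  have key : ∀ (w : List ℕ → ℤ) e n,
      (∀ s, τ s = true → s ≠ [] → s.length = n → wt w (vq e s) = 0) →
      wt w (psi τ (Φ (mm e n))) + (if e = false ∧ n = 0 then (w [] : ℚ) else 0) = 0 := by
    intro w e n hw
    refine PI.zero_of_div (pp_prime e n) fun k => ⟨_, wt_PI τ w e n hw (Φ (b (.lh e n k))), ?_⟩
    have h3 := congrArg (wt w) (eq e n k)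
    rw [map_sub, map_zsmul, zsmul_eq_mul] at h3
    push_cast at h3
    split_ifs at h3 ⊢
    · rw [wt_single] at h3; linarith
    · rw [map_zero] at h3; linarith
  set g : ℕ → (List ℕ →₀ ℚ) := fun n => psi τ (Φ (b (.le n))) with hg
  have A : ∀ (w : List ℕ → ℤ) n, (∀ s, τ s = true → s ≠ [] → s.length = n → w s = 0) →
      wt w (g n) + (if n = 0 then (w [] : ℚ) else 0) = 0 := by
    intro w n hw
    have := key w false n fun s a1 a2 a3 => by simp [vq, wt_single, hw s a1 a2 a3]
    simpa [mm] using this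
  have B : ∀ (w : List ℕ → ℤ) n, (∀ s, s.length = n + 1 → w s = w s.tail) →
      wt w (g (n + 1)) = wt w (g n) := by
    intro w n hw
    have := key w true (n + 1) fun s _ _ a3 => by simp [vq, wt_single, hw s a3]
    simpa [mm, sub_eq_zero] using this
  have wt_ind : ∀ (t : List ℕ) (v : List ℕ →₀ ℚ), wt (fun s => if s = t then 1 else 0) v = v t := by
    intro t v
    rw [wt, Finsupp.linearCombination_apply, Finsupp.sum, Finset.sum_eq_single t]
    · simp
    · intro s _ hs; simp [hs]
    · intro ht; simp [Finsupp.notMem_support_iff.mp ht]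
  have wt_add : ∀ (w w' : List ℕ → ℤ) (v : List ℕ →₀ ℚ),
      wt (fun s => w s + w' s) v = wt w v + wt w' v := by
    intro w w' v
    simp only [wt, Finsupp.linearCombination_apply, Finsupp.sum, ← Finset.sum_add_distrib]
    refine Finset.sum_congr rfl fun s _ => ?_
    push_cast
    simp [mul_add]
  have root : g 0 [] ≠ 0 := by
    have := A (fun s => if s = [] then 1 else 0) 0 fun s _ a2 _ => by simp [a2]
    rw [wt_ind] at this
    intro h0
    simp [h0] at this
  have step : ∀ t : List ℕ, g t.length t ≠ 0 →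
      ∃ i, τ (i :: t) = true ∧ g (t.length + 1) (i :: t) ≠ 0 := by
    intro t ht
    by_contra hcon
    push Not at hcon
    set w1 : List ℕ → ℤ := fun s => if s = t then 1 else 0 with hw1
    set w2 : List ℕ → ℤ := fun s => if s.tail = t ∧ s ≠ [] ∧ τ s = true then 1 else 0 with hw2
    set w3 : List ℕ → ℤ := fun s => if s.tail = t ∧ s ≠ [] ∧ τ s ≠ true then 1 else 0 with hw3
    have hlen : ∀ s : List ℕ, s.tail = t → s ≠ [] → s.length = t.length + 1 := by
      intro s a1 a2
      cases s with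
      | nil => exact absurd rfl a2
      | cons i s => simp at a1; simp [a1]
    have b1 := B (fun s => w1 s + (w2 s + w3 s)) t.length (by
      intro s hs
      cases s with
      | nil => simp at hs
      | cons i s =>
        have hs' : s.length = t.length := by simpa using hs
        have c1 : i :: s ≠ t := fun h => by rw [← h] at hs'; simp at hs'
        have c2 : ¬ (s.tail = t ∧ s ≠ []) := fun h => by have := hlen s h.1 h.2; omega
        have c3 : w2 s = 0 := if_neg fun h => c2 ⟨h.1, h.2.1⟩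
        have c4 : w3 s = 0 := if_neg fun h => c2 ⟨h.1, h.2.1⟩
        simp only [List.tail_cons, c3, c4]
        by_cases c5 : s = t <;> by_cases c6 : τ (i :: s) = true <;> simp [hw1, hw2, hw3, c1, c5, c6]
        all_goals simp_all)
    have b2 := A (fun s => w2 s + w3 s) t.length (by
      intro s _ a2 a3
      have c2 : ¬ (s.tail = t ∧ s ≠ []) := fun h => by have := hlen s h.1 h.2; omega
      have c3 : w2 s = 0 := if_neg fun h => c2 ⟨h.1, h.2.1⟩
      have c4 : w3 s = 0 := if_neg fun h => c2 ⟨h.1, h.2.1⟩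
      simp [c3, c4])
    have b3 := A (fun s => w1 s + w3 s) (t.length + 1) (by
      intro s a1 _ a3
      have c1 : s ≠ t := fun h => by rw [h] at a3; omega
      simp [hw1, hw3, c1, a1])
    have b4 : wt w2 (g (t.length + 1)) = 0 := by
      rw [wt, Finsupp.linearCombination_apply, Finsupp.sum]
      refine Finset.sum_eq_zero fun s _ => ?_
      by_cases c : s.tail = t ∧ s ≠ [] ∧ τ s = true
      · cases s with
        | nil => exact absurd rfl c.2.1
        | cons i s =>
          have c1 : s = t := by simpa using c.1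
          subst c1
          rw [hcon i c.2.2, zero_smul]
      · simp [hw2, c]
    have c0 : ((w2 [] + w3 [] : ℤ) : ℚ) = 0 := by simp [hw2, hw3]
    simp only [wt_add, c0, ite_self, add_zero, Nat.add_eq_zero_iff, one_ne_zero, and_false,
      if_false] at b1 b2 b3
    rw [wt_ind t (g t.length), b2, b4] at b1
    apply ht
    linarith
  choose! nx hnx using step
  let t : ℕ → List ℕ := fun k => Nat.rec [] (fun _ s => nx s :: s) k
  have ht : ∀ k, g (t k).length (t k) ≠ 0 := by
    intro k
    induction k with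
    | zero => exact root
    | succ k ih => exact (hnx _ ih).2
  exact ⟨t, fun k => ⟨nx (t k), rfl⟩, fun k => (hnx _ (ht k)).1⟩

theorem path_of_conj (τ : Tr) (φ : K Ix → K Ix) (hφ : MeasurePreserving φ (mu Ix) (mu Ix))
    (hc : ∀ᵐ x ∂mu Ix, φ (TT (sig 1 τ) io x) = TT (sig 0 τ) io (φ x)) : HasPath τ := by
  obtain ⟨Φ, h1, h2⟩ := rigid (good 1 τ) (good 0 τ) φ hφ hc
  exact path_of_hom τ Φ h1 h2

end Pool.Agent.H248Z.Aff
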