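import Mathlib

set_option autoImplicit false

namespace Pool.Agent.H248Z.Am

open Relation

variable {Q A : Type}

/-- One step of an always-marking automaton on the input `w`. -/
def Step (δL δR : Q → Finset (Q × Bool)) (δU δM : Q → A → Finset (Q × Bool)) (w : List A)
    (x y : Q × ℕ × ℕ) : Prop :=
  (x.2.1 = 0 ∧ (y.1, true) ∈ δL x.1 ∧ y.2.1 = 1 ∧ y.2.2 = x.2.2) ∨
  (x.2.1 = w.length + 1 ∧ (y.1, false) ∈ δR x.1 ∧
    y.2.1 = w.length ∧ y.2.2 = x.2.2) ∨
  (∃ a : A, 1 ≤ x.2.1 ∧ w[x.2.1 - 1]? = some a ∧
    ∃ b : Bool,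
      (y.1, b) ∈ (if x.2.1 ≤ x.2.2 then δM x.1 a else δU x.1 a) ∧
      y.2.1 = (if b then x.2.1 + 1 else x.2.1 - 1) ∧
      y.2.2 = max x.2.2 x.2.1)

/-- Acceptance from a configuration. -/
def AccFrom (δL δR : Q → Finset (Q × Bool)) (δU δM : Q → A → Finset (Q × Bool))
    (F : Finset Q) (w : List A) (c : Q × ℕ × ℕ) : Prop :=
  ∃ q : Q, ∃ i j : ℕ, ReflTransGen (Step δL δR δU δM w) c (q, i, j) ∧
    i = w.length + 1 ∧ ∃ q' ∈ F, (q', true) ∈ δR q

lemma AccFrom.head {δL δR : Q → Finset (Q × Bool)} {δU δM : Q → A → Finset (Q × Bool)}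
    {F : Finset Q} {w : List A} {c d : Q × ℕ × ℕ}
    (h : ReflTransGen (Step δL δR δU δM w) c d) (hd : AccFrom δL δR δU δM F w d) :
    AccFrom δL δR δU δM F w c := by
  obtain ⟨q, i, j, h1, h2⟩ := hd
  exact ⟨q, i, j, h.trans h1, h2⟩

lemma step_map {B : Type} (δL δR : Q → Finset (Q × Bool)) (δU δM : Q → B → Finset (Q × Bool))
    (f : A → B) (w : List A) :
    Step δL δR δU δM (w.map f) =
      Step δL δR (fun q a => δU q (f a)) (fun q a => δM q (f a)) w := by
  funext x y
  apply propext
  unfold Step
  simp only [List.length_map, List.getElem?_map, Option.map_eq_some_iff]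
  refine or_congr Iff.rfl (or_congr Iff.rfl ?_)
  constructor
  · rintro ⟨a, h1, ⟨a', h2, rfl⟩, h3⟩
    exact ⟨a', h1, h2, h3⟩
  · rintro ⟨a, h1, h2, h3⟩
    exact ⟨f a, h1, ⟨a, h2, rfl⟩, h3⟩

lemma accFrom_map {B : Type} (δL δR : Q → Finset (Q × Bool))
    (δU δM : Q → B → Finset (Q × Bool)) (F : Finset Q)
    (f : A → B) (w : List A) (c : Q × ℕ × ℕ) :
    AccFrom δL δR δU δM F (w.map f) c ↔
      AccFrom δL δR (fun q a => δU q (f a)) (fun q a => δM q (f a)) F w c := by
  unfold AccFrom
  rw [step_map, List.length_map]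

/-- Walks inside a marked factor until the head leaves it. -/
inductive Walk (δM : Q → A → Finset (Q × Bool)) (v : List A) : Q → ℕ → Q → Bool → Prop
  | exitL {p p' : Q} {a : A} : v[0]? = some a → (p', false) ∈ δM p a → Walk δM v p 0 p' false
  | exitR {p p' : Q} {a : A} {i : ℕ} : v[i]? = some a → i + 1 = v.length →
      (p', true) ∈ δM p a → Walk δM v p i p' true
  | stepL {p p1 p' : Q} {a : A} {i : ℕ} {s : Bool} : v[i + 1]? = some a →
      (p1, false) ∈ δM p a → Walk δM v p1 i p' s → Walk δM v p (i + 1) p' s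
  | stepR {p p1 p' : Q} {a : A} {i : ℕ} {s : Bool} : v[i]? = some a →
      (p1, true) ∈ δM p a → Walk δM v p1 (i + 1) p' s → Walk δM v p i p' s

/-- The two-way behaviour of a marked factor. -/
def Beh (δM : Q → A → Finset (Q × Bool)) (v : List A) : Q → Bool → Q → Bool → Prop :=
  fun p s p' s' => Walk δM v p (if s then v.length - 1 else 0) p' s'

lemma get_mid (y c : A) (v : List A) (k : ℕ) (hk : k < v.length) :
    (y :: (v ++ [c]))[k + 1]? = v[k]? := by
  simp [List.getElem?_append_left hk]

lemma get_last (y c : A) (v : List A) :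
    (y :: (v ++ [c]))[v.length + 1]? = some c := by
  simp

lemma marked_step (δL δR : Q → Finset (Q × Bool)) (δU δM : Q → A → Finset (Q × Bool))
    (w : List A) (p p1 : Q) (i j : ℕ) (a : A) (b : Bool) (ha : w[i]? = some a) (hij : i + 1 ≤ j)
    (h : (p1, b) ∈ δM p a) :
    Step δL δR δU δM w (p, i + 1, j) (p1, if b then i + 2 else i, j) := by
  refine Or.inr (Or.inr ⟨a, by simp, by simpa using ha, b, ?_, ?_, ?_⟩)
  · simp only [if_pos hij]; exact h
  · cases b <;> simp
  · simp only; omega

lemma fresh_step (δL δR : Q → Finset (Q × Bool)) (δU δM : Q → A → Finset (Q × Bool))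
    (w : List A) (p p1 : Q) (i j : ℕ) (a : A) (b : Bool) (ha : w[i]? = some a) (hij : j ≤ i)
    (h : (p1, b) ∈ δU p a) :
    Step δL δR δU δM w (p, i + 1, j) (p1, if b then i + 2 else i, i + 1) := by
  refine Or.inr (Or.inr ⟨a, by simp, by simpa using ha, b, ?_, ?_, ?_⟩)
  · have : ¬ (i + 1 ≤ j) := by omega
    simp only [if_neg this]; exact h
  · cases b <;> simp
  · simp only; omega

lemma lift_walk (δL δR : Q → Finset (Q × Bool)) (δU δM : Q → A → Finset (Q × Bool))
    (y c : A) (v : List A) (j : ℕ) (hj : v.length + 1 ≤ j) {p p' : Q} {i : ℕ} {s : Bool}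
    (h : Walk δM v p i p' s) :
    ReflTransGen (Step δL δR δU δM (y :: (v ++ [c]))) (p, i + 2, j)
      (p', if s then v.length + 2 else 1, j) := by
  induction h with
  | @exitL p p' a ha hp =>
    have hlt : 0 < v.length := (List.getElem?_eq_some_iff.1 ha).1
    have := marked_step δL δR δU δM (y :: (v ++ [c])) p p' 1 j a false
      (by rw [get_mid y c v 0 hlt]; exact ha) (by omega) hp
    exact ReflTransGen.single (by simpa using this)
  | @exitR p p' a i ha hi hp =>
    have := marked_step δL δR δU δM (y :: (v ++ [c])) p p' (i + 1) j a true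
      (by rw [get_mid y c v i (by omega)]; exact ha) (by omega) hp
    refine ReflTransGen.single ?_
    simp only [if_true] at this ⊢
    rw [← hi]
    exact this
  | @stepL p p1 p' a i s ha hp _ ih =>
    have hlt : i + 1 < v.length := (List.getElem?_eq_some_iff.1 ha).1
    have := marked_step δL δR δU δM (y :: (v ++ [c])) p p1 (i + 2) j a false
      (by rw [get_mid y c v (i + 1) hlt]; exact ha) (by omega) hp
    exact ReflTransGen.head (by simpa using this) ih
  | @stepR p p1 p' a i s ha hp _ ih =>
    have hlt : i < v.length := (List.getElem?_eq_some_iff.1 ha).1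
    have := marked_step δL δR δU δM (y :: (v ++ [c])) p p1 (i + 1) j a true
      (by rw [get_mid y c v i hlt]; exact ha) (by omega) hp
    exact ReflTransGen.head (by simpa using this) ih

lemma replace_aux (δL δR : Q → Finset (Q × Bool)) (δU δM : Q → A → Finset (Q × Bool))
    (F : Finset Q) (y c : A) (v v' : List A) (hv : 0 < v.length) (hv' : 0 < v'.length)
    (hB : Beh δM v = Beh δM v') (qf : Q) (jf : ℕ) (hf : ∃ q' ∈ F, (q', true) ∈ δR qf)
    (x : Q × ℕ × ℕ)
    (hx : ReflTransGen (Step δL δR δU δM (y :: (v ++ [c]))) x (qf, v.length + 3, jf)) :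
    ∀ t, x.2.2 = v.length + 1 + t →
      (x.2.1 ≤ 1 → AccFrom δL δR δU δM F (y :: (v' ++ [c])) (x.1, x.2.1, v'.length + 1 + t)) ∧
      (∀ u, x.2.1 = v.length + 2 + u →
        AccFrom δL δR δU δM F (y :: (v' ++ [c])) (x.1, v'.length + 2 + u, v'.length + 1 + t)) ∧
      (∀ k, x.2.1 = k + 2 → k < v.length → ∃ p' s', Walk δM v x.1 k p' s' ∧
        AccFrom δL δR δU δM F (y :: (v' ++ [c]))
          (p', if s' then v'.length + 2 else 1, v'.length + 1 + t)) := by
  induction hx using ReflTransGen.head_induction_on with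
  | refl =>
    intro t _
    refine ⟨fun h => ?_, fun u hu => ?_, fun k hk hk' => ?_⟩
    · simp only at h; omega
    · simp only at hu
      have : u = 1 := by omega
      subst this
      exact ⟨qf, _, _, ReflTransGen.refl, by simp, hf⟩
    · simp only at hk; omega
  | @head x x1 hstep _ ih =>
    obtain ⟨q, i, j⟩ := x
    obtain ⟨q1, i1, j1⟩ := x1
    intro t ht
    simp only at ht ih ⊢
    subst ht
    have hlen : (y :: (v ++ [c])).length = v.length + 2 := by simp
    have hlen' : (y :: (v' ++ [c])).length = v'.length + 2 := by simp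
    rcases hstep with ⟨h1, h2, h3, h4⟩ | ⟨h1, h2, h3, h4⟩ | ⟨a, h1, h2, b, h3, h4, h5⟩
    · simp only at h1 h2 h3 h4
      subst h1 h3 h4
      refine ⟨fun _ => ?_, fun u hu => by omega, fun k hk _ => by omega⟩
      refine AccFrom.head (ReflTransGen.single ?_) ((ih t rfl).1 le_rfl)
      exact Or.inl ⟨rfl, h2, rfl, rfl⟩
    · simp only [hlen] at h1 h2 h3 h4
      subst h1 h3 h4
      refine ⟨fun h => by omega, fun u hu => ?_, fun k hk hk' => by omega⟩
      have : u = 1 := by omega
      subst this
      refine AccFrom.head (ReflTransGen.single ?_) ((ih t rfl).2.1 0 rfl)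
      exact Or.inr (Or.inl ⟨by simp, h2, by simp, rfl⟩)
    · simp only at h1 h2 h3 h4 h5
      obtain ⟨i0, rfl⟩ : ∃ i0, i = i0 + 1 := ⟨i - 1, by omega⟩
      simp only [Nat.add_sub_cancel] at h2 h4
      have hi0 : i0 < v.length + 2 := by
        have := (List.getElem?_eq_some_iff.1 h2).1
        rwa [hlen] at this
      refine ⟨fun h => ?_, fun u hu => ?_, fun k hk hk' => ?_⟩
      · have : i0 = 0 := by omega
        subst this
        have hj1 : j1 = v.length + 1 + t := by omega
        subst hj1
        have hm : 0 + 1 ≤ v.length + 1 + t := by omega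
        rw [if_pos hm] at h3
        have ha : a = y := by simpa using h2.symm
        subst ha
        have hs := marked_step δL δR δU δM (a :: (v' ++ [c])) q q1 0 (v'.length + 1 + t) a b
          (by simp) (by omega) h3
        refine AccFrom.head (ReflTransGen.single hs) ?_
        cases b with
        | false =>
          simp only [Bool.false_eq_true, if_false] at h4 ⊢
          subst h4
          exact (ih t rfl).1 (by omega)
        | true =>
          simp only [if_true] at h4 ⊢
          subst h4
          obtain ⟨p', s', hw, hacc⟩ := (ih t rfl).2.2 0 rfl hv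
          have hb : Beh δM v q1 false p' s' := hw
          rw [hB] at hb
          have hw' : Walk δM v' q1 0 p' s' := hb
          exact AccFrom.head (lift_walk δL δR δU δM a c v' _ (by omega) hw') hacc
      · have hu0 : u = 0 := by omega
        subst hu0
        have hi : i0 = v.length + 1 := by omega
        subst hi
        have ha : a = c := by
          rw [get_last] at h2
          exact (Option.some.inj h2).symm
        subst ha
        have key : ∀ t1, j1 = v.length + 1 + t1 →
            AccFrom δL δR δU δM F (y :: (v' ++ [a]))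
              (q1, if b then v'.length + 1 + 2 else v'.length + 1, v'.length + 1 + t1) := by
          intro t1 ht1
          cases b with
          | true =>
            simp only [if_true] at h4 ⊢
            exact (ih t1 ht1).2.1 1 (by omega)
          | false =>
            simp only [Bool.false_eq_true, if_false] at h4 ⊢
            obtain ⟨p', s', hw, hacc⟩ := (ih t1 ht1).2.2 (v.length - 1) (by omega) (by omega)
            have hb : Beh δM v q1 true p' s' := hw
            rw [hB] at hb
            have hw' : Walk δM v' q1 (v'.length - 1) p' s' := hb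
            have hl := lift_walk δL δR δU δM y a v' (v'.length + 1 + t1) (by omega) hw'
            have e : v'.length - 1 + 2 = v'.length + 1 := by omega
            rw [e] at hl
            exact AccFrom.head hl hacc
        rcases Nat.eq_zero_or_pos t with rfl | htpos
        · have hm : ¬ (v.length + 1 + 1 ≤ v.length + 1 + 0) := by omega
          rw [if_neg hm] at h3
          have hs := fresh_step δL δR δU δM (y :: (v' ++ [a])) q q1 (v'.length + 1)
            (v'.length + 1 + 0) a b (get_last y a v') (by omega) h3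
          exact AccFrom.head (ReflTransGen.single hs) (key 1 (by omega))
        · have hm : v.length + 1 + 1 ≤ v.length + 1 + t := by omega
          rw [if_pos hm] at h3
          have hs := marked_step δL δR δU δM (y :: (v' ++ [a])) q q1 (v'.length + 1)
            (v'.length + 1 + t) a b (get_last y a v') (by omega) h3
          exact AccFrom.head (ReflTransGen.single hs) (key t (by omega))
      · have hi : i0 = k + 1 := by omega
        subst hi
        rw [get_mid y c v k hk'] at h2
        have hm : k + 1 + 1 ≤ v.length + 1 + t := by omega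
        rw [if_pos hm] at h3
        have hj1 : j1 = v.length + 1 + t := by omega
        cases b with
        | false =>
          simp only [Bool.false_eq_true, if_false] at h4
          rcases Nat.eq_zero_or_pos k with rfl | hkpos
          · refine ⟨q1, false, Walk.exitL h2 h3, ?_⟩
            have := (ih t hj1).1 (by omega)
            rw [h4] at this
            simpa using this
          · obtain ⟨k0, rfl⟩ : ∃ k0, k = k0 + 1 := ⟨k - 1, by omega⟩
            obtain ⟨p', s', hw, hacc⟩ := (ih t hj1).2.2 k0 (by omega) (by omega)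
            exact ⟨p', s', Walk.stepL h2 h3 hw, hacc⟩
        | true =>
          simp only [if_true] at h4
          by_cases hk1 : k + 1 = v.length
          · refine ⟨q1, true, Walk.exitR h2 hk1 h3, ?_⟩
            have := (ih t hj1).2.1 0 (by omega)
            simpa using this
          · obtain ⟨p', s', hw, hacc⟩ := (ih t hj1).2.2 (k + 1) (by omega) (by omega)
            exact ⟨p', s', Walk.stepR h2 h3 hw, hacc⟩

lemma replace (δL δR : Q → Finset (Q × Bool)) (δU δM : Q → A → Finset (Q × Bool))
    (F : Finset Q) (y c : A) (v v' : List A) (hv : 0 < v.length) (hv' : 0 < v'.length)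
    (hB : Beh δM v = Beh δM v') (q : Q)
    (h : AccFrom δL δR δU δM F (y :: (v ++ [c])) (q, v.length + 2, v.length + 1)) :
    AccFrom δL δR δU δM F (y :: (v' ++ [c])) (q, v'.length + 2, v'.length + 1) := by
  obtain ⟨qf, i, jf, h1, h2, hf⟩ := h
  have hi : i = v.length + 3 := by simpa using h2
  subst hi
  exact (replace_aux δL δR δU δM F y c v v' hv hv' hB qf jf hf _ h1 0 rfl).2.1 0 rfl

/-- Steps that stay inside the prefix `u`. -/
def Step0 (δL : Q → Finset (Q × Bool)) (δU δM : Q → A → Finset (Q × Bool)) (u : List A)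
    (x y : Q × ℕ × ℕ) : Prop :=
  Step δL (fun _ => ∅) δU δM u x y

lemma step0_le {δL : Q → Finset (Q × Bool)} {δU δM : Q → A → Finset (Q × Bool)} {u : List A}
    {x y : Q × ℕ × ℕ} (h : Step0 δL δU δM u x y) : x.2.1 ≤ u.length := by
  rcases h with ⟨h1, _⟩ | ⟨_, h2, _⟩ | ⟨a, h1, h2, _⟩
  · omega
  · simp at h2
  · have := (List.getElem?_eq_some_iff.1 h2).1
    omega

lemma step0_iff (δL δR : Q → Finset (Q × Bool)) (δU δM : Q → A → Finset (Q × Bool))
    (u z : List A) (x y : Q × ℕ × ℕ) (hx : x.2.1 ≤ u.length) :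
    Step0 δL δU δM u x y ↔ Step δL δR δU δM (u ++ z) x y := by
  unfold Step0 Step
  refine or_congr Iff.rfl (or_congr ?_ ?_)
  · constructor
    · rintro ⟨_, h, _⟩; simp at h
    · rintro ⟨h, _⟩
      simp only [List.length_append] at h
      omega
  · refine exists_congr fun a => and_congr_right fun h1 => ?_
    rw [List.getElem?_append_left (by omega)]

lemma step0_unique {δL : Q → Finset (Q × Bool)} {δU δM : Q → A → Finset (Q × Bool)}
    (hL : ∀ p, (δL p).card ≤ 1) (hU : ∀ p a, (δU p a).card ≤ 1) (hM : ∀ p a, (δM p a).card ≤ 1)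
    (u : List A) : Relator.RightUnique (Step0 δL δU δM u) := by
  rintro ⟨q, i, j⟩ ⟨q1, i1, j1⟩ ⟨q2, i2, j2⟩ h h'
  rcases h with ⟨h1, h2, h3, h4⟩ | ⟨_, h2, _⟩ | ⟨a, h1, h2, b, h3, h4, h5⟩
  · rcases h' with ⟨g1, g2, g3, g4⟩ | ⟨_, g2, _⟩ | ⟨a, g1, _⟩
    · simp only at h1 h2 h3 h4 g1 g2 g3 g4
      have := Finset.card_le_one.1 (hL q) _ h2 _ g2
      simp only [Prod.mk.injEq, and_true] at this
      subst this h3 h4 g3 g4
      rfl
    · simp at g2
    · simp only at h1 g1; omega
  · simp at h2
  · rcases h' with ⟨g1, g2, g3, g4⟩ | ⟨_, g2, _⟩ | ⟨a', g1, g2, b', g3, g4, g5⟩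
    · simp only at h1 g1; omega
    · simp at g2
    · simp only at h1 h2 h3 h4 h5 g1 g2 g3 g4 g5
      have ha : a = a' := Option.some.inj (h2.symm.trans g2)
      subst ha
      have hc : (if i ≤ j then δM q a else δU q a).card ≤ 1 := by
        split_ifs
        · exact hM _ _
        · exact hU _ _
      have := Finset.card_le_one.1 hc _ h3 _ g3
      simp only [Prod.mk.injEq] at this
      obtain ⟨rfl, rfl⟩ := this
      subst h4 h5 g4 g5
      rfl

/-- The state in which the head first leaves the prefix `u`. -/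
def Pre (δL : Q → Finset (Q × Bool)) (δU δM : Q → A → Finset (Q × Bool)) (qI : Q) (u : List A)
    (q : Q) : Prop :=
  ReflTransGen (Step0 δL δU δM u) (qI, 1, 0) (q, u.length + 1, u.length)

lemma pre_unique {δL : Q → Finset (Q × Bool)} {δU δM : Q → A → Finset (Q × Bool)}
    (hL : ∀ p, (δL p).card ≤ 1) (hU : ∀ p a, (δU p a).card ≤ 1) (hM : ∀ p a, (δM p a).card ≤ 1)
    (qI : Q) (u : List A) {q q' : Q} (h : Pre δL δU δM qI u q) (h' : Pre δL δU δM qI u q') :
    q = q' := by
  rcases ReflTransGen.total_of_right_unique (step0_unique hL hU hM u) h h' with g | g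
  · rcases g.cases_head with g | ⟨c, g, _⟩
    · exact congrArg Prod.fst g
    · have := step0_le g
      simp at this
  · rcases g.cases_head with g | ⟨c, g, _⟩
    · exact (congrArg Prod.fst g).symm
    · have := step0_le g
      simp at this

lemma pre_reach (δL δR : Q → Finset (Q × Bool)) (δU δM : Q → A → Finset (Q × Bool))
    (u z : List A) {x y : Q × ℕ × ℕ} (h : ReflTransGen (Step0 δL δU δM u) x y) :
    ReflTransGen (Step δL δR δU δM (u ++ z)) x y := by
  induction h with
  | refl => exact ReflTransGen.refl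
  | tail _ h ih => exact ih.tail ((step0_iff δL δR δU δM u z _ _ (step0_le h)).1 h)

lemma exists_pre (δL δR : Q → Finset (Q × Bool)) (δU δM : Q → A → Finset (Q × Bool))
    (qI : Q) (u z : List A) (hu : 0 < u.length) (x : Q × ℕ × ℕ)
    (h : ReflTransGen (Step δL δR δU δM (u ++ z)) (qI, 1, 0) x) :
    (ReflTransGen (Step0 δL δU δM u) (qI, 1, 0) x ∧ x.2.1 ≤ u.length ∧ x.2.2 ≤ u.length) ∨
      ∃ q, Pre δL δU δM qI u q ∧
        ReflTransGen (Step δL δR δU δM (u ++ z)) (q, u.length + 1, u.length) x := by
  induction h with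
  | refl => exact Or.inl ⟨ReflTransGen.refl, hu, Nat.zero_le _⟩
  | @tail x x1 _ hs ih =>
    rcases ih with ⟨h1, h2, h3⟩ | ⟨q, h1, h2⟩
    · have hs0 := (step0_iff δL δR δU δM u z _ _ h2).2 hs
      have hj : x1.2.2 ≤ u.length ∧ (x1.2.1 ≤ u.length ∨
          (x1.2.1 = u.length + 1 ∧ x1.2.2 = u.length)) := by
        rcases hs0 with ⟨g1, g2, g3, g4⟩ | ⟨_, g2, _⟩ | ⟨a', g1, g2, b', g3, g4, g5⟩
        · omega
        · simp at g2
        · cases b'
          · simp only [Bool.false_eq_true, if_false] at g4; omega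
          · simp only [if_true] at g4; omega
      rcases hj.2 with g | g
      · exact Or.inl ⟨h1.tail hs0, g, hj.1⟩
      · obtain ⟨q1, i1, j1⟩ := x1
        obtain ⟨rfl, rfl⟩ := g
        exact Or.inr ⟨q1, h1.tail hs0, ReflTransGen.refl⟩
    · exact Or.inr ⟨q, h1, h2.tail hs⟩

/-- Transfer of acceptance between factors with equal behaviour and equal exit state. -/
lemma transfer {δL δR : Q → Finset (Q × Bool)} {δU δM : Q → A → Finset (Q × Bool)}
    (F : Finset Q) (qI : Q) (y c : A) (v v' : List A) (hv : 0 < v.length) (hv' : 0 < v'.length)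
    (hB : Beh δM v = Beh δM v')
    (hP : ∀ q, Pre δL δU δM qI (y :: v) q → Pre δL δU δM qI (y :: v') q)
    (h : AccFrom δL δR δU δM F (y :: (v ++ [c])) (qI, 1, 0)) :
    AccFrom δL δR δU δM F (y :: (v' ++ [c])) (qI, 1, 0) := by
  obtain ⟨qf, i, jf, h1, h2, hf⟩ := h
  rcases exists_pre δL δR δU δM qI (y :: v) [c] (by simp) _ h1 with ⟨_, g, _⟩ | ⟨q, g1, g2⟩
  · simp at g h2; omega
  · have hacc : AccFrom δL δR δU δM F (y :: (v ++ [c])) (q, v.length + 2, v.length + 1) :=
      ⟨qf, i, jf, g2, h2, hf⟩
    have h3 := replace δL δR δU δM F y c v v' hv hv' hB q hacc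
    exact AccFrom.head (pre_reach δL δR δU δM (y :: v') [c] (hP q g1)) h3

/-- The counting bound. -/
lemma count {δL δR : Q → Finset (Q × Bool)} {δU δM : Q → A → Finset (Q × Bool)} [Fintype Q]
    (hL : ∀ p, (δL p).card ≤ 1) (hU : ∀ p a, (δU p a).card ≤ 1) (hM : ∀ p a, (δM p a).card ≤ 1)
    (F : Finset Q) (qI : Q) {Y J : Type} [Fintype Y] [Fintype J] [DecidableEq Y] [DecidableEq J]
    (dict : Y → A) (query : J → A)
    (enc : (Y → J → Bool) → List A) (henc : ∀ φ, 0 < (enc φ).length)
    (hsem : ∀ φ y j, AccFrom δL δR δU δM F (dict y :: (enc φ ++ [query j])) (qI, 1, 0) ↔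
      φ y j = true) :
    (2 ^ Fintype.card J) ^ Fintype.card Y ≤
      2 ^ (4 * Fintype.card Q ^ 2) * (Fintype.card Q + 1) ^ Fintype.card Y := by
  classical
  let ex : List A → Option Q := fun u =>
    if h : ∃ q, Pre δL δU δM qI u q then some h.choose else none
  have hex : ∀ u q, ex u = some q ↔ Pre δL δU δM qI u q := by
    intro u q
    simp only [ex]
    split_ifs with h
    · constructor
      · intro g
        rw [← Option.some.inj g]
        exact h.choose_spec
      · intro g
        rw [pre_unique hL hU hM qI u h.choose_spec g]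
    · constructor
      · intro g; cases g
      · intro g; exact absurd ⟨q, g⟩ h
  let Ψ : (Y → J → Bool) → (Q → Bool → Q → Bool → Prop) × (Y → Option Q) := fun φ =>
    (Beh δM (enc φ), fun y => ex (dict y :: enc φ))
  have key : ∀ φ φ', Ψ φ = Ψ φ' → ∀ y j, φ y j = true → φ' y j = true := by
    intro φ φ' h y j hj
    rw [← hsem] at hj ⊢
    refine transfer F qI _ _ _ _ (henc φ) (henc φ') (congrArg Prod.fst h) ?_ hj
    intro q hq
    rw [← hex] at hq ⊢
    rw [← hq]
    exact (congrFun (congrArg Prod.snd h) y).symm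
  have hinj : Function.Injective Ψ := by
    intro φ φ' h
    funext y j
    rw [Bool.eq_iff_iff]
    exact ⟨key φ φ' h y j, key φ' φ h.symm y j⟩
  have := Fintype.card_le_of_injective Ψ hinj
  simp only [Fintype.card_fun, Fintype.card_bool, Fintype.card_prod, Fintype.card_prop,
    Fintype.card_option] at this
  convert this using 2
  rw [← pow_mul, ← pow_mul, ← pow_mul]
  congr 1
  ring

end Pool.Agent.H248Z.Am
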