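import Mathlib
import Pool.Agent.H248Z.AmCore

set_option autoImplicit false

namespace Pool.Agent.H248Z.Am

open Relation

section Embed

variable {Q Q' A : Type}

lemma step_embed (ι : Q ↪ Q') (π : Q' → Q) (hπ : ∀ q, π (ι q) = q)
    (δL δR : Q → Finset (Q × Bool)) (δU δM : Q → A → Finset (Q × Bool)) (w : List A)
    (q : Q) (c : ℕ × ℕ) (y : Q' × ℕ × ℕ) :
    Step (fun q' => (δL (π q')).map (ι.prodMap (Function.Embedding.refl Bool)))
      (fun q' => (δR (π q')).map (ι.prodMap (Function.Embedding.refl Bool)))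
      (fun q' a => (δU (π q') a).map (ι.prodMap (Function.Embedding.refl Bool)))
      (fun q' a => (δM (π q') a).map (ι.prodMap (Function.Embedding.refl Bool))) w (ι q, c) y ↔
    ∃ q1, y.1 = ι q1 ∧ Step δL δR δU δM w (q, c) (q1, y.2) := by
  have hm : ∀ (s : Finset (Q × Bool)) (p : Q') (b : Bool),
      (p, b) ∈ s.map (ι.prodMap (Function.Embedding.refl Bool)) ↔
        ∃ q1, p = ι q1 ∧ (q1, b) ∈ s := by
    intro s p b
    simp only [Finset.mem_map, Function.Embedding.coe_prodMap, Prod.exists, Prod.map_apply,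
      Function.Embedding.refl_apply, Prod.mk.injEq]
    constructor
    · rintro ⟨q1, b1, h, rfl, rfl⟩
      exact ⟨q1, rfl, h⟩
    · rintro ⟨q1, rfl, h⟩
      exact ⟨q1, b, h, rfl, rfl⟩
  unfold Step
  simp only [hπ]
  constructor
  · rintro (⟨h1, h2, h3⟩ | ⟨h1, h2, h3⟩ | ⟨a, h1, h2, b, h3, h4⟩)
    · obtain ⟨q1, e, h⟩ := (hm _ _ _).1 h2
      exact ⟨q1, e, Or.inl ⟨h1, h, h3⟩⟩
    · obtain ⟨q1, e, h⟩ := (hm _ _ _).1 h2
      exact ⟨q1, e, Or.inr (Or.inl ⟨h1, h, h3⟩)⟩
    · by_cases hc : c.1 ≤ c.2
      · rw [if_pos hc] at h3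
        obtain ⟨q1, e, h⟩ := (hm _ _ _).1 h3
        exact ⟨q1, e, Or.inr (Or.inr ⟨a, h1, h2, b, by rw [if_pos hc]; exact h, h4⟩)⟩
      · rw [if_neg hc] at h3
        obtain ⟨q1, e, h⟩ := (hm _ _ _).1 h3
        exact ⟨q1, e, Or.inr (Or.inr ⟨a, h1, h2, b, by rw [if_neg hc]; exact h, h4⟩)⟩
  · rintro ⟨q1, e, ⟨h1, h2, h3⟩ | ⟨h1, h2, h3⟩ | ⟨a, h1, h2, b, h3, h4⟩⟩
    · exact Or.inl ⟨h1, (hm _ _ _).2 ⟨q1, e, h2⟩, h3⟩
    · exact Or.inr (Or.inl ⟨h1, (hm _ _ _).2 ⟨q1, e, h2⟩, h3⟩)
    · refine Or.inr (Or.inr ⟨a, h1, h2, b, ?_, h4⟩)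
      by_cases hc : c.1 ≤ c.2
      · rw [if_pos hc] at h3 ⊢
        exact (hm _ _ _).2 ⟨q1, e, h3⟩
      · rw [if_neg hc] at h3 ⊢
        exact (hm _ _ _).2 ⟨q1, e, h3⟩

lemma acc_embed (ι : Q ↪ Q') (π : Q' → Q) (hπ : ∀ q, π (ι q) = q)
    (δL δR : Q → Finset (Q × Bool)) (δU δM : Q → A → Finset (Q × Bool)) (F : Finset Q)
    (w : List A) (q : Q) (c : ℕ × ℕ) :
    AccFrom (fun q' => (δL (π q')).map (ι.prodMap (Function.Embedding.refl Bool)))
      (fun q' => (δR (π q')).map (ι.prodMap (Function.Embedding.refl Bool)))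
      (fun q' a => (δU (π q') a).map (ι.prodMap (Function.Embedding.refl Bool)))
      (fun q' a => (δM (π q') a).map (ι.prodMap (Function.Embedding.refl Bool)))
      (F.map ι) w (ι q, c) ↔ AccFrom δL δR δU δM F w (q, c) := by
  constructor
  · rintro ⟨qf, i, j, h1, h2, q', hq', h3⟩
    have key : ∀ y, ReflTransGen (Step
        (fun q' => (δL (π q')).map (ι.prodMap (Function.Embedding.refl Bool)))
        (fun q' => (δR (π q')).map (ι.prodMap (Function.Embedding.refl Bool)))
        (fun q' a => (δU (π q') a).map (ι.prodMap (Function.Embedding.refl Bool)))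
        (fun q' a => (δM (π q') a).map (ι.prodMap (Function.Embedding.refl Bool))) w) (ι q, c) y →
        ∃ q1, y.1 = ι q1 ∧ ReflTransGen (Step δL δR δU δM w) (q, c) (q1, y.2) := by
      intro y hy
      induction hy with
      | refl => exact ⟨q, rfl, ReflTransGen.refl⟩
      | @tail x y _ hs ih =>
        obtain ⟨q1, e, h⟩ := ih
        obtain ⟨x1, x2⟩ := x
        simp only at e h
        subst e
        obtain ⟨q2, e2, h2⟩ := (step_embed ι π hπ δL δR δU δM w q1 x2 y).1 hs
        exact ⟨q2, e2, h.tail h2⟩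
    obtain ⟨q1, e, h⟩ := key _ h1
    simp only at e h
    subst e
    obtain ⟨q2, hq2, rfl⟩ := Finset.mem_map.1 hq'
    refine ⟨q1, i, j, h, h2, q2, hq2, ?_⟩
    simp only [hπ] at h3
    obtain ⟨p, hp, e⟩ := Finset.mem_map.1 h3
    obtain ⟨p1, p2⟩ := p
    simp only [Function.Embedding.coe_prodMap, Prod.map_apply, Function.Embedding.refl_apply,
      Prod.mk.injEq, EmbeddingLike.apply_eq_iff_eq] at e
    obtain ⟨rfl, rfl⟩ := e
    exact hp
  · rintro ⟨qf, i, j, h1, h2, q', hq', h3⟩
    refine ⟨ι qf, i, j, ?_, h2, ι q', Finset.mem_map_of_mem _ hq', ?_⟩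
    · have key : ∀ y : Q × ℕ × ℕ, ReflTransGen (Step δL δR δU δM w) (q, c) y →
          ReflTransGen (Step
          (fun q' => (δL (π q')).map (ι.prodMap (Function.Embedding.refl Bool)))
          (fun q' => (δR (π q')).map (ι.prodMap (Function.Embedding.refl Bool)))
          (fun q' a => (δU (π q') a).map (ι.prodMap (Function.Embedding.refl Bool)))
          (fun q' a => (δM (π q') a).map (ι.prodMap (Function.Embedding.refl Bool))) w)
          (ι q, c) (ι y.1, y.2) := by
        intro y hy
        induction hy with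
        | refl => exact ReflTransGen.refl
        | @tail a b _ hab ih =>
          exact ih.tail ((step_embed ι π hπ δL δR δU δM w a.1 a.2 (ι b.1, b.2)).2 ⟨b.1, rfl, hab⟩)
      exact key _ h1
    · simp only [hπ]
      exact Finset.mem_map.2 ⟨(q', true), h3, rfl⟩

end Embed

/-- States of the witness automaton. -/
inductive St (r : ℕ) : Type
  | skip | ret | acc
  | left (l : Fin r) (b : Bool)
  | carry (t : Fin r)

/-- Letters of the witness automaton. -/
inductive Lt (r : ℕ) : Type
  | dict (Y : Fin r → Bool)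
  | test (l : Fin r) (b : Bool)
  | out (T : Fin r → Bool)
  | query (t : Fin r)

/-- Coding of states. -/
def St.code {r : ℕ} : St r → Fin 3 ⊕ (Fin r × Bool) ⊕ Fin r
  | .skip => .inl 0
  | .ret => .inl 1
  | .acc => .inl 2
  | .left l b => .inr (.inl (l, b))
  | .carry t => .inr (.inr t)

lemma St.code_inj {r : ℕ} : Function.Injective (St.code (r := r)) := by
  intro a b h
  cases a <;> cases b <;> simp_all [St.code]

/-- Coding of letters. -/
def Lt.code {r : ℕ} : Lt r → (Fin r → Bool) ⊕ (Fin r × Bool) ⊕ (Fin r → Bool) ⊕ Fin r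
  | .dict Y => .inl Y
  | .test l b => .inr (.inl (l, b))
  | .out T => .inr (.inr (.inl T))
  | .query t => .inr (.inr (.inr t))

lemma Lt.code_inj {r : ℕ} : Function.Injective (Lt.code (r := r)) := by
  intro a b h
  cases a <;> cases b <;> simp_all [Lt.code]

noncomputable instance stFintype (r : ℕ) : Fintype (St r) := Fintype.ofInjective _ St.code_inj

noncomputable instance ltFintype (r : ℕ) : Fintype (Lt r) := Fintype.ofInjective _ Lt.code_inj

lemma card_St (r : ℕ) : Fintype.card (St r) ≤ 3 * r + 3 := by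
  have := Fintype.card_le_of_injective _ (St.code_inj (r := r))
  simp only [Fintype.card_sum, Fintype.card_fin, Fintype.card_prod, Fintype.card_bool] at this
  omega

/-- Moves on a fresh cell. -/
inductive RU {r : ℕ} : St r → Lt r → St r → Bool → Prop
  | skip (a : Lt r) : RU .skip a .skip true
  | startD (Y : Fin r → Bool) : RU .skip (.dict Y) .ret true
  | startO (T : Fin r → Bool) : RU .skip (.out T) .ret true
  | ask (l : Fin r) (b : Bool) : RU .ret (.test l b) (.left l b) false
  | pick (T : Fin r → Bool) (t : Fin r) : T t = true → RU .ret (.out T) (.carry t) true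
  | carry (t : Fin r) (a : Lt r) : RU (.carry t) a (.carry t) true
  | fin (t : Fin r) : RU (.carry t) (.query t) .acc true

/-- Moves on a marked cell. -/
inductive RM {r : ℕ} : St r → Lt r → St r → Bool → Prop
  | look (Y : Fin r → Bool) (l : Fin r) : RM (.left l (Y l)) (.dict Y) .ret true
  | left (l : Fin r) (b : Bool) (a : Lt r) : RM (.left l b) a (.left l b) false
  | ret (a : Lt r) : RM .ret a .ret true

open Classical in
/-- Transition sets on fresh cells. -/
noncomputable def nU {r : ℕ} (q : St r) (a : Lt r) : Finset (St r × Bool) :=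
  Finset.univ.filter (fun p => RU q a p.1 p.2)

open Classical in
/-- Transition sets on marked cells. -/
noncomputable def nM {r : ℕ} (q : St r) (a : Lt r) : Finset (St r × Bool) :=
  Finset.univ.filter (fun p => RM q a p.1 p.2)

open Classical in
/-- Transition sets on the right end. -/
noncomputable def nR {r : ℕ} (q : St r) : Finset (St r × Bool) :=
  if q = .acc then {(.acc, true)} else ∅

lemma mem_nU {r : ℕ} (q p : St r) (a : Lt r) (b : Bool) : (p, b) ∈ nU q a ↔ RU q a p b := by
  simp [nU]

lemma mem_nM {r : ℕ} (q p : St r) (a : Lt r) (b : Bool) : (p, b) ∈ nM q a ↔ RM q a p b := by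
  simp [nM]

/-- One-way semantics of the witness language for a fixed dictionary. -/
def upd {r : ℕ} (Y : Fin r → Bool) (s : Bool × (Fin r → Bool)) : Lt r → Bool × (Fin r → Bool)
  | .dict _ => (true, s.2)
  | .test l b => (s.1 && (Y l == b), s.2)
  | .out T => (true, fun t => s.2 t || (s.1 && T t))
  | .query _ => (false, s.2)

/-- Semantic state after a prefix. -/
def sem {r : ℕ} (Y : Fin r → Bool) (u : List (Lt r)) : Bool × (Fin r → Bool) :=
  u.foldl (upd Y) (false, fun _ => false)

lemma sem_take_succ {r : ℕ} (Y : Fin r → Bool) (w : List (Lt r)) (j : ℕ) (a : Lt r)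
    (h : w[j]? = some a) : sem Y (w.take (j + 1)) = upd Y (sem Y (w.take j)) a := by
  rw [List.take_add_one, h]
  simp [sem, List.foldl_append]

lemma upd_mono {r : ℕ} (Y : Fin r → Bool) (s : Bool × (Fin r → Bool)) (a : Lt r) (t : Fin r)
    (h : s.2 t = true) : (upd Y s a).2 t = true := by
  cases a <;> simp [upd, h]

/-- The invariant of reachable configurations. -/
def Inv {r : ℕ} (Y : Fin r → Bool) (w : List (Lt r)) : St r → ℕ → ℕ → Prop
  | .skip, i, j => i = j + 1
  | .ret, i, j => i ≤ j + 1 ∧ (sem Y (w.take j)).1 = true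
  | .left l b, i, j => i ≤ j ∧ (Y l = b → (sem Y (w.take j)).1 = true)
  | .carry t, i, j => i = j + 1 ∧ (sem Y (w.take j)).2 t = true
  | .acc, _, _ => ∃ j t, w[j]? = some (.query t) ∧ (sem Y (w.take j)).2 t = true

lemma sound {r : ℕ} (Y : Fin r → Bool) (w : List (Lt r))
    (hd : ∀ (i : ℕ) Y', w[i]? = some (Lt.dict Y') → Y' = Y) (x : St r × ℕ × ℕ)
    (h : ReflTransGen (Step (fun _ => ∅) nR nU nM w) (St.skip, 1, 0) x) :
    Inv Y w x.1 x.2.1 x.2.2 := by
  induction h with
  | refl => simp [Inv]
  | @tail x y _ hs ih =>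
    obtain ⟨q, i, j⟩ := x
    obtain ⟨q1, i1, j1⟩ := y
    simp only at ih ⊢
    rcases hs with ⟨_, h2, _⟩ | ⟨_, h2, _⟩ | ⟨a, h1, h2, b, h3, h4, h5⟩
    · simp at h2
    · simp only [nR] at h2
      split_ifs at h2 <;> simp at h2
    · simp only at h1 h2 h3 h4 h5
      obtain ⟨i0, rfl⟩ : ∃ i0, i = i0 + 1 := ⟨i - 1, by omega⟩
      simp only [Nat.add_sub_cancel] at h2 h4
      by_cases hij : i0 + 1 ≤ j
      · rw [if_pos hij, mem_nM] at h3
        have hj : j1 = j := by omega
        subst hj
        cases h3 with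
        | look Y' l =>
          have := hd _ _ h2
          subst this
          simp only [if_true] at h4
          exact ⟨by omega, ih.2 rfl⟩
        | left l b a =>
          simp only [Bool.false_eq_true, if_false] at h4
          exact ⟨by omega, ih.2⟩
        | ret a =>
          simp only [if_true] at h4
          exact ⟨by omega, ih.2⟩
      · rw [if_neg hij, mem_nU] at h3
        have hj : j1 = i0 + 1 := by omega
        subst hj
        cases h3 with
        | skip a =>
          simp only [if_true] at h4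
          exact h4
        | startD Y' =>
          simp only [if_true] at h4
          refine ⟨by omega, ?_⟩
          rw [sem_take_succ Y w i0 _ h2]; rfl
        | startO T =>
          simp only [if_true] at h4
          refine ⟨by omega, ?_⟩
          rw [sem_take_succ Y w i0 _ h2]; rfl
        | ask l b =>
          simp only [Bool.false_eq_true, if_false] at h4
          have hj : j = i0 := by have := ih.1; omega
          subst hj
          refine ⟨by omega, fun hY => ?_⟩
          rw [sem_take_succ Y w j _ h2]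
          simp [upd, ih.2, hY]
        | pick T t hT =>
          simp only [if_true] at h4
          have hj : j = i0 := by have := ih.1; omega
          subst hj
          refine ⟨h4, ?_⟩
          rw [sem_take_succ Y w j _ h2]
          simp [upd, ih.2, hT]
        | carry t a =>
          simp only [if_true] at h4
          have hj : j = i0 := by have := ih.1; omega
          subst hj
          refine ⟨h4, ?_⟩
          rw [sem_take_succ Y w j _ h2]
          exact upd_mono Y _ _ _ ih.2
        | fin t =>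
          have hj : j = i0 := by have := ih.1; omega
          subst hj
          exact ⟨j, t, h2, ih.2⟩

lemma go_left {r : ℕ} (w : List (Lt r)) (l : Fin r) (b : Bool) (J : ℕ) (hJ : J ≤ w.length)
    (i : ℕ) (hi : i + 1 ≤ J) :
    ReflTransGen (Step (fun _ => ∅) nR nU nM w) (St.left l b, i + 1, J) (St.left l b, 1, J) := by
  induction i with
  | zero => exact ReflTransGen.refl
  | succ i ih =>
    have hlt : i + 1 < w.length := by omega
    have := marked_step (fun _ => ∅) nR nU nM w (St.left l b) (St.left l b) (i + 1) J w[i + 1]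
      false (List.getElem?_eq_getElem hlt) hi ((mem_nM _ _ _ _).2 (RM.left l b _))
    exact ReflTransGen.head (by simpa using this) (ih (by omega))

lemma go_right {r : ℕ} (w : List (Lt r)) (J : ℕ) (hJ : J ≤ w.length)
    (d i : ℕ) (hi : i + d = J) :
    ReflTransGen (Step (fun _ => ∅) nR nU nM w) (St.ret, i + 1, J) (St.ret, J + 1, J) := by
  induction d generalizing i with
  | zero =>
    have : i = J := by omega
    subst this
    exact ReflTransGen.refl
  | succ d ih =>
    have hlt : i < w.length := by omega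
    have := marked_step (fun _ => ∅) nR nU nM w St.ret St.ret i J w[i]
      true (List.getElem?_eq_getElem hlt) (by omega) ((mem_nM _ _ _ _).2 (RM.ret _))
    exact ReflTransGen.head (by simpa using this) (ih (i + 1) (by omega))

lemma complete {r : ℕ} (Y : Fin r → Bool) (w : List (Lt r)) (h0 : w[0]? = some (Lt.dict Y))
    (j : ℕ) (hj : j ≤ w.length) :
    ReflTransGen (Step (fun _ => ∅) nR nU nM w) (St.skip, 1, 0) (St.skip, j + 1, j) ∧
    ((sem Y (w.take j)).1 = true →
      ReflTransGen (Step (fun _ => ∅) nR nU nM w) (St.skip, 1, 0) (St.ret, j + 1, j)) ∧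
    ∀ t, (sem Y (w.take j)).2 t = true →
      ReflTransGen (Step (fun _ => ∅) nR nU nM w) (St.skip, 1, 0) (St.carry t, j + 1, j) := by
  induction j with
  | zero => exact ⟨ReflTransGen.refl, by simp [sem], by simp [sem]⟩
  | succ j ih =>
    obtain ⟨ih1, ih2, ih3⟩ := ih (by omega)
    have hlt : j < w.length := by omega
    obtain ⟨a, ha⟩ : ∃ a, w[j]? = some a := ⟨_, List.getElem?_eq_getElem hlt⟩
    have fr : ∀ p p1, RU p a p1 true →
        Step (fun _ => ∅) nR nU nM w (p, j + 1, j) (p1, j + 1 + 1, j + 1) := by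
      intro p p1 h
      have := fresh_step (fun _ => ∅) nR nU nM w p p1 j j a true ha le_rfl
        ((mem_nU _ _ _ _).2 h)
      simpa using this
    rw [sem_take_succ Y w j a ha]
    refine ⟨ih1.tail (fr _ _ (RU.skip a)), fun h => ?_, fun t h => ?_⟩
    · cases a with
      | dict Y' => exact ih1.tail (fr _ _ (RU.startD Y'))
      | out T => exact ih1.tail (fr _ _ (RU.startO T))
      | query t => simp [upd] at h
      | test l b =>
        simp only [upd, Bool.and_eq_true, beq_iff_eq] at h
        obtain ⟨h1, rfl⟩ := h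
        obtain ⟨j0, rfl⟩ : ∃ j0, j = j0 + 1 := by
          rcases j with _ | j0
          · simp [sem] at h1
          · exact ⟨j0, rfl⟩
        have s1 := fresh_step (fun _ => ∅) nR nU nM w St.ret (St.left l (Y l)) (j0 + 1) (j0 + 1)
          _ false ha le_rfl ((mem_nU _ _ _ _).2 (RU.ask l (Y l)))
        have s2 := go_left w l (Y l) (j0 + 1 + 1) hj j0 (by omega)
        have s3 := marked_step (fun _ => ∅) nR nU nM w (St.left l (Y l)) St.ret 0 (j0 + 1 + 1)
          _ true h0 (by omega) ((mem_nM _ _ _ _).2 (RM.look Y l))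
        have s4 := go_right w (j0 + 1 + 1) hj (j0 + 1) 1 (by omega)
        exact ((((ih2 h1).tail (by simpa using s1)).trans s2).tail (by simpa using s3)).trans s4
    · by_cases hs : (sem Y (w.take j)).2 t = true
      · exact (ih3 t hs).tail (fr _ _ (RU.carry t a))
      · cases a with
        | dict Y' => exact absurd h hs
        | query t => exact absurd h hs
        | test l b => exact absurd h hs
        | out T =>
          simp only [upd, Bool.or_eq_true, Bool.and_eq_true] at h
          rcases h with h | h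
          · exact absurd h hs
          · exact (ih2 h.1).tail (fr _ _ (RU.pick T t h.2))

/-- Letters allowed in the middle part. -/
def Body {r : ℕ} : Lt r → Prop
  | .test _ _ => True
  | .out _ => True
  | _ => False

lemma nfa_sem {r : ℕ} (Y : Fin r → Bool) (v : List (Lt r)) (hv : ∀ a ∈ v, Body a) (t : Fin r) :
    AccFrom (fun _ => ∅) nR nU nM {St.acc} (Lt.dict Y :: (v ++ [Lt.query t])) (St.skip, 1, 0) ↔
      (sem Y (Lt.dict Y :: v)).2 t = true := by
  have htake : (Lt.dict Y :: (v ++ [Lt.query t])).take (v.length + 1) = Lt.dict Y :: v := by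
    simp
  have hget : ∀ i a, (Lt.dict Y :: (v ++ [Lt.query t]))[i]? = some a →
      (a = Lt.dict Y) ∨ Body a ∨ (i = v.length + 1 ∧ a = Lt.query t) := by
    intro i a h
    rcases i with _ | i
    · left; simpa using h.symm
    · have hl := (List.getElem?_eq_some_iff.1 h).1
      simp only [List.length_cons, List.length_append, List.length_nil] at hl
      by_cases hi : i < v.length
      · rw [get_mid _ _ _ _ hi] at h
        exact Or.inr (Or.inl (hv a (List.mem_of_getElem? h)))
      · have : i = v.length := by omega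
        subst this
        rw [get_last] at h
        exact Or.inr (Or.inr ⟨rfl, (Option.some.inj h).symm⟩)
  constructor
  · rintro ⟨q, i, j, h1, _, q', _, h3⟩
    have hq : q = St.acc := by
      by_contra hq
      simp [nR, hq] at h3
    subst hq
    have := sound Y _ (fun i Y' h => by
      rcases hget i _ h with g | g | g
      · cases g; rfl
      · exact absurd g (by simp [Body])
      · cases g.2) _ h1
    obtain ⟨j', t', g1, g2⟩ := this
    rcases hget j' _ g1 with g | g | g
    · cases g
    · exact absurd g (by simp [Body])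
    · obtain ⟨rfl, g⟩ := g
      cases g
      rwa [htake] at g2
  · intro h
    rw [← htake] at h
    have h1 := (complete Y (Lt.dict Y :: (v ++ [Lt.query t])) (by simp) (v.length + 1)
      (by simp)).2.2 t h
    have s1 := fresh_step (fun _ => ∅) nR nU nM (Lt.dict Y :: (v ++ [Lt.query t]))
      (St.carry t) St.acc (v.length + 1) (v.length + 1)
      _ true (get_last _ _ _) le_rfl ((mem_nU _ _ _ _).2 (RU.fin t))
    exact ⟨St.acc, _, _, h1.tail s1, by simp, St.acc, by simp, by simp [nR]⟩

lemma fold_tests {r : ℕ} (Y Z : Fin r → Bool) (L : List (Fin r)) (s : Bool × (Fin r → Bool)) :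
    (L.map (fun l => Lt.test l (Z l))).foldl (upd Y) s =
      (s.1 && decide (∀ l ∈ L, Y l = Z l), s.2) := by
  induction L generalizing s with
  | nil => simp
  | cons l L ih =>
    simp only [List.map_cons, List.foldl_cons, ih, upd, List.mem_cons, forall_eq_or_imp]
    by_cases h : Y l = Z l <;> simp [h]

lemma exists_enc {r : ℕ} (φ : (Fin r → Bool) → Fin r → Bool) :
    ∃ v : List (Lt r), 0 < v.length ∧ (∀ a ∈ v, Body a) ∧
      ∀ Y, (sem Y (Lt.dict Y :: v)).2 = φ Y := by
  classical
  have key : ∀ Zs : Finset (Fin r → Bool), ∃ v : List (Lt r), 0 < v.length ∧ (∀ a ∈ v, Body a) ∧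
      ∀ Y, sem Y (Lt.dict Y :: v) = (true, fun t => decide (Y ∈ Zs) && φ Y t) := by
    intro Zs
    induction Zs using Finset.induction_on with
    | empty => exact ⟨[Lt.out (fun _ => false)], by simp, by simp [Body], fun Y => by
        simp [sem, upd]⟩
    | insert Z Zs hZ ih =>
      obtain ⟨v, h1, h2, h3⟩ := ih
      refine ⟨v ++ ((List.finRange r).map (fun l => Lt.test l (Z l)) ++ [Lt.out (φ Z)]),
        by simp, ?_, fun Y => ?_⟩
      · intro a ha
        simp only [List.mem_append, List.mem_map, List.mem_singleton] at ha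
        rcases ha with ha | ⟨l, _, rfl⟩ | rfl
        · exact h2 a ha
        · trivial
        · trivial
      · have h4 := h3 Y
        unfold sem at h4 ⊢
        rw [← List.cons_append, List.foldl_append, h4, List.foldl_append, fold_tests]
        simp only [List.foldl_cons, List.foldl_nil, upd, Prod.mk.injEq, true_and]
        funext t
        by_cases hYZ : Y = Z
        · subst hYZ
          simp [hZ]
        · have : ¬ ∀ l, Y l = Z l := fun h => hYZ (funext h)
          simp [hYZ, this]
  obtain ⟨v, h1, h2, h3⟩ := key Finset.univ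
  exact ⟨v, h1, h2, fun Y => by rw [h3]; simp⟩

lemma arith (s m : ℕ)
    (h : (2 ^ (2 * s + 2)) ^ (2 ^ (2 * s + 2)) ≤
      2 ^ (4 * m ^ 2) * (m + 1) ^ (2 ^ (2 * s + 2))) : 2 ^ s ≤ m := by
  by_contra hm
  have hm1 : m + 1 ≤ 2 ^ s := by omega
  set N := 2 ^ (2 * s + 2) with hN
  have hNpos : 0 < N := by positivity
  have h1 : 4 * m ^ 2 ≤ N := by
    have : N = 4 * (2 ^ s) ^ 2 := by rw [hN]; ring
    rw [this]
    have : m ≤ 2 ^ s := by omega
    gcongr
  have h2 : 2 ^ (4 * m ^ 2) * (m + 1) ^ N ≤ 2 ^ N * (2 ^ s) ^ N :=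
    Nat.mul_le_mul (Nat.pow_le_pow_right (by norm_num) h1) (Nat.pow_le_pow_left hm1 N)
  have h3 : N ^ N ≤ (2 ^ (s + 1)) ^ N := by
    refine (h.trans h2).trans (le_of_eq ?_)
    rw [← mul_pow]
    congr 1
    ring
  have h4 : N ≤ 2 ^ (s + 1) := (Nat.pow_le_pow_iff_left hNpos.ne').1 h3
  have h5 := (Nat.pow_le_pow_iff_right (by norm_num : 1 < 2)).1 h4
  omega

theorem main : ∃ c : ℝ, 0 < c ∧ ∃ N : ℕ, ∀ n : ℕ, N ≤ n →
      ∃ k : ℕ,
      ∃ δL : Fin n → Finset (Fin n × Bool),
      ∃ δR : Fin n → Finset (Fin n × Bool),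
      ∃ δU : Fin n → Fin k → Finset (Fin n × Bool),
      ∃ δM : Fin n → Fin k → Finset (Fin n × Bool),
      ∃ qI : Fin n, ∃ F : Finset (Fin n),
      ∀ m : ℕ,
      ∀ eL : Fin m → Finset (Fin m × Bool),
      ∀ eR : Fin m → Finset (Fin m × Bool),
      ∀ eU : Fin m → Fin k → Finset (Fin m × Bool),
      ∀ eM : Fin m → Fin k → Finset (Fin m × Bool),
      ∀ pI : Fin m, ∀ G : Finset (Fin m),
        (∀ p, (eL p).card ≤ 1) → (∀ p, (eR p).card ≤ 1) →
        (∀ p a, (eU p a).card ≤ 1) → (∀ p a, (eM p a).card ≤ 1) →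
        (∀ w : List (Fin k), AccFrom δL δR δU δM F w (qI, 1, 0) ↔
          AccFrom eL eR eU eM G w (pI, 1, 0)) →
        (2 : ℝ) ^ (c * (n : ℝ)) ≤ (m : ℝ) := by
  classical
  refine ⟨1 / 12, by norm_num, 30, fun n hn => ?_⟩
  set s := n / 12 + 1 with hs
  set r := 2 * s + 2 with hr
  have hcard : Fintype.card (St r) ≤ Fintype.card (Fin n) := by
    have := card_St r
    rw [Fintype.card_fin]
    omega
  obtain ⟨ι⟩ := Function.Embedding.nonempty_of_card_le hcard
  have : Nonempty (St r) := ⟨St.skip⟩
  let π : Fin n → St r := Function.invFun ι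
  have hπ : ∀ q, π (ι q) = q := Function.leftInverse_invFun ι.injective
  let e : Lt r ≃ Fin (Fintype.card (Lt r)) := Fintype.equivFin _
  refine ⟨Fintype.card (Lt r),
    fun _ => (∅ : Finset (St r × Bool)).map (ι.prodMap (Function.Embedding.refl Bool)),
    fun q' => (nR (π q')).map (ι.prodMap (Function.Embedding.refl Bool)),
    fun q' a => (nU (π q') (e.symm a)).map (ι.prodMap (Function.Embedding.refl Bool)),
    fun q' a => (nM (π q') (e.symm a)).map (ι.prodMap (Function.Embedding.refl Bool)),
    ι St.skip, ({St.acc} : Finset (St r)).map ι, ?_⟩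
  intro m eL eR eU eM pI G hL _ hU hM hacc
  choose enc henc1 henc2 henc3 using exists_enc (r := r)
  have hcount := count (δL := eL) (δR := eR) (δU := fun q a => eU q (e a))
    (δM := fun q a => eM q (e a)) hL (fun p a => hU p _) (fun p a => hM p _) G pI
    (Y := Fin r → Bool) (J := Fin r) Lt.dict Lt.query enc henc1 (fun φ Y t => by
      rw [← accFrom_map, ← hacc, accFrom_map]
      simp only [Equiv.symm_apply_apply]
      rw [acc_embed ι π hπ (fun _ => ∅) nR nU nM {St.acc}, nfa_sem Y _ (henc2 φ), henc3])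
  simp only [Fintype.card_fin, Fintype.card_fun, Fintype.card_bool] at hcount
  have h1 := arith s m hcount
  have h2 : (1 / 12 : ℝ) * n ≤ (s : ℝ) := by
    have : n ≤ 12 * s := by omega
    have : (n : ℝ) ≤ 12 * s := by exact_mod_cast this
    linarith
  calc (2 : ℝ) ^ ((1 / 12 : ℝ) * n) ≤ (2 : ℝ) ^ (s : ℝ) :=
        Real.rpow_le_rpow_of_exponent_le (by norm_num) h2
    _ = ((2 ^ s : ℕ) : ℝ) := by rw [Real.rpow_natCast]; push_cast; rfl
    _ ≤ m := by exact_mod_cast h1

end Pool.Agent.H248Z.Am
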