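import Mathlib

set_option autoImplicit false

namespace Pool.Agent.H248Z.Beer

open MeasureTheory Set

/-- Twice the signed area of a triangle. -/
def D (a b c : ℝ × ℝ) : ℝ := (b.1 - a.1) * (c.2 - a.2) - (b.2 - a.2) * (c.1 - a.1)

lemma triangle (u v w : ℝ × ℝ) (h : D u v w ≠ 0) :
    ∃ C : Set (ℝ × ℝ), Convex ℝ C ∧ Bornology.IsBounded C ∧
      ENNReal.ofReal (|D u v w| / 4) ≤ volume C ∧
      frontier C ⊆ segment ℝ u v ∪ segment ℝ v w ∪ segment ℝ w u := by
  let α : ℝ × ℝ → ℝ := fun x => D x v w / D u v w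
  let β : ℝ × ℝ → ℝ := fun x => D u x w / D u v w
  let γ : ℝ × ℝ → ℝ := fun x => D u v x / D u v w
  have hα : Continuous α := by unfold α D; fun_prop
  have hβ : Continuous β := by unfold β D; fun_prop
  have hγ : Continuous γ := by unfold γ D; fun_prop
  have hsum : ∀ x, α x + β x + γ x = 1 := by
    intro x
    simp only [α, β, γ]
    field_simp
    unfold D
    ring
  have hbary : ∀ x, α x • u + β x • v + γ x • w = x := by
    intro x
    ext
    · simp only [α, β, γ, Prod.fst_add, Prod.smul_fst, smul_eq_mul]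
      field_simp
      unfold D
      ring
    · simp only [α, β, γ, Prod.snd_add, Prod.smul_snd, smul_eq_mul]
      field_simp
      unfold D
      ring
  let C : Set (ℝ × ℝ) := {x | 0 ≤ α x ∧ 0 ≤ β x ∧ 0 ≤ γ x}
  have hclosed : IsClosed C :=
    (isClosed_le continuous_const hα).inter
      ((isClosed_le continuous_const hβ).inter (isClosed_le continuous_const hγ))
  refine ⟨C, ?_, ?_, ?_, ?_⟩
  · intro x hx y hy s t hs ht hst
    obtain rfl : s = 1 - t := by linarith
    have e1 : α ((1 - t) • x + t • y) = (1 - t) * α x + t * α y := by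
      simp only [α, D, Prod.fst_add, Prod.smul_fst, smul_eq_mul, Prod.snd_add, Prod.smul_snd]
      ring
    have e2 : β ((1 - t) • x + t • y) = (1 - t) * β x + t * β y := by
      simp only [β, D, Prod.fst_add, Prod.smul_fst, smul_eq_mul, Prod.snd_add, Prod.smul_snd]
      ring
    have e3 : γ ((1 - t) • x + t • y) = (1 - t) * γ x + t * γ y := by
      simp only [γ, D, Prod.fst_add, Prod.smul_fst, smul_eq_mul, Prod.snd_add, Prod.smul_snd]
      ring
    obtain ⟨h1, h2, h3⟩ := hx
    obtain ⟨g1, g2, g3⟩ := hy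
    refine ⟨?_, ?_, ?_⟩
    · rw [e1]; positivity
    · rw [e2]; positivity
    · rw [e3]; positivity
  · rw [isBounded_iff_forall_norm_le]
    refine ⟨‖u‖ + ‖v‖ + ‖w‖, fun x ⟨h1, h2, h3⟩ => ?_⟩
    have hs := hsum x
    rw [← hbary x]
    refine (norm_add₃_le).trans ?_
    rw [norm_smul, norm_smul, norm_smul, Real.norm_of_nonneg h1, Real.norm_of_nonneg h2,
      Real.norm_of_nonneg h3]
    have a1 : α x * ‖u‖ ≤ ‖u‖ := mul_le_of_le_one_left (norm_nonneg _) (by linarith)
    have a2 : β x * ‖v‖ ≤ ‖v‖ := mul_le_of_le_one_left (norm_nonneg _) (by linarith)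
    have a3 : γ x * ‖w‖ ≤ ‖w‖ := mul_le_of_le_one_left (norm_nonneg _) (by linarith)
    linarith
  · let L : (ℝ × ℝ) →ₗ[ℝ] (ℝ × ℝ) :=
      Matrix.toLin (Module.Basis.finTwoProd ℝ) (Module.Basis.finTwoProd ℝ)
        !![v.1 - u.1, w.1 - u.1; v.2 - u.2, w.2 - u.2]
    have hdet : LinearMap.det L = D u v w := by
      simp only [L, LinearMap.det_toLin, Matrix.det_fin_two_of, D]
      ring
    let Q : Set (ℝ × ℝ) := Icc (0 : ℝ) (1 / 2) ×ˢ Icc (0 : ℝ) (1 / 2)
    have hQ : volume Q = ENNReal.ofReal (1 / 4) := by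
      simp only [Q]
      rw [Measure.volume_eq_prod, Measure.prod_prod, Real.volume_Icc, ← ENNReal.ofReal_mul]
      · norm_num
      · norm_num
    have hsub : L '' Q ⊆ (fun x => u + x) ⁻¹' C := by
      rintro _ ⟨⟨s, t⟩, ⟨⟨hs0, hs1⟩, ⟨ht0, ht1⟩⟩, rfl⟩
      simp only at hs0 hs1 ht0 ht1
      have hL : L (s, t) = ((v.1 - u.1) * s + (w.1 - u.1) * t,
          (v.2 - u.2) * s + (w.2 - u.2) * t) := by
        simp only [L]
        exact Matrix.toLin_finTwoProd_apply _ _ _ _ _
      have e2 : β (u + L (s, t)) = s := by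
        simp only [β, hL]
        rw [div_eq_iff h]
        simp only [D, Prod.fst_add, Prod.snd_add]
        ring
      have e3 : γ (u + L (s, t)) = t := by
        simp only [γ, hL]
        rw [div_eq_iff h]
        simp only [D, Prod.fst_add, Prod.snd_add]
        ring
      have e1 := hsum (u + L (s, t))
      refine ⟨?_, ?_, ?_⟩
      · linarith
      · linarith
      · linarith
    have h1 := measure_mono (μ := volume) hsub
    rw [measure_preimage_add, Measure.addHaar_image_linearMap, hdet, hQ,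
      ← ENNReal.ofReal_mul (abs_nonneg _)] at h1
    convert h1 using 2
    ring
  · intro x hx
    rw [hclosed.frontier_eq] at hx
    obtain ⟨⟨h1, h2, h3⟩, hni⟩ := hx
    have hs := hsum x
    have hb := hbary x
    by_cases ha : α x = 0
    · left; right
      refine ⟨β x, γ x, h2, h3, by linarith, ?_⟩
      simpa [ha] using hb
    by_cases hb' : β x = 0
    · right
      refine ⟨γ x, α x, h3, h1, by linarith, ?_⟩
      rw [add_comm]
      simpa [hb'] using hb
    by_cases hc : γ x = 0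
    · left; left
      refine ⟨α x, β x, h1, h2, by linarith, ?_⟩
      simpa [hc] using hb
    exfalso
    apply hni
    have hopen : IsOpen {x | 0 < α x ∧ 0 < β x ∧ 0 < γ x} :=
      (isOpen_lt continuous_const hα).inter
        ((isOpen_lt continuous_const hβ).inter (isOpen_lt continuous_const hγ))
    refine interior_maximal (fun y hy => (⟨hy.1.le, hy.2.1.le, hy.2.2.le⟩ : y ∈ C)) hopen ?_
    exact ⟨lt_of_le_of_ne h1 (Ne.symm ha), lt_of_le_of_ne h2 (Ne.symm hb'),
      lt_of_le_of_ne h3 (Ne.symm hc)⟩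

lemma crossing (S : Set (ℝ × ℝ)) (η : ℝ) (p q r s : ℝ × ℝ)
    (hpr : segment ℝ p r ⊆ S) (hps : segment ℝ p s ⊆ S)
    (hqr : segment ℝ q r ⊆ S) (hqs : segment ℝ q s ⊆ S)
    (hA : η < |D p q r|) (hC : η < |D p r s|)
    (hAB : 0 < D p q r * D p q s) (hCF : 0 < D p r s * D q r s) (hBF : 0 < D p q s * D q r s) :
    ∃ u v w, η / 2 < |D u v w| ∧ segment ℝ u v ⊆ S ∧ segment ℝ v w ⊆ S ∧ segment ℝ w u ⊆ S := by
  set A := D p q r with hAd
  set B := D p q s with hBd
  set C := D p r s with hCd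
  set F := D q r s with hFd
  have hid : F + B = C + A := by simp only [hAd, hBd, hCd, hFd, D]; ring
  have hsign : (0 < A ∧ 0 < B ∧ 0 < C ∧ 0 < F) ∨ (A < 0 ∧ B < 0 ∧ C < 0 ∧ F < 0) := by
    rcases pos_and_pos_or_neg_and_neg_of_mul_pos hBF with ⟨h1, h2⟩ | ⟨h1, h2⟩
    · left
      exact ⟨by nlinarith, h1, by nlinarith, h2⟩
    · right
      exact ⟨by nlinarith, h1, by nlinarith, h2⟩
  have hT : F + B ≠ 0 := by rcases hsign with h | h <;> linarith [h.1, h.2.1, h.2.2.1, h.2.2.2] 
  set l := B / (F + B) with hl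
  set m := A / (F + B) with hm
  have hl' : 1 - l = F / (F + B) := by rw [hl]; field_simp; ring
  have hm' : 1 - m = C / (F + B) := by rw [hm]; field_simp; linarith
  have hl0 : 0 ≤ l ∧ 0 ≤ 1 - l ∧ 0 ≤ m ∧ 0 ≤ 1 - m := by
    rw [hl', hm', hl, hm]
    rcases hsign with ⟨h1, h2, h3, h4⟩ | ⟨h1, h2, h3, h4⟩
    · have : 0 < F + B := by linarith
      refine ⟨?_, ?_, ?_, ?_⟩ <;> positivity
    · have : F + B < 0 := by linarith
      exact ⟨(div_pos_of_neg_of_neg h2 this).le, (div_pos_of_neg_of_neg h4 this).le,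
        (div_pos_of_neg_of_neg h1 this).le, (div_pos_of_neg_of_neg h3 this).le⟩
  obtain ⟨l0, l1, m0, m1⟩ := hl0
  let z : ℝ × ℝ := (1 - l) • p + l • r
  have hz1 : z ∈ segment ℝ p r := ⟨1 - l, l, l1, l0, by ring, rfl⟩
  have hz2 : z ∈ segment ℝ q s := by
    refine ⟨1 - m, m, m1, m0, by ring, ?_⟩
    simp only [z]
    rw [hl', hm', hl, hm]
    ext
    · simp only [Prod.fst_add, Prod.smul_fst, smul_eq_mul]
      field_simp
      simp only [hAd, hBd, hCd, hFd, D]
      ring
    · simp only [Prod.snd_add, Prod.smul_snd, smul_eq_mul]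
      field_simp
      simp only [hAd, hBd, hCd, hFd, D]
      ring
  have s1 : segment ℝ p z ⊆ S :=
    ((convex_segment p r).segment_subset (left_mem_segment ℝ _ _) hz1).trans hpr
  have s2 : segment ℝ z s ⊆ S :=
    ((convex_segment q s).segment_subset hz2 (right_mem_segment ℝ _ _)).trans hqs
  have s3 : segment ℝ q z ⊆ S :=
    ((convex_segment q s).segment_subset (left_mem_segment ℝ _ _) hz2).trans hqs
  have s4 : segment ℝ z r ⊆ S :=
    ((convex_segment p r).segment_subset hz1 (right_mem_segment ℝ _ _)).trans hpr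
  have hA0 : 0 < |A| := by
    rcases hsign with h | h
    · exact abs_pos.2 h.1.ne'
    · exact abs_pos.2 h.1.ne
  have hC0 : 0 < |C| := by
    rcases hsign with h | h
    · exact abs_pos.2 h.2.2.1.ne'
    · exact abs_pos.2 h.2.2.1.ne
  rcases le_total (1 / 2) l with h | h
  · refine ⟨p, z, s, ?_, s1, s2, by rw [segment_symm]; exact hps⟩
    have : D p z s = l * C := by
      simp only [z, hCd, D, Prod.fst_add, Prod.smul_fst, smul_eq_mul, Prod.snd_add, Prod.smul_snd]
      ring
    rw [this, abs_mul, abs_of_nonneg l0]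
    nlinarith
  · refine ⟨q, z, r, ?_, s3, s4, by rw [segment_symm]; exact hqr⟩
    have : D q z r = -((1 - l) * A) := by
      simp only [z, hAd, D, Prod.fst_add, Prod.smul_fst, smul_eq_mul, Prod.snd_add, Prod.smul_snd]
      ring
    rw [this, abs_neg, abs_mul, abs_of_nonneg l1]
    nlinarith

lemma quad (S : Set (ℝ × ℝ)) (η : ℝ) (p q r s : ℝ × ℝ)
    (hpr : segment ℝ p r ⊆ S) (hps : segment ℝ p s ⊆ S)
    (hqr : segment ℝ q r ⊆ S) (hqs : segment ℝ q s ⊆ S)
    (hA : η < |D p q r|) (hB : η < |D p q s|) (hC : η < |D p r s|)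
    (hAB : 0 < D p q r * D p q s) (hCF : 0 < D p r s * D q r s) :
    ∃ u v w, η / 2 < |D u v w| ∧ segment ℝ u v ⊆ S ∧ segment ℝ v w ⊆ S ∧ segment ℝ w u ⊆ S := by
  have e1 : D p s r = - D p r s := by unfold D; ring
  have e2 : D q s r = - D q r s := by unfold D; ring
  rcases lt_trichotomy 0 (D p q s * D q r s) with h | h | h
  · exact crossing S η p q r s hpr hps hqr hqs hA hC hAB hCF h
  · exfalso
    rcases mul_eq_zero.1 h.symm with h | h
    · rw [h] at hAB; simp at hAB
    · rw [h] at hCF; simp at hCF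
  · refine crossing S η p q s r hps hpr hqs hqr hB (by rw [e1, abs_neg]; exact hC)
      (by rw [mul_comm]; exact hAB) (by rw [e1, e2]; linarith) ?_
    rw [e2]
    have h2 : 0 < D p q s * D p q s := by
      rcases eq_or_ne (D p q s) 0 with h0 | h0
      · rw [h0] at hAB; simp at hAB
      · exact mul_self_pos.2 h0
    by_contra hcon
    have : 0 ≤ D p q r * D q r s := by linarith
    nlinarith

end Pool.Agent.H248Z.Beer
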