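import Mathlib

set_option autoImplicit false

namespace Pool.Agent.H248Z.Beer

open MeasureTheory Set ENNReal

lemma cube_lower {Ω : Type*} [MeasurableSpace Ω] (ν : Measure Ω) [IsProbabilityMeasure ν]
    (d : Ω → ℝ≥0∞) (hd : Measurable d) (ε : ℝ) (hε : 0 < ε)
    (h : ENNReal.ofReal ε ≤ ∫⁻ y, d y ∂ν) :
    ENNReal.ofReal (ε ^ 3 / 8) ≤ ∫⁻ y, d y * (d y * d y) ∂ν := by
  set c := ENNReal.ofReal (ε / 2) with hc
  have hpt : ∀ y, c * c * d y ≤ d y * (d y * d y) + c * c * c := by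
    intro y
    rcases le_total (d y) c with h1 | h1
    · exact le_add_left (by gcongr)
    · refine le_add_right ?_
      rw [mul_comm]
      gcongr
  have h1 : c * c * ENNReal.ofReal ε ≤ ∫⁻ y, d y * (d y * d y) ∂ν + c * c * c := by
    calc c * c * ENNReal.ofReal ε ≤ c * c * ∫⁻ y, d y ∂ν := by gcongr
      _ = ∫⁻ y, c * c * d y ∂ν := (lintegral_const_mul _ hd).symm
      _ ≤ ∫⁻ y, (d y * (d y * d y) + c * c * c) ∂ν := lintegral_mono hpt
      _ = _ := by
        rw [lintegral_add_right _ measurable_const]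
        simp
  have h2 : c * c * ENNReal.ofReal ε = ENNReal.ofReal (ε ^ 3 / 8) + c * c * c := by
    rw [hc, ← ENNReal.ofReal_mul (by positivity), ← ENNReal.ofReal_mul (by positivity),
      ← ENNReal.ofReal_mul (by positivity), ← ENNReal.ofReal_add (by positivity) (by positivity)]
    congr 1
    ring
  rw [h2] at h1
  refine (ENNReal.add_le_add_iff_right ?_).1 h1
  exact ENNReal.mul_ne_top (ENNReal.mul_ne_top ofReal_ne_top ofReal_ne_top) ofReal_ne_top

lemma pigeon {Ω : Type*} [MeasurableSpace Ω] (ν : Measure Ω) {K : Type*} [Fintype K] [Nonempty K]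
    (cls : Ω → K) (M : Set Ω) :
    ∃ σ, ν M ≤ Fintype.card K * ν (M ∩ cls ⁻¹' {σ}) := by
  obtain ⟨σ, -, hσ⟩ := Finset.exists_max_image Finset.univ (fun σ => ν (M ∩ cls ⁻¹' {σ}))
    Finset.univ_nonempty
  refine ⟨σ, ?_⟩
  have h1 : M ⊆ ⋃ σ ∈ (Finset.univ : Finset K), M ∩ cls ⁻¹' {σ} := by
    intro x hx
    simp only [mem_iUnion]
    exact ⟨cls x, Finset.mem_univ _, hx, rfl⟩
  refine (measure_mono h1).trans ((measure_biUnion_finset_le _ _).trans ?_)
  refine (Finset.sum_le_card_nsmul _ _ _ hσ).trans ?_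
  simp

lemma select {Ω : Type*} [MeasurableSpace Ω] (ν : Measure Ω) [IsProbabilityMeasure ν]
    (E : Set (Ω × Ω)) (hE : MeasurableSet E) (Bad : Set (Ω × Ω × Ω)) (hBad : MeasurableSet Bad)
    (cls : Ω × Ω × Ω → Ω → Bool × Bool × Bool) (ε : ℝ) (hε : 0 < ε)
    (hεE : ENNReal.ofReal ε ≤ ν.prod ν E)
    (hgB : ν.prod (ν.prod ν) Bad ≤ ENNReal.ofReal ((ε ^ 3 / 8) ^ 2 / 1000)) :
    ∃ x1 x2 x3 y1 y2, ((x1, y1) ∈ E ∧ (x2, y1) ∈ E ∧ (x3, y1) ∈ E) ∧
      ((x1, y2) ∈ E ∧ (x2, y2) ∈ E ∧ (x3, y2) ∈ E) ∧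
      ((x1, x2, y1) ∉ Bad ∧ (x1, x3, y1) ∉ Bad ∧ (x2, x3, y1) ∉ Bad) ∧
      ((x1, x2, y2) ∉ Bad ∧ (x1, x3, y2) ∉ Bad ∧ (x2, x3, y2) ∉ Bad) ∧
      ((x1, y1, y2) ∉ Bad ∧ (x2, y1, y2) ∉ Bad ∧ (x3, y1, y2) ∉ Bad) ∧
      cls (x1, x2, x3) y1 = cls (x1, x2, x3) y2 := by
  have hε1 : ε ≤ 1 := by
    have : ENNReal.ofReal ε ≤ 1 := hεE.trans prob_le_one
    exact ENNReal.ofReal_le_one.1 this
  set a : ℝ := ε ^ 3 / 8 with ha
  have ha0 : 0 < a := by positivity
  have ha1 : a ≤ 1 := by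
    have : ε ^ 3 ≤ 1 := pow_le_one₀ hε.le hε1
    rw [ha]; linarith
  set π := ν.prod (ν.prod ν) with hπ
  let T : Set ((Ω × Ω × Ω) × Ω) :=
    {z | (z.1.1, z.2) ∈ E ∧ (z.1.2.1, z.2) ∈ E ∧ (z.1.2.2, z.2) ∈ E}
  have hT : MeasurableSet T := by
    refine MeasurableSet.inter ?_ (MeasurableSet.inter ?_ ?_)
    · exact (by fun_prop : Measurable fun z : (Ω × Ω × Ω) × Ω => (z.1.1, z.2)) hE
    · exact (by fun_prop : Measurable fun z : (Ω × Ω × Ω) × Ω => (z.1.2.1, z.2)) hE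
    · exact (by fun_prop : Measurable fun z : (Ω × Ω × Ω) × Ω => (z.1.2.2, z.2)) hE
  let d : Ω → ℝ≥0∞ := fun y => ν ((fun x => (x, y)) ⁻¹' E)
  have hd : Measurable d := measurable_measure_prodMk_right hE
  have hF : ENNReal.ofReal a ≤ ∫⁻ X, ν (Prod.mk X ⁻¹' T) ∂π := by
    rw [← Measure.prod_apply hT, Measure.prod_apply_symm hT]
    refine (cube_lower ν d hd ε hε (by rwa [Measure.prod_apply_symm hE] at hεE)).trans
      (le_of_eq ?_)
    apply lintegral_congr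
    intro y
    simp only [d, hπ]
    rw [← Measure.prod_prod, ← Measure.prod_prod]
    rfl
  let Bad' : Set ((Ω × Ω) × Ω) := MeasurableEquiv.prodAssoc ⁻¹' Bad
  have hBad' : MeasurableSet Bad' := MeasurableEquiv.prodAssoc.measurable hBad
  let β : Ω × Ω → ℝ≥0∞ := fun p => ν (Prod.mk p ⁻¹' Bad')
  have hβ : Measurable β := measurable_measure_prodMk_left hBad'
  have hβi : ∫⁻ p, β p ∂(ν.prod ν) = π Bad := by
    rw [← Measure.prod_apply hBad']
    exact (measurePreserving_prodAssoc ν ν ν).measure_preimage hBad.nullMeasurableSet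
  let γ : Ω → ℝ≥0∞ := fun x => (ν.prod ν) (Prod.mk x ⁻¹' Bad)
  have hγ : Measurable γ := measurable_measure_prodMk_left hBad
  have hγi : ∫⁻ x, γ x ∂ν = π Bad := (Measure.prod_apply hBad).symm
  have m12 : MeasurePreserving (fun X : Ω × Ω × Ω => (X.1, X.2.1)) π (ν.prod ν) :=
    (MeasurePreserving.id ν).prod measurePreserving_fst
  have m13 : MeasurePreserving (fun X : Ω × Ω × Ω => (X.1, X.2.2)) π (ν.prod ν) :=
    (MeasurePreserving.id ν).prod measurePreserving_snd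
  have m23 : MeasurePreserving (fun X : Ω × Ω × Ω => X.2) π (ν.prod ν) := measurePreserving_snd
  have m1 : MeasurePreserving (fun X : Ω × Ω × Ω => X.1) π ν := measurePreserving_fst
  have m2 : MeasurePreserving (fun X : Ω × Ω × Ω => X.2.1) π ν :=
    measurePreserving_fst.comp m23
  have m3 : MeasurePreserving (fun X : Ω × Ω × Ω => X.2.2) π ν :=
    measurePreserving_snd.comp m23
  set c := ENNReal.ofReal (128 / a) with hc
  set θ := ENNReal.ofReal (a / 2) with hθ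
  let G : Ω × Ω × Ω → ℝ≥0∞ := fun X =>
    (β (X.1, X.2.1) + β (X.1, X.2.2) + β X.2) + (c * (γ X.1 + γ X.2.1 + γ X.2.2) + θ)
  have hG : ∫⁻ X, G X ∂π < ENNReal.ofReal a := by
    have e : ∫⁻ X, G X ∂π = (π Bad + π Bad + π Bad) + (c * (π Bad + π Bad + π Bad) + θ) := by
      simp only [G]
      rw [lintegral_add_left (by fun_prop), lintegral_add_left (by fun_prop),
        lintegral_add_left (by fun_prop), lintegral_add_right _ measurable_const,
        lintegral_const_mul _ (by fun_prop), lintegral_add_left (by fun_prop),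
        lintegral_add_left (by fun_prop), m12.lintegral_comp hβ, m13.lintegral_comp hβ,
        m23.lintegral_comp hβ, m1.lintegral_comp hγ, m2.lintegral_comp hγ,
        m3.lintegral_comp hγ, hβi, hγi]
      simp
    rw [e]
    set g := ENNReal.ofReal (a ^ 2 / 1000) with hg
    calc _ ≤ (g + g + g) + (c * (g + g + g) + θ) := by gcongr
      _ = ENNReal.ofReal ((a ^ 2 / 1000 + a ^ 2 / 1000 + a ^ 2 / 1000) +
          (128 / a * (a ^ 2 / 1000 + a ^ 2 / 1000 + a ^ 2 / 1000) + a / 2)) := by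
        rw [hg, hc, hθ, ← ENNReal.ofReal_add (by positivity) (by positivity),
          ← ENNReal.ofReal_add (by positivity) (by positivity),
          ← ENNReal.ofReal_mul (by positivity),
          ← ENNReal.ofReal_add (by positivity) (by positivity),
          ← ENNReal.ofReal_add (by positivity) (by positivity)]
      _ < ENNReal.ofReal a := by
        rw [ENNReal.ofReal_lt_ofReal_iff ha0]
        have : 128 / a * (a ^ 2 / 1000 + a ^ 2 / 1000 + a ^ 2 / 1000) = 384 / 1000 * a := by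
          field_simp
          ring
        rw [this]
        nlinarith
  obtain ⟨X, hX⟩ : ∃ X, G X < ν (Prod.mk X ⁻¹' T) := by
    by_contra hcon
    push Not at hcon
    exact absurd (hF.trans (lintegral_mono hcon)) (not_le.2 hG)
  obtain ⟨x1, x2, x3⟩ := X
  let B1 : Set Ω := Prod.mk (x1, x2) ⁻¹' Bad' ∪ Prod.mk (x1, x3) ⁻¹' Bad' ∪ Prod.mk (x2, x3) ⁻¹' Bad'
  let B2 : Set (Ω × Ω) := Prod.mk x1 ⁻¹' Bad ∪ Prod.mk x2 ⁻¹' Bad ∪ Prod.mk x3 ⁻¹' Bad
  have hB1 : ν B1 ≤ β (x1, x2) + β (x1, x3) + β (x2, x3) :=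
    (measure_union_le _ _).trans (add_le_add (measure_union_le _ _) le_rfl)
  have hB2 : (ν.prod ν) B2 ≤ γ x1 + γ x2 + γ x3 :=
    (measure_union_le _ _).trans (add_le_add (measure_union_le _ _) le_rfl)
  let M : Set Ω := (Prod.mk (x1, x2, x3) ⁻¹' T) \ B1
  have hM : ν (Prod.mk (x1, x2, x3) ⁻¹' T) ≤ ν B1 + ν M := by
    refine le_trans (measure_mono ?_) (measure_union_le _ _)
    intro y hy
    by_cases h : y ∈ B1
    · exact Or.inl h
    · exact Or.inr ⟨hy, h⟩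
  have hM2 : c * (ν.prod ν) B2 + θ < ν M := by
    have h1 : ν B1 + (c * (ν.prod ν) B2 + θ) < ν B1 + ν M := by
      refine lt_of_le_of_lt ?_ (lt_of_lt_of_le hX hM)
      simp only [G]
      gcongr
    exact (ENNReal.add_lt_add_iff_left (measure_ne_top _ _)).1 h1
  obtain ⟨σ, hσ⟩ := pigeon ν (cls (x1, x2, x3)) M
  set C := M ∩ cls (x1, x2, x3) ⁻¹' {σ} with hC
  have hlt : (ν.prod ν) B2 < (ν.prod ν) (C ×ˢ C) := by
    rw [Measure.prod_prod]
    have h1 := lt_of_lt_of_le hM2 hσ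
    have hm : ν C = ENNReal.ofReal (ν C).toReal := (ofReal_toReal (measure_ne_top _ _)).symm
    have hb : (ν.prod ν) B2 = ENNReal.ofReal ((ν.prod ν) B2).toReal :=
      (ofReal_toReal (measure_ne_top _ _)).symm
    have hm0 : 0 ≤ (ν C).toReal := toReal_nonneg
    have hb0 : 0 ≤ ((ν.prod ν) B2).toReal := toReal_nonneg
    generalize (ν C).toReal = m at hm hm0
    generalize ((ν.prod ν) B2).toReal = b at hb hb0
    rw [hm, hb] at h1 ⊢
    have h8 : ((Fintype.card (Bool × Bool × Bool) : ℕ) : ℝ≥0∞) = ENNReal.ofReal 8 := by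
      simp
    rw [h8, hc, hθ, ← ENNReal.ofReal_mul (by positivity), ← ENNReal.ofReal_mul (by positivity),
      ← ENNReal.ofReal_add (by positivity) (by positivity),
      ENNReal.ofReal_lt_ofReal_iff_of_nonneg (by positivity)] at h1
    rw [← ENNReal.ofReal_mul hm0, ENNReal.ofReal_lt_ofReal_iff_of_nonneg hb0]
    have h2 : 128 * b + a * a / 2 < 8 * m * a := by
      have := mul_lt_mul_of_pos_right h1 ha0
      have e : (128 / a * b + a / 2) * a = 128 * b + a * a / 2 := by field_simp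
      rwa [e] at this
    nlinarith [sq_nonneg (a - 16 * m), sq_nonneg (a - 8 * m)]
  obtain ⟨⟨y1, y2⟩, ⟨hy1, hy2⟩, hy⟩ : ∃ y ∈ C ×ˢ C, y ∉ B2 := by
    by_contra hcon
    push Not at hcon
    exact absurd (measure_mono hcon) (not_le.2 hlt)
  simp only [B2, mem_union, mem_preimage, not_or] at hy
  obtain ⟨⟨h1, h2⟩, h3⟩ := hy1
  obtain ⟨⟨g1, g2⟩, g3⟩ := hy2
  simp only [B1, mem_union, mem_preimage, not_or] at h2 g2
  exact ⟨x1, x2, x3, y1, y2, h1, g1, ⟨h2.1.1, h2.1.2, h2.2⟩, ⟨g2.1.1, g2.1.2, g2.2⟩,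
    ⟨hy.1.1, hy.1.2, hy.2⟩, (h3 : _ = σ).trans (g3 : _ = σ).symm⟩

end Pool.Agent.H248Z.Beer
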