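import Mathlib
import Pool.Agent.H248Z.BeerAnalytic
import Pool.Agent.H248Z.BeerGeom
import Pool.Agent.H248Z.BeerSelect

set_option autoImplicit false

namespace Pool.Agent.H248Z.Beer

open MeasureTheory Set ENNReal

/-- Length of a vertical section. -/
noncomputable def sec (S : Set (ℝ × ℝ)) (x : ℝ) : ℝ≥0∞ := volume (Prod.mk x ⁻¹' S)

lemma sec_measurable {S : Set (ℝ × ℝ)} (hS : MeasurableSet S) : Measurable (sec S) :=
  measurable_measure_prodMk_left hS

lemma lintegral_sec {S : Set (ℝ × ℝ)} (hS : MeasurableSet S) :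
    ∫⁻ x, sec S x = volume S := by
  rw [Measure.volume_eq_prod, Measure.prod_apply hS]
  rfl

lemma ms_and {α : Type*} [MeasurableSpace α] {p q : α → Prop} (hp : MeasurableSet {x | p x})
    (hq : MeasurableSet {x | q x}) : MeasurableSet {x | p x ∧ q x} := hp.inter hq

lemma lemA {S : Set (ℝ × ℝ)} (hS : MeasurableSet S) (L : ℝ≥0∞) (x0 σ : ℝ) (hσ : 0 < σ) :
    (volume.restrict S)
      {c : ℝ × ℝ | sec S c.1 ≤ L ∧ L * ENNReal.ofReal |x0 - c.1| ≤ ENNReal.ofReal σ} ≤
      ENNReal.ofReal (2 * σ) := by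
  have hsec := sec_measurable hS
  set J : Set ℝ := {x | L * ENNReal.ofReal |x0 - x| ≤ ENNReal.ofReal σ} with hJ
  have hJm : MeasurableSet J := measurableSet_le (by fun_prop) measurable_const
  have hT : MeasurableSet
      {c : ℝ × ℝ | sec S c.1 ≤ L ∧ L * ENNReal.ofReal |x0 - c.1| ≤ ENNReal.ofReal σ} :=
    ms_and (measurableSet_le (by fun_prop) measurable_const) (measurable_fst hJm)
  rw [Measure.restrict_apply hT, Measure.volume_eq_prod, Measure.prod_apply (hT.inter hS)]
  calc _ ≤ ∫⁻ x, J.indicator (fun _ => L) x := by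
        apply lintegral_mono
        intro x
        by_cases hx : sec S x ≤ L ∧ x ∈ J
        · simp only [indicator_of_mem hx.2]
          exact le_trans (measure_mono (fun y hy => hy.2)) hx.1
        · refine le_trans (le_of_eq ?_) zero_le
          simp only
          convert measure_empty (μ := (volume : Measure ℝ))
          exact eq_empty_of_forall_notMem fun y hy => hx hy.1
    _ = L * volume J := by rw [lintegral_indicator_const hJm]
    _ ≤ _ := by
        rcases eq_or_ne L 0 with rfl | h0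
        · simp
        rcases eq_or_ne L ⊤ with rfl | htop
        · have : J ⊆ {x0} := by
            intro x hx
            by_contra hne
            have hpos : 0 < |x0 - x| := abs_pos.2 (sub_ne_zero.2 (Ne.symm hne))
            have h1 : (⊤ : ℝ≥0∞) * ENNReal.ofReal |x0 - x| = ⊤ :=
              ENNReal.top_mul (by simpa using hpos)
            simp only [hJ, mem_ofPred_eq, h1] at hx
            exact absurd hx (by simp)
          rw [measure_mono_null this (measure_singleton _)]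
          simp
        · have hl : 0 < L.toReal := toReal_pos h0 htop
          have hL : L = ENNReal.ofReal L.toReal := (ofReal_toReal htop).symm
          generalize L.toReal = l at hl hL
          subst hL
          have : J ⊆ Icc (x0 - σ / l) (x0 + σ / l) := by
            intro x hx
            simp only [hJ, mem_ofPred_eq] at hx
            rw [← ENNReal.ofReal_mul hl.le, ENNReal.ofReal_le_ofReal_iff hσ.le] at hx
            have h2 : |x0 - x| ≤ σ / l := by
              rw [le_div_iff₀ hl]; linarith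
            rw [abs_le] at h2
            constructor <;> linarith [h2.1, h2.2]
          refine le_trans (mul_le_mul_right (measure_mono this) _) ?_
          rw [Real.volume_Icc, ← ENNReal.ofReal_mul hl.le]
          apply le_of_eq
          congr 1
          field_simp
          ring

lemma lemB {S : Set (ℝ × ℝ)} (hS : MeasurableSet S) (b c : ℝ × ℝ) (η σ : ℝ) (hη : 0 < η)
    (hσ : 0 < σ) :
    (volume.restrict S)
      {a : ℝ × ℝ | |D a b c| ≤ η ∧ ENNReal.ofReal σ < sec S a.1 * ENNReal.ofReal |b.1 - c.1|} ≤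
      ENNReal.ofReal (2 * η / σ) * volume S := by
  have hsec := sec_measurable hS
  have hT : MeasurableSet {a : ℝ × ℝ | |D a b c| ≤ η ∧
      ENNReal.ofReal σ < sec S a.1 * ENNReal.ofReal |b.1 - c.1|} :=
    ms_and (measurableSet_le (by unfold D; fun_prop) measurable_const)
      (measurableSet_lt measurable_const (by fun_prop))
  rw [Measure.restrict_apply hT, ← lintegral_sec hS, ← lintegral_const_mul _ hsec,
    Measure.volume_eq_prod, Measure.prod_apply (hT.inter hS)]
  apply lintegral_mono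
  intro x
  by_cases hx : ENNReal.ofReal σ < sec S x * ENNReal.ofReal |b.1 - c.1|
  · have hΔ : 0 < |b.1 - c.1| := by
      rcases (abs_nonneg (b.1 - c.1)).eq_or_lt with h | h
      · rw [← h] at hx; simp at hx
      · exact h
    have hΔ' : c.1 - b.1 ≠ 0 := by
      intro h
      have : b.1 - c.1 = 0 := by linarith
      rw [this] at hΔ; simp at hΔ
    set k := ((b.1 - x) * c.2 - b.2 * (c.1 - x)) / (c.1 - b.1) with hk
    have hsub : Prod.mk x ⁻¹' ({a : ℝ × ℝ | |D a b c| ≤ η ∧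
        ENNReal.ofReal σ < sec S a.1 * ENNReal.ofReal |b.1 - c.1|} ∩ S) ⊆
        Icc (-k - η / |b.1 - c.1|) (-k + η / |b.1 - c.1|) := by
      intro y hy
      have h1 : |D (x, y) b c| ≤ η := hy.1.1
      have h2 : D (x, y) b c = (c.1 - b.1) * (y + k) := by
        rw [hk]; unfold D; field_simp; ring
      rw [h2, abs_mul, abs_sub_comm] at h1
      have h3 : |y + k| ≤ η / |b.1 - c.1| := by
        rw [le_div_iff₀ hΔ]; linarith
      rw [abs_le] at h3
      constructor <;> linarith [h3.1, h3.2]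
    refine le_trans (measure_mono hsub) ?_
    rw [Real.volume_Icc]
    calc _ = ENNReal.ofReal (2 * η / σ) * (ENNReal.ofReal σ * ENNReal.ofReal (|b.1 - c.1|⁻¹)) := by
          rw [← ENNReal.ofReal_mul hσ.le, ← ENNReal.ofReal_mul (by positivity)]
          congr 1
          field_simp
          ring
      _ ≤ ENNReal.ofReal (2 * η / σ) * (sec S x * ENNReal.ofReal |b.1 - c.1| *
            ENNReal.ofReal (|b.1 - c.1|⁻¹)) := by gcongr
      _ = _ := by
          rw [mul_assoc, ← ENNReal.ofReal_mul hΔ.le, mul_inv_cancel₀ hΔ.ne']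
          simp
  · refine le_trans (le_of_eq ?_) zero_le
    simp only
    convert measure_empty (μ := (volume : Measure ℝ))
    exact eq_empty_of_forall_notMem fun y hy => hx hy.1.2

lemma fub1 {Ω : Type*} [MeasurableSpace Ω] (ν : Measure Ω) [IsProbabilityMeasure ν]
    {T : Set (Ω × Ω × Ω)} (hT : MeasurableSet T) (K : ℝ≥0∞)
    (h : ∀ a b, ν {c | (a, b, c) ∈ T} ≤ K) : ν.prod (ν.prod ν) T ≤ K := by
  rw [Measure.prod_apply hT]
  calc _ ≤ ∫⁻ _, K ∂ν := by
        apply lintegral_mono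
        intro a
        simp only
        rw [Measure.prod_apply (measurable_prodMk_left hT)]
        calc _ ≤ ∫⁻ _, K ∂ν := lintegral_mono fun b => h a b
          _ = K := by simp
    _ = K := by simp

lemma fub2 {Ω : Type*} [MeasurableSpace Ω] (ν : Measure Ω) [IsProbabilityMeasure ν]
    {T : Set (Ω × Ω × Ω)} (hT : MeasurableSet T) (K : ℝ≥0∞)
    (h : ∀ b c, ν {a | (a, b, c) ∈ T} ≤ K) : ν.prod (ν.prod ν) T ≤ K := by
  rw [Measure.prod_apply_symm hT]
  calc _ ≤ ∫⁻ _, K ∂(ν.prod ν) := lintegral_mono fun p => h p.1 p.2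
    _ = K := by simp

lemma bad_bound {S : Set (ℝ × ℝ)} (hS : MeasurableSet S) (V : ℝ) (hV : 0 < V)
    (hSV : volume S = ENNReal.ofReal V) (ν : Measure (ℝ × ℝ)) [IsProbabilityMeasure ν]
    (hν : ∀ T, ν T = ENNReal.ofReal V⁻¹ * (volume.restrict S) T) (τ : ℝ) (hτ : 0 < τ) :
    ν.prod (ν.prod ν) {t | |D t.1 t.2.1 t.2.2| ≤ τ ^ 2 * V} ≤ ENNReal.ofReal (8 * τ) := by
  have hsec := sec_measurable hS
  set η := τ ^ 2 * V with hη
  set σ := τ * V with hσ
  have hη0 : 0 < η := by positivity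
  have hσ0 : 0 < σ := by positivity
  have eA : ENNReal.ofReal V⁻¹ * ENNReal.ofReal (2 * σ) = ENNReal.ofReal (2 * τ) := by
    rw [← ENNReal.ofReal_mul (by positivity)]
    congr 1
    rw [hσ]; field_simp
  have eB : ENNReal.ofReal V⁻¹ * (ENNReal.ofReal (2 * η / σ) * volume S) =
      ENNReal.ofReal (2 * τ) := by
    rw [hSV, ← ENNReal.ofReal_mul (by positivity), ← ENNReal.ofReal_mul (by positivity)]
    congr 1
    rw [hσ, hη]; field_simp
  let A1 : Set ((ℝ × ℝ) × (ℝ × ℝ) × (ℝ × ℝ)) := {t | sec S t.2.2.1 ≤ sec S t.1.1 ∧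
    sec S t.1.1 * ENNReal.ofReal |t.2.1.1 - t.2.2.1| ≤ ENNReal.ofReal σ}
  let A2 : Set ((ℝ × ℝ) × (ℝ × ℝ) × (ℝ × ℝ)) := {t | sec S t.1.1 ≤ sec S t.2.2.1 ∧
    sec S t.2.2.1 * ENNReal.ofReal |t.2.1.1 - t.1.1| ≤ ENNReal.ofReal σ}
  let B1 : Set ((ℝ × ℝ) × (ℝ × ℝ) × (ℝ × ℝ)) := {t | |D t.1 t.2.1 t.2.2| ≤ η ∧
    ENNReal.ofReal σ < sec S t.1.1 * ENNReal.ofReal |t.2.1.1 - t.2.2.1|}
  let B2 : Set ((ℝ × ℝ) × (ℝ × ℝ) × (ℝ × ℝ)) := {t | |D t.2.2 t.2.1 t.1| ≤ η ∧
    ENNReal.ofReal σ < sec S t.2.2.1 * ENNReal.ofReal |t.2.1.1 - t.1.1|}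
  have mA1 : MeasurableSet A1 :=
    ms_and (measurableSet_le (by fun_prop) (by fun_prop))
      (measurableSet_le (by fun_prop) measurable_const)
  have mA2 : MeasurableSet A2 :=
    ms_and (measurableSet_le (by fun_prop) (by fun_prop))
      (measurableSet_le (by fun_prop) measurable_const)
  have mB1 : MeasurableSet B1 :=
    ms_and (measurableSet_le (by unfold D; fun_prop) measurable_const)
      (measurableSet_lt measurable_const (by fun_prop))
  have mB2 : MeasurableSet B2 :=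
    ms_and (measurableSet_le (by unfold D; fun_prop) measurable_const)
      (measurableSet_lt measurable_const (by fun_prop))
  have hA1 : ν.prod (ν.prod ν) A1 ≤ ENNReal.ofReal (2 * τ) := by
    refine fub1 ν mA1 _ fun a b => ?_
    rw [hν, ← eA]
    exact mul_le_mul_right (lemA hS (sec S a.1) b.1 σ hσ0) _
  have hA2 : ν.prod (ν.prod ν) A2 ≤ ENNReal.ofReal (2 * τ) := by
    refine fub2 ν mA2 _ fun b c => ?_
    rw [hν, ← eA]
    exact mul_le_mul_right (lemA hS (sec S c.1) b.1 σ hσ0) _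
  have hB1 : ν.prod (ν.prod ν) B1 ≤ ENNReal.ofReal (2 * τ) := by
    refine fub2 ν mB1 _ fun b c => ?_
    rw [hν, ← eB]
    exact mul_le_mul_right (lemB hS b c η σ hη0 hσ0) _
  have hB2 : ν.prod (ν.prod ν) B2 ≤ ENNReal.ofReal (2 * τ) := by
    refine fub1 ν mB2 _ fun a b => ?_
    rw [hν, ← eB]
    exact mul_le_mul_right (lemB hS b a η σ hη0 hσ0) _
  have hsub : {t : (ℝ × ℝ) × (ℝ × ℝ) × (ℝ × ℝ) | |D t.1 t.2.1 t.2.2| ≤ η} ⊆
      (A1 ∪ B1) ∪ (A2 ∪ B2) := by
    rintro ⟨a, b, c⟩ ht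
    have ht1 : |D a b c| ≤ η := ht
    have ht2 : |D c b a| ≤ η := by
      have : D c b a = - D a b c := by unfold D; ring
      rwa [this, abs_neg]
    rcases le_total (sec S c.1) (sec S a.1) with h | h
    · left
      rcases le_or_gt (sec S a.1 * ENNReal.ofReal |b.1 - c.1|) (ENNReal.ofReal σ) with g | g
      · exact Or.inl ⟨h, g⟩
      · exact Or.inr ⟨ht1, g⟩
    · right
      rcases le_or_gt (sec S c.1 * ENNReal.ofReal |b.1 - a.1|) (ENNReal.ofReal σ) with g | g
      · exact Or.inl ⟨h, g⟩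
      · exact Or.inr ⟨ht2, g⟩
  refine (measure_mono hsub).trans ((measure_union_le _ _).trans ?_)
  refine (add_le_add ((measure_union_le _ _).trans (add_le_add hA1 hB1))
    ((measure_union_le _ _).trans (add_le_add hA2 hB2))).trans (le_of_eq ?_)
  rw [← ENNReal.ofReal_add (by positivity) (by positivity),
    ← ENNReal.ofReal_add (by positivity) (by positivity)]
  congr 1
  ring

lemma mul_pos_of_sign {η x y : ℝ} (hη : 0 < η) (hx : η < |x|) (hy : η < |y|)
    (h : decide (0 < x) = decide (0 < y)) : 0 < x * y := by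
  have hx0 : x ≠ 0 := abs_pos.1 (hη.trans hx)
  have hy0 : y ≠ 0 := abs_pos.1 (hη.trans hy)
  rw [decide_eq_decide] at h
  rcases lt_or_gt_of_ne hx0 with h1 | h1
  · have : y < 0 := lt_of_le_of_ne (not_lt.1 fun g => absurd (h.2 g) (not_lt.2 h1.le)) hy0
    exact mul_pos_of_neg_of_neg h1 this
  · exact mul_pos h1 (h.1 h1)

theorem main (ε : ℝ) (hε : 0 < ε) : ∃ δ : ℝ, 0 < δ ∧
    ∀ S : Set (ℝ × ℝ), MeasurableSet S → 0 < volume S → volume S < ⊤ →
      ENNReal.ofReal ε * (volume S) ^ 2 ≤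
        volume {p : (ℝ × ℝ) × (ℝ × ℝ) | segment ℝ p.1 p.2 ⊆ S} →
      ∃ C : Set (ℝ × ℝ), Convex ℝ C ∧ Bornology.IsBounded C ∧
        ENNReal.ofReal δ * volume S ≤ volume C ∧ frontier C ⊆ S := by
  classical
  set τ : ℝ := (ε ^ 3 / 8) ^ 2 / 8000 with hτ
  have hτ0 : 0 < τ := by positivity
  refine ⟨τ ^ 2 / 8, by positivity, fun S hS h0 hfin hb => ?_⟩
  obtain ⟨E, hE, hEseg, hEm⟩ := exists_borel_seg S hS hfin
  set V := (volume S).toReal with hVd
  have hV : 0 < V := toReal_pos h0.ne' hfin.ne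
  have hSV : volume S = ENNReal.ofReal V := (ofReal_toReal hfin.ne).symm
  have hVV : ENNReal.ofReal V⁻¹ * ENNReal.ofReal V = 1 := by
    rw [← ENNReal.ofReal_mul (by positivity), inv_mul_cancel₀ hV.ne']; simp
  let ν : Measure (ℝ × ℝ) := ENNReal.ofReal V⁻¹ • volume.restrict S
  have hν : ∀ T, ν T = ENNReal.ofReal V⁻¹ * (volume.restrict S) T := fun T => rfl
  have : IsProbabilityMeasure ν := ⟨by rw [hν, Measure.restrict_apply_univ, hSV, hVV]⟩
  have : IsFiniteMeasure (volume.restrict S) := isFiniteMeasure_restrict.2 hfin.ne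
  have hεE : ENNReal.ofReal ε ≤ ν.prod ν E := by
    have e : ν.prod ν E = ENNReal.ofReal V⁻¹ * (ENNReal.ofReal V⁻¹ *
        ((volume.restrict S).prod (volume.restrict S)) E) := by
      simp only [ν]
      rw [Measure.prod_smul_left, Measure.prod_smul_right]
      rfl
    rw [e]
    calc ENNReal.ofReal ε = (ENNReal.ofReal V⁻¹ * ENNReal.ofReal V) *
          (ENNReal.ofReal V⁻¹ * ENNReal.ofReal V) * ENNReal.ofReal ε := by rw [hVV]; simp
      _ = ENNReal.ofReal V⁻¹ * (ENNReal.ofReal V⁻¹ * (ENNReal.ofReal ε * (volume S) ^ 2)) := by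
          rw [hSV]; ring
      _ ≤ _ := by
          have := hb.trans hEm
          gcongr
  set η := τ ^ 2 * V with hη
  have hη0 : 0 < η := by positivity
  let Bad : Set ((ℝ × ℝ) × (ℝ × ℝ) × (ℝ × ℝ)) := {t | |D t.1 t.2.1 t.2.2| ≤ η}
  have hBad : MeasurableSet Bad := measurableSet_le (by unfold D; fun_prop) measurable_const
  have hg : ν.prod (ν.prod ν) Bad ≤ ENNReal.ofReal ((ε ^ 3 / 8) ^ 2 / 1000) := by
    refine (bad_bound hS V hV hSV ν hν τ hτ0).trans (le_of_eq ?_)
    congr 1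
    rw [hτ]; ring
  obtain ⟨x1, x2, x3, y1, y2, ⟨e11, e21, e31⟩, ⟨e12, e22, e32⟩, ⟨b121, b131, b231⟩,
      ⟨b122, b132, b232⟩, ⟨c1, c2, c3⟩, hcls⟩ :=
    select ν E hE Bad hBad (fun X y => (decide (0 < D X.1 X.2.1 y), decide (0 < D X.1 X.2.2 y),
      decide (0 < D X.2.1 X.2.2 y))) ε hε hεE hg
  simp only [Bad, mem_ofPred_eq, not_le] at b121 b131 b231 b122 b132 b232 c1 c2 c3
  simp only [Prod.mk.injEq] at hcls
  obtain ⟨s12, s13, s23⟩ := hcls
  have p12 := mul_pos_of_sign hη0 b121 b122 s12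
  have p13 := mul_pos_of_sign hη0 b131 b132 s13
  have p23 := mul_pos_of_sign hη0 b231 b232 s23
  have htri : ∃ u v w, η / 2 < |D u v w| ∧ segment ℝ u v ⊆ S ∧ segment ℝ v w ⊆ S ∧
      segment ℝ w u ⊆ S := by
    by_cases h12 : decide (0 < D x1 y1 y2) = decide (0 < D x2 y1 y2)
    · exact quad S η x1 x2 y1 y2 (hEseg _ e11) (hEseg _ e12) (hEseg _ e21) (hEseg _ e22)
        b121 b122 c1 p12 (mul_pos_of_sign hη0 c1 c2 h12)
    by_cases h13 : decide (0 < D x1 y1 y2) = decide (0 < D x3 y1 y2)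
    · exact quad S η x1 x3 y1 y2 (hEseg _ e11) (hEseg _ e12) (hEseg _ e31) (hEseg _ e32)
        b131 b132 c1 p13 (mul_pos_of_sign hη0 c1 c3 h13)
    have h23 : decide (0 < D x2 y1 y2) = decide (0 < D x3 y1 y2) := by
      revert h12 h13
      generalize decide (0 < D x1 y1 y2) = a
      generalize decide (0 < D x2 y1 y2) = b
      generalize decide (0 < D x3 y1 y2) = c
      revert a b c
      decide
    exact quad S η x2 x3 y1 y2 (hEseg _ e21) (hEseg _ e22) (hEseg _ e31) (hEseg _ e32)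
      b231 b232 c2 p23 (mul_pos_of_sign hη0 c2 c3 h23)
  obtain ⟨u, v, w, hD, s1, s2, s3⟩ := htri
  obtain ⟨C, hC1, hC2, hC3, hC4⟩ := triangle u v w (abs_pos.1 (lt_trans (by positivity) hD))
  refine ⟨C, hC1, hC2, le_trans ?_ hC3, hC4.trans (union_subset (union_subset s1 s2) s3)⟩
  rw [hSV, ← ENNReal.ofReal_mul (by positivity)]
  apply ENNReal.ofReal_le_ofReal
  rw [hη] at hD
  linarith

end Pool.Agent.H248Z.Beer
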