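import Mathlib

namespace Pool.Agent.H248Z.Bpb

open Filter Topology Metric

/-- The Bishop-Phelps-Bollobas property of the pair (X, Y). -/
def BPBp (𝕜 X Y : Type*) [RCLike 𝕜] [NormedAddCommGroup X] [NormedSpace 𝕜 X]
    [NormedAddCommGroup Y] [NormedSpace 𝕜 Y] : Prop :=
  ∀ ε : ℝ, 0 < ε → ε < 1 → ∃ η : ℝ, 0 < η ∧
    ∀ (T : X →L[𝕜] Y) (x₀ : X), ‖T‖ = 1 → ‖x₀‖ = 1 → 1 - η < ‖T x₀‖ →
      ∃ (S : X →L[𝕜] Y) (u₀ : X),
        ‖S‖ = 1 ∧ ‖u₀‖ = 1 ∧ ‖S u₀‖ = 1 ∧ ‖x₀ - u₀‖ < ε ∧ ‖S - T‖ < ε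

variable {𝕜 : Type*} [RCLike 𝕜] {X : Type*} [NormedAddCommGroup X] [NormedSpace 𝕜 X]

/-- Local perturbation property at a point of the sphere. -/
def Loc (𝕜 : Type*) [RCLike 𝕜] {X : Type*} [NormedAddCommGroup X] [NormedSpace 𝕜 X]
    (x₀ : X) : Prop :=
  ∀ ε : ℝ, 0 < ε → ∃ (S : X →L[𝕜] X) (w : X) (θ : ℝ), θ < 1 ∧ ‖S - 1‖ ≤ ε ∧ S w = x₀ ∧
    ∀ v : X, ‖v‖ ≤ 1 → (∀ l : 𝕜, ‖l‖ = 1 → ε ≤ ‖v - l • x₀‖) → ‖S v‖ * ‖w‖ ≤ θ

theorem opNorm_le_of_unit {Y : Type*} [NormedAddCommGroup Y] [NormedSpace 𝕜 Y]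
    (T : X →L[𝕜] Y) (C : ℝ) (hC : 0 ≤ C) (h : ∀ v, ‖v‖ ≤ 1 → ‖T v‖ ≤ C) : ‖T‖ ≤ C := by
  refine T.opNorm_le_bound hC fun v => ?_
  by_cases hv : v = 0
  · simp [hv]
  have hn : 0 < ‖v‖ := norm_pos_iff.mpr hv
  have h1 := h (((‖v‖⁻¹ : ℝ) : 𝕜) • v) (by
    rw [norm_smul, RCLike.norm_ofReal, abs_of_pos (inv_pos.mpr hn), inv_mul_cancel₀ hn.ne'])
  rw [map_smul, norm_smul, RCLike.norm_ofReal, abs_of_pos (inv_pos.mpr hn)] at h1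
  rw [inv_mul_le_iff₀ hn] at h1
  linarith

theorem exists_attain [FiniteDimensional 𝕜 X] {Y : Type*} [NormedAddCommGroup Y]
    [NormedSpace 𝕜 Y] (T : X →L[𝕜] Y) : ∃ v, ‖v‖ ≤ 1 ∧ ‖T v‖ = ‖T‖ := by
  have : ProperSpace X := FiniteDimensional.proper_rclike 𝕜 X
  obtain ⟨v, hv, hmax⟩ := (isCompact_closedBall (0 : X) 1).exists_isMaxOn
    ⟨0, by simp⟩ (f := fun v => ‖T v‖) (by fun_prop)
  have hv1 : ‖v‖ ≤ 1 := by simpa using hv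
  refine ⟨v, hv1, le_antisymm ?_ ?_⟩
  · calc ‖T v‖ ≤ ‖T‖ * ‖v‖ := T.le_opNorm v
      _ ≤ ‖T‖ := mul_le_of_le_one_right (norm_nonneg _) hv1
  · exact opNorm_le_of_unit T _ (norm_nonneg _) fun u hu => hmax (by simpa using hu)

theorem bpb_of_loc [FiniteDimensional 𝕜 X] (h : ∀ x₀ : X, ‖x₀‖ = 1 → Loc 𝕜 x₀)
    (Y : Type*) [NormedAddCommGroup Y] [NormedSpace 𝕜 Y] : BPBp 𝕜 X Y := by
  have : ProperSpace X := FiniteDimensional.proper_rclike 𝕜 X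
  intro ε hε hε1
  have key : ∀ᶠ η in 𝓝 (0 : ℝ), ∀ x ∈ sphere (0 : X) 1,
      ∀ (T : X →L[𝕜] Y), ‖T‖ = 1 → 1 - η < ‖T x‖ →
      ∃ (S : X →L[𝕜] Y) (u₀ : X),
        ‖S‖ = 1 ∧ ‖u₀‖ = 1 ∧ ‖S u₀‖ = 1 ∧ ‖x - u₀‖ < ε ∧ ‖S - T‖ < ε := by
    refine (isCompact_sphere (0 : X) 1).eventually_forall_of_forall_eventually ?_
    intro x₀ hx₀
    have hx₀1 : ‖x₀‖ = 1 := by simpa using hx₀
    obtain ⟨S, w, θ, hθ, hS, hw, hfar⟩ := h x₀ hx₀1 (ε / 3) (by positivity)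
    have e1 : ∀ᶠ z : ℝ × X in 𝓝 (0, x₀), z.1 + ‖z.2 - x₀‖ < 1 - θ := by
      have : Continuous fun z : ℝ × X => z.1 + ‖z.2 - x₀‖ := by fun_prop
      exact (this.tendsto (0, x₀)).eventually_lt_const (by simp; linarith)
    have e2 : ∀ᶠ z : ℝ × X in 𝓝 (0, x₀), ‖z.2 - x₀‖ < ε / 3 := by
      have : Continuous fun z : ℝ × X => ‖z.2 - x₀‖ := by fun_prop
      exact (this.tendsto (0, x₀)).eventually_lt_const (by simp; positivity)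
    filter_upwards [e1, e2] with z hz1 hz2 T hT hTx
    have hTx₀ : θ < ‖T x₀‖ := by
      have h1 : ‖T z.2‖ ≤ ‖T x₀‖ + ‖T (z.2 - x₀)‖ := by
        rw [map_sub]; exact norm_le_insert' _ _
      have h2 : ‖T (z.2 - x₀)‖ ≤ ‖z.2 - x₀‖ := by
        simpa [hT] using T.le_opNorm (z.2 - x₀)
      linarith
    set S₀ : X →L[𝕜] Y := T.comp S with hS₀
    obtain ⟨v, hv, hmax⟩ := exists_attain S₀
    have hd : ‖S₀ - T‖ ≤ ε / 3 := by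
      have : S₀ - T = T.comp (S - 1) := by
        ext u; simp [hS₀]
      rw [this]
      calc _ ≤ ‖T‖ * ‖S - 1‖ := T.opNorm_comp_le _
        _ ≤ ε / 3 := by rw [hT, one_mul]; exact hS
    have hμ : |‖S₀‖ - 1| ≤ ε / 3 := by
      rw [← hT]; exact (abs_norm_sub_norm_le _ _).trans hd
    have hμpos : 0 < ‖S₀‖ := by
      have := (abs_le.mp hμ).1
      linarith
    have hnear : ∃ l : 𝕜, ‖l‖ = 1 ∧ ‖v - l • x₀‖ < ε / 3 := by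
      by_contra hcon
      push Not at hcon
      have h1 := hfar v hv hcon
      have h2 : ‖T x₀‖ ≤ ‖S₀‖ * ‖w‖ := by
        have := S₀.le_opNorm w
        simpa [hS₀, hw] using this
      have h3 : ‖S₀ v‖ ≤ ‖S v‖ := by
        simpa [hS₀, hT] using T.le_opNorm (S v)
      have h4 : ‖S₀‖ * ‖w‖ ≤ ‖S v‖ * ‖w‖ :=
        mul_le_mul_of_nonneg_right (hmax ▸ h3) (norm_nonneg _)
      linarith
    obtain ⟨l, hl, hlv⟩ := hnear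
    have hl0 : l ≠ 0 := by rintro rfl; simp at hl
    have hv1 : ‖v‖ = 1 := by
      refine le_antisymm hv ?_
      have := S₀.le_opNorm v
      rw [hmax] at this
      nlinarith
    refine ⟨((‖S₀‖⁻¹ : ℝ) : 𝕜) • S₀, l⁻¹ • v, ?_, ?_, ?_, ?_, ?_⟩
    · rw [norm_smul, RCLike.norm_ofReal, abs_of_pos (inv_pos.mpr hμpos),
        inv_mul_cancel₀ hμpos.ne']
    · rw [norm_smul, norm_inv, hl, hv1]; simp
    · rw [smul_apply, map_smul, norm_smul, norm_smul, norm_inv, hl, hmax,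
        RCLike.norm_ofReal, abs_of_pos (inv_pos.mpr hμpos)]
      field_simp
    · have h1 : ‖x₀ - l⁻¹ • v‖ = ‖v - l • x₀‖ := by
        have : v - l • x₀ = (-l) • (x₀ - l⁻¹ • v) := by
          rw [smul_sub, smul_smul, neg_mul, mul_inv_cancel₀ hl0]; simp; abel
        rw [this, norm_smul, norm_neg, hl, one_mul]
      calc ‖z.2 - l⁻¹ • v‖ ≤ ‖z.2 - x₀‖ + ‖x₀ - l⁻¹ • v‖ := norm_sub_le_norm_sub_add_norm_sub _ _ _
        _ < ε := by rw [h1]; linarith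
    · have h1 : ‖((‖S₀‖⁻¹ : ℝ) : 𝕜) • S₀ - S₀‖ = |‖S₀‖ - 1| := by
        have : ((‖S₀‖⁻¹ : ℝ) : 𝕜) • S₀ - S₀ = (((‖S₀‖⁻¹ - 1 : ℝ)) : 𝕜) • S₀ := by
          rw [RCLike.ofReal_sub, sub_smul]; simp
        rw [this, norm_smul, RCLike.norm_ofReal, ← abs_of_pos hμpos, ← abs_mul, abs_of_pos hμpos,
          abs_sub_comm]
        congr 1
        field_simp
      calc _ ≤ ‖((‖S₀‖⁻¹ : ℝ) : 𝕜) • S₀ - S₀‖ + ‖S₀ - T‖ := norm_sub_le_norm_sub_add_norm_sub _ _ _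
        _ < ε := by rw [h1]; linarith
  obtain ⟨δ, hδ, hδ'⟩ := Metric.eventually_nhds_iff.mp key
  refine ⟨δ / 2, by positivity, fun T x₀ hT hx₀ hTx => ?_⟩
  exact hδ' (y := δ / 2) (by rw [Real.dist_eq, sub_zero, abs_of_pos (by positivity)]; linarith)
    x₀ (by simpa using hx₀) T hT hTx

/-- a positive lower bound of a continuous function on the far set -/
theorem far_bound [FiniteDimensional 𝕜 X] (x₀ : X) (ε : ℝ) (hε : 0 < ε) (G : X → ℝ)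
    (hG : Continuous G) (hG0 : ∀ v, ‖v‖ ≤ 1 → G v ≤ 0 → ∃ l : 𝕜, ‖l‖ = 1 ∧ v = l • x₀) :
    ∃ τ : ℝ, 0 < τ ∧ τ ≤ 1 ∧ ∀ v : X, ‖v‖ ≤ 1 → (∀ l : 𝕜, ‖l‖ = 1 → ε ≤ ‖v - l • x₀‖) →
      τ ≤ G v := by
  have : ProperSpace X := FiniteDimensional.proper_rclike 𝕜 X
  set C : Set X := closedBall 0 1 ∩ ⋂ l : {l : 𝕜 // ‖l‖ = 1}, {v | ε ≤ ‖v - l.1 • x₀‖} with hC
  have hCc : IsCompact C := by
    refine (isCompact_closedBall 0 1).inter_right (isClosed_iInter fun l => ?_)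
    exact isClosed_le continuous_const (by fun_prop)
  have hmem : ∀ v, v ∈ C ↔ ‖v‖ ≤ 1 ∧ ∀ l : 𝕜, ‖l‖ = 1 → ε ≤ ‖v - l • x₀‖ := by
    intro v; simp [hC]
  obtain ⟨τ, hτ, hτ'⟩ := hCc.exists_forall_le' (f := G) (a := 0) hG.continuousOn (by
    intro v hv
    by_contra hcon
    obtain ⟨l, hl, hv'⟩ := hG0 v ((hmem v).mp hv).1 (not_lt.mp hcon)
    have := ((hmem v).mp hv).2 l hl
    rw [← hv'] at this
    simp at this
    linarith)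
  exact ⟨min τ 1, lt_min hτ one_pos, min_le_right _ _, fun v hv hf =>
    (min_le_left _ _).trans (hτ' v ((hmem v).mpr ⟨hv, hf⟩))⟩

theorem loc_of_exposed [FiniteDimensional 𝕜 X] {H : Type*} [NormedAddCommGroup H]
    [InnerProductSpace 𝕜 H] (L : X →ₗ[𝕜] H) (hinj : Function.Injective L)
    (hL : ∀ v, ‖L v‖ ≤ ‖v‖) (x₀ : X) (hx₀ : ‖x₀‖ = 1) (hLx : ‖L x₀‖ = 1) : Loc 𝕜 x₀ := by
  intro ε hε
  set f : X →L[𝕜] 𝕜 := LinearMap.toContinuousLinearMap ((innerSL 𝕜 (L x₀)).toLinearMap.comp L)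
    with hf
  have hfv : ∀ v, f v = inner 𝕜 (L x₀) (L v) := fun v => by simp [hf]
  have hfle : ∀ v, ‖f v‖ ≤ ‖v‖ := fun v => by
    rw [hfv]
    refine (norm_inner_le_norm _ _).trans ?_
    rw [hLx, one_mul]; exact hL v
  have hfx : f x₀ = 1 := by
    rw [hfv, inner_self_eq_norm_sq_to_K, hLx]; simp
  obtain ⟨τ, hτ, hτ1, hfar⟩ := far_bound (𝕜 := 𝕜) x₀ ε hε (fun v => 1 - ‖f v‖) (by fun_prop) (by
    intro v hv hle
    have h1 : ‖f v‖ = 1 := le_antisymm ((hfle v).trans hv) (by linarith)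
    refine ⟨f v, h1, hinj ?_⟩
    rw [map_smul]
    have h2 : ‖L v - f v • L x₀‖ ^ 2 = ‖L v‖ ^ 2 - 1 := by
      rw [norm_sub_rev, @norm_sub_sq 𝕜, inner_smul_left, ← hfv, norm_smul, h1, hLx,
        RCLike.conj_mul, h1]
      simp; ring
    have h3 : ‖L v‖ ^ 2 ≤ 1 := by
      have := (hL v).trans hv
      nlinarith [norm_nonneg (L v)]
    have h4 : ‖L v - f v • L x₀‖ = 0 := by nlinarith [norm_nonneg (L v - f v • L x₀)]
    exact sub_eq_zero.mp (norm_eq_zero.mp h4))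
  set σ : ℝ := min (ε / 2) 1 with hσ
  have hσ0 : 0 < σ := lt_min (by positivity) one_pos
  have hσ1 : σ ≤ 1 := min_le_right _ _
  have hσ2 : σ ≤ ε / 2 := min_le_left _ _
  refine ⟨((1 - σ : ℝ) : 𝕜) • (1 : X →L[𝕜] X) + (σ : 𝕜) • f.smulRight x₀, x₀, 1 - σ * τ,
    by nlinarith, ?_, ?_, ?_⟩
  · refine opNorm_le_of_unit _ _ hε.le fun v hv => ?_
    have : (((1 - σ : ℝ) : 𝕜) • (1 : X →L[𝕜] X) + (σ : 𝕜) • f.smulRight x₀ - 1) v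
        = (σ : 𝕜) • (f v • x₀ - v) := by
      simp [smul_sub, sub_smul]; abel
    rw [this, norm_smul, RCLike.norm_ofReal, abs_of_pos hσ0]
    have h1 : ‖f v • x₀ - v‖ ≤ 2 := by
      refine (norm_sub_le _ _).trans ?_
      rw [norm_smul, hx₀]
      linarith [hfle v]
    nlinarith
  · simp [hfx, sub_smul]
  · intro v hv hf'
    have h1 := hfar v hv hf'
    rw [hx₀, mul_one]
    have : (((1 - σ : ℝ) : 𝕜) • (1 : X →L[𝕜] X) + (σ : 𝕜) • f.smulRight x₀) v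
        = ((1 - σ : ℝ) : 𝕜) • v + (σ : 𝕜) • (f v • x₀) := by
      simp
    rw [this]
    refine (norm_add_le _ _).trans ?_
    rw [norm_smul, norm_smul, norm_smul, RCLike.norm_ofReal, RCLike.norm_ofReal, abs_of_pos hσ0,
      abs_of_nonneg (by linarith : 0 ≤ 1 - σ), hx₀]
    nlinarith

theorem Loc.smul {x₀ : X} (h : Loc 𝕜 x₀) (m : 𝕜) (hm : ‖m‖ = 1) : Loc 𝕜 (m • x₀) := by
  intro ε hε
  obtain ⟨S, w, θ, hθ, hS, hw, hfar⟩ := h ε hε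
  have hm0 : m ≠ 0 := by rintro rfl; simp at hm
  refine ⟨S, m • w, θ, hθ, hS, by rw [map_smul, hw], fun v hv hf => ?_⟩
  rw [norm_smul, hm, one_mul]
  refine hfar v hv fun l hl => ?_
  have := hf (l * m⁻¹) (by rw [norm_mul, norm_inv, hl, hm]; simp)
  rwa [smul_smul, inv_mul_cancel_right₀ hm0] at this

end Pool.Agent.H248Z.Bpb
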