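import Mathlib

namespace Pool.Agent.H248Z.Bpb

theorem pow4_up {s β : ℝ} (hs : 0 ≤ s) (hs1 : s ≤ 1) (hβ : 0 ≤ β) (hβ1 : β ≤ 1) :
    (s + β) ^ 4 ≤ s ^ 4 + β ^ 2 + 12 * s * β ^ 2 + 2 * s ^ 5 - β ^ 2 * (1 - β ^ 2) := by
  have h1 : 4 * s ^ 3 * β ≤ 2 * s * β ^ 2 + 2 * s ^ 5 := by
    have := mul_nonneg hs (sq_nonneg (β - s ^ 2))
    nlinarith
  have h0 : 0 ≤ s * β ^ 2 := by positivity
  have h2 : s ^ 2 * β ^ 2 ≤ s * β ^ 2 := by nlinarith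
  have h3 : s * β ^ 3 ≤ s * β ^ 2 := by nlinarith
  nlinarith

theorem pow6_up {s β : ℝ} (hs : 0 ≤ s) (hs1 : s ≤ 1) (hβ : 0 ≤ β) (hβ1 : β ≤ 1) :
    (s + β) ^ 6 ≤ β ^ 2 + 56 * s * β ^ 2 + 7 * s ^ 5 := by
  have h0 : 0 ≤ s * β ^ 2 := by positivity
  have key : ∀ i j : ℕ, s ^ i * β ^ j ≤ 1 := fun i j =>
    mul_le_one₀ (pow_le_one₀ hs hs1) (by positivity) (pow_le_one₀ hβ hβ1)
  have h1 : s * β ^ 5 ≤ s * β ^ 2 := by have := mul_le_of_le_one_right h0 (key 0 3); nlinarith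
  have h2 : s ^ 2 * β ^ 4 ≤ s * β ^ 2 := by have := mul_le_of_le_one_right h0 (key 1 2); nlinarith
  have h3 : s ^ 3 * β ^ 3 ≤ s * β ^ 2 := by have := mul_le_of_le_one_right h0 (key 2 1); nlinarith
  have h4 : s ^ 4 * β ^ 2 ≤ s * β ^ 2 := by have := mul_le_of_le_one_right h0 (key 3 0); nlinarith
  have h5' : 0 ≤ s ^ 5 := by positivity
  have h5 : s ^ 5 * β ≤ s ^ 5 := mul_le_of_le_one_right h5' hβ1
  have h6 : s ^ 5 * s ≤ s ^ 5 := mul_le_of_le_one_right h5' hs1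
  have h7 : β ^ 2 * β ^ 4 ≤ β ^ 2 := mul_le_of_le_one_right (by positivity) (pow_le_one₀ hβ hβ1)
  nlinarith

theorem pow4_low {s c α β b : ℝ} (hs : 0 ≤ s) (hc : 0 ≤ c) (hcs : c ^ 2 + s ^ 2 = 1)
    (hα : 0 ≤ α) (hβ : 0 ≤ β) (hαβ : α ^ 2 + β ^ 2 = 1) (hb : |α * s - β * c| ≤ b) :
    s ^ 4 + β ^ 4 - 10 * s * β ^ 2 - 2 * s ^ 5 ≤ b ^ 4 := by
  have hs1 : s ≤ 1 := by nlinarith
  have hc1 : c ≤ 1 := by nlinarith
  have hα1 : α ≤ 1 := by nlinarith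
  have hβ1 : β ≤ 1 := by nlinarith
  have h4 : (α * s - β * c) ^ 4 ≤ b ^ 4 := by
    have : (α * s - β * c) ^ 4 = |α * s - β * c| ^ 4 := (Even.pow_abs (by norm_num) _).symm
    rw [this]
    exact pow_le_pow_left₀ (abs_nonneg _) hb 4
  have h0 : 0 ≤ s * β ^ 2 := by positivity
  have e1 : s ^ 4 - 2 * s * β ^ 2 ≤ (α * s) ^ 4 := by
    have ha : α ^ 2 = 1 - β ^ 2 := by linarith
    have : (α * s) ^ 4 = (1 - β ^ 2) ^ 2 * s ^ 4 := by rw [← ha]; ring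
    rw [this]
    have h3 : s * β ^ 2 * s ^ 3 ≤ s * β ^ 2 := mul_le_of_le_one_right h0 (pow_le_one₀ hs hs1)
    have : 0 ≤ β ^ 4 * s ^ 4 := by positivity
    nlinarith
  have e2 : β ^ 4 - 2 * s * β ^ 2 ≤ (β * c) ^ 4 := by
    have ha : c ^ 2 = 1 - s ^ 2 := by linarith
    have : (β * c) ^ 4 = (1 - s ^ 2) ^ 2 * β ^ 4 := by rw [← ha]; ring
    rw [this]
    have h3 : s * β ^ 2 * (s * β ^ 2) ≤ s * β ^ 2 := mul_le_of_le_one_right h0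
      (mul_le_one₀ hs1 (by positivity) (pow_le_one₀ hβ hβ1))
    have : 0 ≤ β ^ 4 * s ^ 4 := by positivity
    nlinarith
  have e3 : 4 * ((α * s) ^ 3 * (β * c)) ≤ 2 * s * β ^ 2 + 2 * s ^ 5 := by
    have h1 : s ^ 3 * β * (α ^ 3 * c) ≤ s ^ 3 * β := mul_le_of_le_one_right (by positivity)
      (mul_le_one₀ (pow_le_one₀ hα hα1) hc hc1)
    have := mul_nonneg hs (sq_nonneg (β - s ^ 2))
    nlinarith
  have e4 : (α * s) * (β * c) ^ 3 ≤ s * β ^ 2 := by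
    have h1 : s * β ^ 2 * (α * (β * c ^ 3)) ≤ s * β ^ 2 := mul_le_of_le_one_right h0
      (mul_le_one₀ hα1 (by positivity) (mul_le_one₀ hβ1 (by positivity) (pow_le_one₀ hc hc1)))
    nlinarith
  have e5 : 0 ≤ (α * s) ^ 2 * (β * c) ^ 2 := by positivity
  nlinarith

theorem pow6_low {s β b : ℝ} (hs : 0 ≤ s) (hβ : 0 ≤ β) (hβ1 : β ≤ 1) (hb0 : 0 ≤ b)
    (hb : β - 2 * s ≤ b) : β ^ 6 ≤ b ^ 6 + 12 * s * β ^ 2 := by
  have h0 : 0 ≤ s * β ^ 2 := by positivity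
  by_cases h : β ≤ b
  · have := pow_le_pow_left₀ hβ h 6
    linarith
  push Not at h
  have hb1 : b ≤ 1 := by linarith
  have key : ∀ i j : ℕ, i + j = 5 → β ^ i * b ^ j ≤ β ^ 2 := by
    intro i j hij
    calc β ^ i * b ^ j ≤ β ^ i * β ^ j :=
          mul_le_mul_of_nonneg_left (pow_le_pow_left₀ hb0 h.le j) (by positivity)
      _ = β ^ 2 * β ^ 3 := by rw [← pow_add, hij]; ring
      _ ≤ β ^ 2 := mul_le_of_le_one_right (by positivity) (pow_le_one₀ hβ hβ1)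
  have hsum : β ^ 5 * b ^ 0 + β ^ 4 * b ^ 1 + β ^ 3 * b ^ 2 + β ^ 2 * b ^ 3 + β ^ 1 * b ^ 4
      + β ^ 0 * b ^ 5 ≤ 6 * β ^ 2 := by
    linarith [key 5 0 rfl, key 4 1 rfl, key 3 2 rfl, key 2 3 rfl, key 1 4 rfl, key 0 5 rfl]
  have hpos : 0 ≤ β ^ 5 * b ^ 0 + β ^ 4 * b ^ 1 + β ^ 3 * b ^ 2 + β ^ 2 * b ^ 3 + β ^ 1 * b ^ 4
      + β ^ 0 * b ^ 5 := by positivity
  have := mul_le_mul (show β - b ≤ 2 * s by linarith) hsum hpos (by positivity)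
  nlinarith

theorem estW {s γ δ α β b X : ℝ} (hs : 0 ≤ s) (hδ : 0 ≤ δ) (hγ : δ + γ = 3 / 4) (hsγ : 28 * s ≤ γ)
    (hβ : 0 ≤ β) (hαβ : α ^ 2 + β ^ 2 = 1) (hb0 : 0 ≤ b) (hb : b ≤ s + β) (hX : X ^ 2 ≤ 1) :
    (1 + s ^ 4 * δ) * ((1 - s ^ 4 * δ) ^ 2 * α ^ 2 + b ^ 4 * δ + b ^ 6 * X ^ 2 / 4)
      ≤ 1 + 9 * s ^ 5 := by
  have hs1 : s ≤ 1 := by linarith
  have hβ1 : β ≤ 1 := by nlinarith
  have hδ1 : δ ≤ 1 := by linarith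
  have h0 : 0 ≤ s * β ^ 2 := by positivity
  have h5 : 0 ≤ s ^ 5 := by positivity
  have p4 : b ^ 4 ≤ s ^ 4 + β ^ 2 + 12 * s * β ^ 2 + 2 * s ^ 5 := by
    have h1 := (pow_le_pow_left₀ hb0 hb 4).trans (pow4_up hs hs1 hβ hβ1)
    have : 0 ≤ β ^ 2 * (1 - β ^ 2) := mul_nonneg (by positivity) (by nlinarith)
    linarith
  have p6 := (pow_le_pow_left₀ hb0 hb 6).trans (pow6_up hs hs1 hβ hβ1)
  set m := s ^ 4 * δ with hm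
  have hm0 : 0 ≤ m := by positivity
  have hm4 : m ≤ s ^ 4 := mul_le_of_le_one_right (by positivity) hδ1
  have hs4 : s ^ 4 ≤ s := by
    have := mul_le_of_le_one_right hs (pow_le_one₀ hs hs1 (n := 3)); nlinarith
  have q4 : b ^ 4 * δ ≤ m + β ^ 2 * δ + 12 * s * β ^ 2 + 2 * s ^ 5 := by
    have h1 := mul_le_mul_of_nonneg_right p4 hδ
    have h2 := mul_le_of_le_one_right h0 hδ1
    have h3 := mul_le_of_le_one_right h5 hδ1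
    linarith
  have q6 : b ^ 6 * X ^ 2 / 4 ≤ β ^ 2 / 4 + 14 * s * β ^ 2 + 2 * s ^ 5 := by
    have h1 : b ^ 6 * X ^ 2 ≤ b ^ 6 := mul_le_of_le_one_right (by positivity) hX
    linarith
  have q1 : (1 - m) ^ 2 * α ^ 2 ≤ (1 - m) ^ 2 - β ^ 2 + 2 * s * β ^ 2 := by
    have ha : α ^ 2 = 1 - β ^ 2 := by linarith
    rw [ha]
    have : (1 - 2 * s) * β ^ 2 ≤ (1 - m) ^ 2 * β ^ 2 :=
      mul_le_mul_of_nonneg_right (by nlinarith) (by positivity)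
    linarith
  have q2 : (28 * s - γ) * β ^ 2 ≤ 0 := mul_nonpos_of_nonpos_of_nonneg (by linarith) (by positivity)
  have tot : (1 - m) ^ 2 * α ^ 2 + b ^ 4 * δ + b ^ 6 * X ^ 2 / 4 ≤ (1 - m) ^ 2 + m + 4 * s ^ 5 := by
    have : δ = 3 / 4 - γ := by linarith
    rw [this] at q4 ⊢
    linarith
  have fin := mul_le_mul_of_nonneg_left tot (show 0 ≤ 1 + m by linarith)
  have m3 : m ^ 3 ≤ s ^ 5 := by
    calc m ^ 3 ≤ (s ^ 4) ^ 3 := pow_le_pow_left₀ hm0 hm4 3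
      _ = s ^ 5 * s ^ 7 := by ring
      _ ≤ s ^ 5 := mul_le_of_le_one_right h5 (pow_le_one₀ hs hs1)
  have m5 : m * s ^ 5 ≤ s ^ 5 := mul_le_of_le_one_left h5 (by linarith)
  linarith

theorem estV {s σ τ γ r α β b A E D X X' : ℝ} (hs : 0 ≤ s) (hσ : 0 ≤ σ) (hσ1 : σ ≤ 1)
    (hτ : 0 ≤ τ) (hτ1 : τ ≤ 1) (hγ0 : 0 ≤ γ) (hγ : r ^ 2 + γ = 3 / 4) (hr : 0 ≤ r)
    (hsγ : 68 * s ≤ σ * γ) (hsτ : 16 * s ≤ σ * τ)
    (hβ : 0 ≤ β) (hαβ : α ^ 2 + β ^ 2 = 1) (hA : 0 ≤ A) (hE0 : 0 ≤ E) (hD : 0 ≤ D) (hD1 : D ≤ 1)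
    (hX : 0 ≤ X) (hX1 : X ≤ 1) (hX' : 0 ≤ X')
    (hE : E ≤ A + s ^ 4 * r * D) (hin : A ^ 2 + b ^ 4 * D ^ 2 + b ^ 6 * X ^ 2 / 4 ≤ 1)
    (h4 : s ^ 4 + β ^ 4 - 10 * s * β ^ 2 - 2 * s ^ 5 ≤ b ^ 4)
    (h6 : β ^ 6 ≤ b ^ 6 + 12 * s * β ^ 2) (hXX : X' ≤ X + 3 * s)
    (hfar : X' ^ 2 ≤ 1 + s ^ 4 * r ^ 2 - s ^ 4 * τ / 2) :
    (1 - σ) * (E ^ 2 + β ^ 4 * D ^ 2 + β ^ 6 * X' ^ 2 / 4)
      + σ * (X' ^ 2 * (α ^ 2 + β ^ 4 * r ^ 2 + β ^ 6 / 4))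
      ≤ 1 + s ^ 4 * r ^ 2 - σ * τ * s ^ 4 / 4 := by
  have hγ1 : γ ≤ 1 := by nlinarith
  have hs1 : s ≤ 1 := by nlinarith
  have hβ1 : β ≤ 1 := by nlinarith
  have hr1 : r ^ 2 ≤ 1 := by linarith
  have h0 : 0 ≤ s * β ^ 2 := by positivity
  have h5 : 0 ≤ s ^ 5 := by positivity
  have ht : 0 ≤ s ^ 4 := by positivity
  have ht1 : s ^ 4 ≤ 1 := pow_le_one₀ hs hs1
  set M := 1 + s ^ 4 * r ^ 2 with hM
  have hM1 : 1 ≤ M := by have : 0 ≤ s ^ 4 * r ^ 2 := by positivity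
                         linarith
  have hM2 : M ≤ 2 := by have := mul_le_one₀ ht1 (by positivity) hr1
                         linarith
  have hD2 : D ^ 2 ≤ 1 := pow_le_one₀ hD hD1
  have hX2 : X ^ 2 ≤ 1 := pow_le_one₀ hX hX1
  have e1 : E ^ 2 ≤ (A ^ 2 + s ^ 4 * D ^ 2) * M := by
    have h1 := pow_le_pow_left₀ hE0 hE 2
    have h2 := mul_nonneg ht (sq_nonneg (D - A * r))
    rw [hM]; linarith
  have hb6 : 0 ≤ b ^ 6 := by positivity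
  have e2 : A ^ 2 + s ^ 4 * D ^ 2 + β ^ 4 * D ^ 2 + b ^ 6 * X ^ 2 / 4
      ≤ 1 + 10 * s * β ^ 2 + 2 * s ^ 5 := by
    have h1 := mul_le_mul_of_nonneg_right h4 (sq_nonneg D)
    have h2 := mul_le_of_le_one_right h0 hD2
    have h3 := mul_le_of_le_one_right h5 hD2
    linarith
  have e3 : β ^ 6 * X' ^ 2 ≤ b ^ 6 * X ^ 2 + 27 * s * β ^ 2 := by
    have h1 : X' ^ 2 ≤ X ^ 2 + 15 * s := by
      have := pow_le_pow_left₀ hX' hXX 2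
      have := mul_le_of_le_one_right hs hX1
      have := mul_le_of_le_one_right hs hs1
      linarith
    have h2 := mul_le_mul_of_nonneg_left h1 (show 0 ≤ β ^ 6 by positivity)
    have h3 := mul_le_mul_of_nonneg_right h6 (sq_nonneg X)
    have h7 := mul_le_of_le_one_right h0 hX2
    have h8 := mul_le_of_le_one_right h0 (pow_le_one₀ hβ hβ1 (n := 4))
    linarith
  have e4 : E ^ 2 + β ^ 4 * D ^ 2 + β ^ 6 * X' ^ 2 / 4 ≤ M + 34 * s * β ^ 2 + 4 * s ^ 5 := by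
    have h1 := mul_le_mul_of_nonneg_right e2 (show 0 ≤ M by linarith)
    have h2 : β ^ 4 * D ^ 2 ≤ β ^ 4 * D ^ 2 * M := le_mul_of_one_le_right (by positivity) hM1
    have h3 : b ^ 6 * X ^ 2 ≤ b ^ 6 * X ^ 2 * M := le_mul_of_one_le_right (by positivity) hM1
    have h7 := mul_le_mul_of_nonneg_left hM2 h0
    have h8 := mul_le_mul_of_nonneg_left hM2 h5
    linarith
  have e5 : α ^ 2 + β ^ 4 * r ^ 2 + β ^ 6 / 4 ≤ 1 - γ * β ^ 2 := by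
    have h1 : β ^ 2 * β ^ 2 ≤ β ^ 2 := mul_le_of_le_one_right (by positivity) (pow_le_one₀ hβ hβ1)
    have h2 : β ^ 2 * β ^ 4 ≤ β ^ 2 := mul_le_of_le_one_right (by positivity) (pow_le_one₀ hβ hβ1)
    have h3 := mul_le_mul_of_nonneg_right h1 (sq_nonneg r)
    have : γ = 3 / 4 - r ^ 2 := by linarith
    rw [this]; linarith
  have hgb : γ * β ^ 2 ≤ 1 := mul_le_one₀ hγ1 (by positivity) (pow_le_one₀ hβ hβ1)
  have hgb0 : 0 ≤ γ * β ^ 2 := by positivity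
  have e6 : X' ^ 2 * (α ^ 2 + β ^ 4 * r ^ 2 + β ^ 6 / 4)
      ≤ M - s ^ 4 * τ / 2 - γ * β ^ 2 / 2 := by
    have h1 := mul_le_mul hfar e5 (by positivity) (by
      have := mul_le_one₀ ht1 hτ hτ1
      linarith)
    have h2 : s ^ 4 * τ ≤ 1 := mul_le_one₀ ht1 hτ hτ1
    have h3 := mul_le_mul_of_nonneg_left (show 1 / 2 ≤ M - s ^ 4 * τ / 2 by linarith) hgb0
    linarith
  have f1 := mul_le_mul_of_nonneg_left e4 (show 0 ≤ 1 - σ by linarith)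
  have f2 := mul_le_mul_of_nonneg_left e6 hσ
  have f3 := mul_le_mul_of_nonneg_right hsγ (sq_nonneg β)
  have f4 := mul_le_mul_of_nonneg_right hsτ ht
  have f5 := mul_nonneg hσ h0
  have f6 := mul_nonneg hσ h5
  linarith

end Pool.Agent.H248Z.Bpb
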