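import Pool.Agent.H248Z.BpbScal
import Pool.Agent.H248Z.BpbReal

namespace Pool.Agent.H248Z.Bpb

variable {𝕜 : Type*} [RCLike 𝕜]

/-- first coordinate of the perturbation -/
noncomputable def xp (c s : ℝ) (d₀ : 𝕜) (p : 𝕜 × 𝕜 × 𝕜) : 𝕜 :=
  (c * p.1 + s * p.2.1) + ((s ^ 4 : ℝ) : 𝕜) * (starRingEnd 𝕜) d₀ * p.2.2

/-- the perturbation of the identity -/
noncomputable def Smap (c s σ : ℝ) (d₀ : 𝕜) : (𝕜 × 𝕜 × 𝕜) →ₗ[𝕜] (𝕜 × 𝕜 × 𝕜) where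
  toFun p := (xp c s d₀ p, ((1 - σ : ℝ) : 𝕜) * (c * p.2.1 - s * p.1),
    ((1 - σ : ℝ) : 𝕜) * p.2.2 + σ * (xp c s d₀ p * d₀))
  map_add' u v := by
    ext <;> simp only [xp, Prod.fst_add, Prod.snd_add] <;> ring
  map_smul' t v := by
    ext <;> simp only [xp, Prod.smul_fst, Prod.smul_snd, smul_eq_mul, RingHom.id_apply] <;> ring

theorem Smap_apply (c s σ : ℝ) (d₀ : 𝕜) (p : 𝕜 × 𝕜 × 𝕜) : Smap c s σ d₀ p =
    (xp c s d₀ p, ((1 - σ : ℝ) : 𝕜) * (c * p.2.1 - s * p.1),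
    ((1 - σ : ℝ) : 𝕜) * p.2.2 + σ * (xp c s d₀ p * d₀)) := rfl

/-- the preimage of the base point -/
noncomputable def wp (c s : ℝ) (d₀ : 𝕜) : 𝕜 × 𝕜 × 𝕜 :=
  (((c * (1 - s ^ 4 * ‖d₀‖ ^ 2) : ℝ) : 𝕜), ((s * (1 - s ^ 4 * ‖d₀‖ ^ 2) : ℝ) : 𝕜), d₀)

theorem Smap_wp (c s σ : ℝ) (hcs : c ^ 2 + s ^ 2 = 1) (d₀ : 𝕜) :
    Smap c s σ d₀ (wp c s d₀) = (1, 0, d₀) := by
  have h1 : xp c s d₀ (wp c s d₀) = 1 := by
    simp only [xp, wp]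
    rw [mul_assoc _ _ d₀, RCLike.conj_mul]
    have hk : (c : 𝕜) ^ 2 + (s : 𝕜) ^ 2 = 1 := by exact_mod_cast hcs
    push_cast
    linear_combination (1 - (s : 𝕜) ^ 4 * (‖d₀‖ : 𝕜) ^ 2) * hk
  rw [Smap_apply, h1]
  simp only [wp]
  ext
  · rfl
  · push_cast; ring
  · push_cast; ring

theorem norm_real_mul (t : ℝ) (ht : 0 ≤ t) (z : 𝕜) : ‖(t : 𝕜) * z‖ = t * ‖z‖ := by
  rw [norm_mul, RCLike.norm_ofReal, abs_of_nonneg ht]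

theorem norm_mul_real (t : ℝ) (ht : 0 ≤ t) (z : 𝕜) : ‖z * (t : 𝕜)‖ = ‖z‖ * t := by
  rw [norm_mul, RCLike.norm_ofReal, abs_of_nonneg ht]

theorem geoW {c s γ : ℝ} (hs : 0 ≤ s) (hc : 0 ≤ c) (hcs : c ^ 2 + s ^ 2 = 1) (d₀ : 𝕜)
    (hγ : ‖d₀‖ ^ 2 + γ = 3 / 4) (hsγ : 28 * s ≤ γ) (a b : 𝕜) (hab : ‖a‖ ^ 2 + ‖b‖ ^ 2 = 1) :
    (1 + s ^ 4 * ‖d₀‖ ^ 2) * Q a b (wp c s d₀) ≤ 1 + 9 * s ^ 5 := by
  have hc1 : c ≤ 1 := by nlinarith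
  have hs1 : s ≤ 1 := by nlinarith
  have hrot := rot_norm b a c s hcs
  set α := ‖b * s + a * c‖ with hα
  set β := ‖b * c - a * s‖ with hβ
  have hαβ : α ^ 2 + β ^ 2 = 1 := by linarith
  have hα1 : α ≤ 1 := by nlinarith [norm_nonneg (b * s + a * c), sq_nonneg β]
  have hb : ‖b‖ ≤ s + β := by
    have hk : (c : 𝕜) ^ 2 + (s : 𝕜) ^ 2 = 1 := by exact_mod_cast hcs
    have : b = s * (b * s + a * c) + c * (b * c - a * s) := by linear_combination (-b) * hk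
    calc ‖b‖ = ‖s * (b * s + a * c) + c * (b * c - a * s)‖ := by rw [← this]
      _ ≤ s * α + c * β := by
        refine (norm_add_le _ _).trans ?_
        rw [norm_real_mul _ hs, norm_real_mul _ hc]
      _ ≤ s + β := add_le_add (mul_le_of_le_one_right hs hα1)
        (mul_le_of_le_one_left (norm_nonneg _) hc1)
  set m := s ^ 4 * ‖d₀‖ ^ 2 with hm
  have hm0 : 0 ≤ m := by positivity
  have hm1 : m ≤ 1 := mul_le_one₀ (pow_le_one₀ hs hs1) (by positivity) (by linarith)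
  have hX : (c * (1 - m)) ^ 2 ≤ 1 :=
    pow_le_one₀ (mul_nonneg hc (by linarith)) (mul_le_one₀ hc1 (by linarith) (by linarith))
  have h := estW hs (sq_nonneg ‖d₀‖) hγ hsγ (norm_nonneg _) hαβ (norm_nonneg b) hb hX
  have hQ : Q a b (wp c s d₀)
      = (1 - m) ^ 2 * α ^ 2 + ‖b‖ ^ 4 * ‖d₀‖ ^ 2 + ‖b‖ ^ 6 * (c * (1 - m)) ^ 2 / 4 := by
    simp only [Q, wp, ← hm]
    have : a * ((c * (1 - m) : ℝ) : 𝕜) + b * ((s * (1 - m) : ℝ) : 𝕜)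
        = ((1 - m : ℝ) : 𝕜) * (b * s + a * c) := by push_cast; ring
    rw [this, norm_real_mul _ (by linarith), RCLike.norm_ofReal, sq_abs, mul_pow]
  rw [hQ]; exact h

theorem xi_close {c s : ℝ} (hs : 0 ≤ s) (hc : 0 ≤ c) (hcs : c ^ 2 + s ^ 2 = 1) (x y : 𝕜)
    (hx : ‖x‖ ≤ 1) (hy : ‖y‖ ≤ 1) : ‖(c * x + s * y) - x‖ ≤ 2 * s := by
  have hc1 : c ≤ 1 := by nlinarith
  have hs1 : s ≤ 1 := by nlinarith
  have : (c * x + s * y) - x = s * y - ((1 - c : ℝ) : 𝕜) * x := by push_cast; ring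
  rw [this]
  refine (norm_sub_le _ _).trans ?_
  rw [norm_real_mul _ hs, norm_real_mul _ (by linarith)]
  have h1 : 1 - c ≤ s := by nlinarith
  have h2 := mul_le_of_le_one_right hs hy
  have h3 := mul_le_of_le_one_right (show 0 ≤ 1 - c by linarith) hx
  linarith

theorem xp_close {c s : ℝ} (hs : 0 ≤ s) (hc : 0 ≤ c) (hcs : c ^ 2 + s ^ 2 = 1) (d₀ : 𝕜)
    (hd₀ : ‖d₀‖ ≤ 1) (p : 𝕜 × 𝕜 × 𝕜) (hp : InB p) : ‖xp c s d₀ p - p.1‖ ≤ 3 * s := by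
  have hs1 : s ≤ 1 := by nlinarith
  have h1 := xi_close hs hc hcs p.1 p.2.1 hp.x_le hp.y_le
  have : xp c s d₀ p - p.1 = ((c * p.1 + s * p.2.1) - p.1)
      + ((s ^ 4 : ℝ) : 𝕜) * ((starRingEnd 𝕜) d₀ * p.2.2) := by simp only [xp]; ring
  rw [this]
  refine (norm_add_le _ _).trans ?_
  rw [norm_real_mul _ (by positivity), norm_mul, RCLike.norm_conj]
  have h2 : ‖d₀‖ * ‖p.2.2‖ ≤ 1 := mul_le_one₀ hd₀ (norm_nonneg _) hp.d_le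
  have h3 := mul_le_of_le_one_right (show 0 ≤ s ^ 4 by positivity) h2
  have h4 := mul_le_of_le_one_right hs (pow_le_one₀ hs hs1 (n := 3))
  linarith

theorem xp_far {c s τ : ℝ} (hs : 0 ≤ s) (hc : 0 ≤ c) (hcs : c ^ 2 + s ^ 2 = 1) (d₀ : 𝕜)
    (hd₀ : ‖d₀‖ ≤ 1) (p : 𝕜 × 𝕜 × 𝕜) (hp : InB p) (hsτ : 34 * s ≤ τ)
    (hτ : τ ≤ ‖p.2.2 - p.1 * d₀‖ ^ 2 + (1 - ‖p.1‖ ^ 2)) :
    ‖xp c s d₀ p‖ ^ 2 ≤ 1 + s ^ 4 * ‖d₀‖ ^ 2 - s ^ 4 * τ / 2 := by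
  have hs1 : s ≤ 1 := by nlinarith
  have h1 := xi_close hs hc hcs p.1 p.2.1 hp.x_le hp.y_le
  have hL := lagrange (c * p.1 + s * p.2.1) p.2.2 d₀ (s ^ 4)
  have hu : ‖c * p.1 + s * p.2.1‖ ^ 2 + s ^ 4 * ‖p.2.2‖ ^ 2 ≤ 1 := by
    have := hp c s (by
      rw [RCLike.norm_ofReal, RCLike.norm_ofReal, sq_abs, sq_abs]; exact hcs)
    unfold Q at this
    rw [RCLike.norm_ofReal, abs_of_nonneg hs] at this
    have h0 : 0 ≤ s ^ 6 * ‖p.1‖ ^ 2 / 4 := by positivity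
    linarith
  change ‖xp c s d₀ p‖ ^ 2 + _ = _ at hL
  set ξ : 𝕜 := c * p.1 + s * p.2.1 with hξ
  have hx := hp.x_le
  have hd := hp.d_le
  have a1 : ‖ξ‖ ≤ ‖p.1‖ + 2 * s := by
    have := norm_le_insert' ξ p.1
    linarith
  have a2 : ‖ξ‖ ^ 2 ≤ ‖p.1‖ ^ 2 + 8 * s := by
    have := pow_le_pow_left₀ (norm_nonneg _) a1 2
    nlinarith [norm_nonneg p.1]
  have a3 : ‖p.2.2 - p.1 * d₀‖ ≤ ‖p.2.2 - ξ * d₀‖ + 2 * s := by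
    have e : p.2.2 - p.1 * d₀ = (p.2.2 - ξ * d₀) + (ξ - p.1) * d₀ := by ring
    rw [e]
    refine (norm_add_le _ _).trans ?_
    rw [norm_mul]
    have := mul_le_of_le_one_right (norm_nonneg (ξ - p.1)) hd₀
    linarith
  have a4 : ‖p.2.2 - p.1 * d₀‖ ≤ 2 := by
    refine (norm_sub_le _ _).trans ?_
    rw [norm_mul]
    have := mul_le_one₀ hx (norm_nonneg _) hd₀
    linarith
  have a5 : ‖p.2.2 - p.1 * d₀‖ ^ 2 - 8 * s ≤ ‖p.2.2 - ξ * d₀‖ ^ 2 := by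
    by_cases hh : ‖p.2.2 - p.1 * d₀‖ ≤ ‖p.2.2 - ξ * d₀‖
    · have := pow_le_pow_left₀ (norm_nonneg _) hh 2
      linarith
    · push Not at hh
      nlinarith [norm_nonneg (p.2.2 - ξ * d₀)]
  have ht : 0 ≤ s ^ 4 := by positivity
  have ht1 : s ^ 4 ≤ 1 := pow_le_one₀ hs hs1
  have hts : s ^ 4 ≤ s := by
    have := mul_le_of_le_one_right hs (pow_le_one₀ hs hs1 (n := 3)); linarith
  have hd2 : ‖p.2.2‖ ^ 2 ≤ 1 := pow_le_one₀ (norm_nonneg _) hd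
  set u := ‖ξ‖ ^ 2 + s ^ 4 * ‖p.2.2‖ ^ 2 with hu'
  have b1 : u * (s ^ 4 * ‖d₀‖ ^ 2) ≤ s ^ 4 * ‖d₀‖ ^ 2 :=
    mul_le_of_le_one_left (by positivity) hu
  have b2 : s ^ 4 * (1 - u) ≤ 1 - u := mul_le_of_le_one_left (by linarith) ht1
  have b3 : s ^ 4 * ‖p.2.2‖ ^ 2 ≤ s := (mul_le_of_le_one_right ht hd2).trans hts
  have b4 : τ / 2 ≤ (1 - u) + ‖p.2.2 - ξ * d₀‖ ^ 2 := by linarith
  have b5 := mul_le_mul_of_nonneg_left b4 ht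
  linarith

theorem geoV {c s σ τ γ : ℝ} (hs : 0 ≤ s) (hc : 0 ≤ c) (hcs : c ^ 2 + s ^ 2 = 1) (d₀ : 𝕜)
    (hσ : 0 ≤ σ) (hσ1 : σ ≤ 1) (hτ0 : 0 ≤ τ) (hτ1 : τ ≤ 1) (hγ0 : 0 ≤ γ)
    (hγ : ‖d₀‖ ^ 2 + γ = 3 / 4) (hsγ : 68 * s ≤ σ * γ) (hsτ : 16 * s ≤ σ * τ) (hsτ' : 34 * s ≤ τ)
    (p : 𝕜 × 𝕜 × 𝕜) (hp : InB p) (hτ : τ ≤ ‖p.2.2 - p.1 * d₀‖ ^ 2 + (1 - ‖p.1‖ ^ 2))
    (a b : 𝕜) (hab : ‖a‖ ^ 2 + ‖b‖ ^ 2 = 1) :
    Q a b (Smap c s σ d₀ p) ≤ 1 + s ^ 4 * ‖d₀‖ ^ 2 - σ * τ * s ^ 4 / 4 := by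
  have hc1 : c ≤ 1 := by nlinarith
  have hs1 : s ≤ 1 := by nlinarith
  have hd₀ : ‖d₀‖ ≤ 1 := by nlinarith [norm_nonneg d₀]
  have ha1 : ‖a‖ ≤ 1 := by nlinarith [norm_nonneg a, sq_nonneg ‖b‖]
  have hb1 : ‖b‖ ≤ 1 := by nlinarith [norm_nonneg b, sq_nonneg ‖a‖]
  have hin := hp (a * c - b * s) (a * s + b * c) (by rw [rot_norm a b c s hcs]; exact hab)
  unfold Q at hin
  have hlow : |‖a‖ * s - ‖b‖ * c| ≤ ‖a * s + b * c‖ := by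
    have := abs_norm_sub_norm_le (a * s) (-(b * c))
    rwa [norm_neg, sub_neg_eq_add, norm_mul_real _ hs, norm_mul_real _ hc] at this
  have h4 := pow4_low hs hc hcs (norm_nonneg a) (norm_nonneg b) hab hlow
  have h6 := pow6_low hs (norm_nonneg b) hb1 (norm_nonneg (a * s + b * c)) (by
    have h1 := (abs_le.mp hlow).1
    have h2 := mul_le_of_le_one_left hs ha1
    have h3 : 1 - c ≤ s := by nlinarith
    have h5 := mul_le_of_le_one_left (show 0 ≤ 1 - c by linarith) hb1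
    linarith)
  have hcl := xp_close hs hc hcs d₀ hd₀ p hp
  have hXX : ‖xp c s d₀ p‖ ≤ ‖p.1‖ + 3 * s := by
    have := norm_le_insert' (xp c s d₀ p) p.1
    linarith
  have hfar := xp_far hs hc hcs d₀ hd₀ p hp hsτ' hτ
  have hE : ‖a * xp c s d₀ p + b * (c * p.2.1 - s * p.1)‖
      ≤ ‖(a * c - b * s) * p.1 + (a * s + b * c) * p.2.1‖ + s ^ 4 * ‖d₀‖ * ‖p.2.2‖ := by
    have e : a * xp c s d₀ p + b * (c * p.2.1 - s * p.1)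
        = ((a * c - b * s) * p.1 + (a * s + b * c) * p.2.1)
          + ((s ^ 4 : ℝ) : 𝕜) * (a * ((starRingEnd 𝕜) d₀ * p.2.2)) := by
      simp only [xp]; ring
    rw [e]
    refine (norm_add_le _ _).trans ?_
    rw [norm_real_mul _ (by positivity), norm_mul, norm_mul, RCLike.norm_conj]
    have h1 : ‖a‖ * (‖d₀‖ * ‖p.2.2‖) ≤ ‖d₀‖ * ‖p.2.2‖ := mul_le_of_le_one_left (by positivity) ha1
    have := mul_le_mul_of_nonneg_left h1 (show 0 ≤ s ^ 4 by positivity)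
    linarith
  have est := estV hs hσ hσ1 hτ0 hτ1 hγ0 hγ (norm_nonneg d₀) hsγ hsτ (norm_nonneg b) hab
    (norm_nonneg _) (norm_nonneg _) (norm_nonneg _) hp.d_le (norm_nonneg _) hp.x_le
    (norm_nonneg _) hE hin h4 h6 hXX hfar
  refine le_trans ?_ est
  rw [Smap_apply]
  simp only [Q]
  set x' := xp c s d₀ p
  have t1 := convex_sq (a * x' + b * (c * p.2.1 - s * p.1)) (a * x') σ hσ hσ1
  have e1 : ((1 - σ : ℝ) : 𝕜) * (a * x' + b * (c * p.2.1 - s * p.1)) + σ * (a * x')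
      = a * x' + b * (((1 - σ : ℝ) : 𝕜) * (c * p.2.1 - s * p.1)) := by push_cast; ring
  rw [e1, norm_mul a x', mul_pow] at t1
  have t2 := convex_sq p.2.2 (x' * d₀) σ hσ hσ1
  rw [norm_mul x' d₀, mul_pow] at t2
  have t3 := mul_le_mul_of_nonneg_left t2 (show 0 ≤ ‖b‖ ^ 4 by positivity)
  linarith

theorem geoI {c s σ : ℝ} (hs : 0 ≤ s) (hc : 0 ≤ c) (hcs : c ^ 2 + s ^ 2 = 1) (d₀ : 𝕜)
    (hσ : 0 ≤ σ) (hσ1 : σ ≤ 1) (hd₀ : ‖d₀‖ ≤ 1) (p : 𝕜 × 𝕜 × 𝕜) (hp : InB p) :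
    ‖(Smap c s σ d₀ p - p).1‖ + ‖(Smap c s σ d₀ p - p).2.1‖ + ‖(Smap c s σ d₀ p - p).2.2‖
      ≤ 5 * s + 8 * σ := by
  have hs1 : s ≤ 1 := by nlinarith
  have hcl := xp_close hs hc hcs d₀ hd₀ p hp
  have hx := hp.x_le
  have hy := hp.y_le
  have hd := hp.d_le
  have h2 := xi_close hs hc hcs p.2.1 (-p.1) hy (by simpa using hx)
  rw [Smap_apply]
  simp only [Prod.fst_sub, Prod.snd_sub]
  have a1 : ‖((1 - σ : ℝ) : 𝕜) * (c * p.2.1 - s * p.1) - p.2.1‖ ≤ 2 * s + σ := by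
    have e : ((1 - σ : ℝ) : 𝕜) * (c * p.2.1 - s * p.1) - p.2.1
        = ((1 - σ : ℝ) : 𝕜) * (c * p.2.1 + s * -p.1 - p.2.1) - σ * p.2.1 := by push_cast; ring
    rw [e]
    refine (norm_sub_le _ _).trans ?_
    rw [norm_real_mul _ (by linarith), norm_real_mul _ hσ]
    have := mul_le_of_le_one_left (norm_nonneg (c * p.2.1 + s * -p.1 - p.2.1))
      (show 1 - σ ≤ 1 by linarith)
    have := mul_le_of_le_one_right hσ hy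
    linarith
  have a2 : ‖((1 - σ : ℝ) : 𝕜) * p.2.2 + σ * (xp c s d₀ p * d₀) - p.2.2‖ ≤ 5 * σ := by
    have e : ((1 - σ : ℝ) : 𝕜) * p.2.2 + σ * (xp c s d₀ p * d₀) - p.2.2
        = σ * (xp c s d₀ p * d₀ - p.2.2) := by push_cast; ring
    rw [e, norm_real_mul _ hσ]
    have b1 := norm_sub_le (xp c s d₀ p * d₀) p.2.2
    rw [norm_mul] at b1
    have b2 := mul_le_of_le_one_right (norm_nonneg (xp c s d₀ p)) hd₀
    have b3 := norm_le_insert' (xp c s d₀ p) p.1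
    have b4 : ‖xp c s d₀ p * d₀ - p.2.2‖ ≤ 5 := by linarith
    have := mul_le_mul_of_nonneg_left b4 hσ
    linarith
  linarith

end Pool.Agent.H248Z.Bpb
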