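import Pool.Agent.H248Z.BpbAbs

namespace Pool.Agent.H248Z.Bpb

open Filter Topology Metric
open scoped ENNReal

variable {𝕜 : Type} [RCLike 𝕜] {Z : Type} [NormedAddCommGroup Z] [NormedSpace 𝕜 Z]

/-- ambient space -/
abbrev Amb (𝕜 : Type) [RCLike 𝕜] (Z : Type) [NormedAddCommGroup Z] : Type :=
  WithLp 2 (lp (fun _ : ℕ => Z) ∞ × lp (fun _ : ℕ => 𝕜) 2)

/-- the range space -/
noncomputable def Ysub (φ : Z →L[𝕜] 𝕜) : Submodule 𝕜 (Amb 𝕜 Z) where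
  carrier := {p | ∀ n : ℕ, p.snd n = ((1 / ((n : ℝ) + 1) : ℝ) : 𝕜) * φ (p.fst n)}
  add_mem' := by
    intro p q hp hq n
    have h1 := hp n
    have h2 := hq n
    simp only [WithLp.add_fst, WithLp.add_snd, lp.coeFn_add, Pi.add_apply, map_add, h1, h2]
    ring
  zero_mem' := by intro n; simp
  smul_mem' := by
    intro c p hp n
    have h1 := hp n
    simp only [WithLp.smul_fst, WithLp.smul_snd, lp.coeFn_smul, Pi.smul_apply, map_smul, h1,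
      smul_eq_mul]
    ring

theorem cont_ev {E : Type} [NormedAddCommGroup E] (p : ℝ≥0∞) [Fact (1 ≤ p)] (n : ℕ) :
    Continuous fun f : lp (fun _ : ℕ => E) p => f n :=
  (continuous_apply n).comp lp.uniformContinuous_coe.continuous

theorem Ysub_closed (φ : Z →L[𝕜] 𝕜) : IsClosed (Ysub φ : Set (Amb 𝕜 Z)) := by
  have : (Ysub φ : Set (Amb 𝕜 Z)) =
      ⋂ n : ℕ, {p : Amb 𝕜 Z | p.snd n = ((1 / ((n : ℝ) + 1) : ℝ) : 𝕜) * φ (p.fst n)} := by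
    ext p; simp [Ysub]
  rw [this]
  refine isClosed_iInter fun n => isClosed_eq ?_ ?_
  · exact (cont_ev 2 n).comp (WithLp.continuous_snd 2 _ _)
  · exact continuous_const.mul (φ.continuous.comp ((cont_ev ∞ n).comp (WithLp.continuous_fst 2 _ _)))

/-- the operators -/
noncomputable def Tlin (φ : Z →L[𝕜] 𝕜) (k : ℕ) : Z →ₗ[𝕜] Ysub φ where
  toFun v := ⟨WithLp.toLp 2 (lp.single ∞ k v,
      lp.single 2 k (((1 / ((k : ℝ) + 1) : ℝ) : 𝕜) * φ v)), by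
    intro n
    by_cases h : n = k
    · subst h; simp
    · simp [lp.single_apply, Pi.single_eq_of_ne h]⟩
  map_add' u v := by
    apply Subtype.ext
    simp only [map_add, mul_add, lp.single_add, Submodule.coe_add]
    rfl
  map_smul' c v := by
    apply Subtype.ext
    have : (((1 / ((k : ℝ) + 1) : ℝ) : 𝕜) * φ (c • v)) = c • (((1 / ((k : ℝ) + 1) : ℝ) : 𝕜) * φ v) := by
      simp only [map_smul, smul_eq_mul]; ring
    simp only [this, lp.single_smul, RingHom.id_apply, Submodule.coe_smul]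
    rfl

theorem norm_sq_Y (φ : Z →L[𝕜] 𝕜) (p : Ysub φ) :
    ‖p‖ ^ 2 = ‖(p : Amb 𝕜 Z).fst‖ ^ 2 + ‖(p : Amb 𝕜 Z).snd‖ ^ 2 := by
  rw [Submodule.coe_norm]
  exact WithLp.prod_norm_sq_eq_of_L2 _

theorem Tlin_norm_sq (φ : Z →L[𝕜] 𝕜) (k : ℕ) (v : Z) :
    ‖Tlin φ k v‖ ^ 2 = ‖v‖ ^ 2 + (1 / ((k : ℝ) + 1) * ‖φ v‖) ^ 2 := by
  rw [norm_sq_Y]
  simp only [Tlin, LinearMap.coe_mk, AddHom.coe_mk, WithLp.toLp_fst, WithLp.toLp_snd]
  rw [lp.norm_single (by simp), lp.norm_single (by simp), norm_mul, RCLike.norm_ofReal,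
    abs_of_pos (by positivity)]

theorem Tlin_le (φ : Z →L[𝕜] 𝕜) (k : ℕ) (v : Z) :
    ‖Tlin φ k v‖ ≤ (1 + 1 / ((k : ℝ) + 1) * ‖φ‖) * ‖v‖ := by
  have h := Tlin_norm_sq φ k v
  have h1 : 1 / ((k : ℝ) + 1) * ‖φ v‖ ≤ 1 / ((k : ℝ) + 1) * (‖φ‖ * ‖v‖) :=
    mul_le_mul_of_nonneg_left (φ.le_opNorm v) (by positivity)
  have h2 : 0 ≤ 1 / ((k : ℝ) + 1) * ‖φ v‖ := by positivity
  refine le_trans (b := ‖v‖ + 1 / ((k : ℝ) + 1) * ‖φ v‖) ?_ (by linarith)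
  refine (pow_le_pow_iff_left₀ (norm_nonneg _) (by positivity) two_ne_zero).mp ?_
  rw [h]
  nlinarith [norm_nonneg v]

theorem flat_kill (φ : Z →L[𝕜] 𝕜) (y z : Ysub φ) (hy : ‖y‖ = 1) (h1 : ‖y + z‖ ≤ 1)
    (h2 : ‖y - z‖ ≤ 1) (n : ℕ) : φ ((z : Amb 𝕜 Z).fst n) = 0 := by
  have a0 := norm_sq_Y φ y
  have a1 := norm_sq_Y φ (y + z)
  have a2 := norm_sq_Y φ (y - z)
  simp only [Submodule.coe_add, Submodule.coe_sub, WithLp.add_fst, WithLp.add_snd,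
    WithLp.sub_fst, WithLp.sub_snd] at a1 a2
  set p := (y : Amb 𝕜 Z).fst
  set q := (y : Amb 𝕜 Z).snd
  set p' := (z : Amb 𝕜 Z).fst
  set q' := (z : Amb 𝕜 Z).snd with hq'
  have par := parallelogram_law_with_norm 𝕜 q q'
  have tri : 2 * ‖p‖ ≤ ‖p + p'‖ + ‖p - p'‖ := by
    have : ‖(p + p') + (p - p')‖ ≤ ‖p + p'‖ + ‖p - p'‖ := norm_add_le _ _
    have e : (p + p') + (p - p') = (2 : 𝕜) • p := by rw [two_smul]; abel
    rw [e, norm_smul] at this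
    simpa using this
  have b1 : ‖y + z‖ ^ 2 ≤ 1 := by nlinarith [norm_nonneg (y + z)]
  have b2 : ‖y - z‖ ^ 2 ≤ 1 := by nlinarith [norm_nonneg (y - z)]
  have sq : 2 * ‖p‖ ^ 2 ≤ ‖p + p'‖ ^ 2 + ‖p - p'‖ ^ 2 := by
    nlinarith [norm_nonneg p, norm_nonneg (p + p'), norm_nonneg (p - p'),
      sq_nonneg (‖p + p'‖ - ‖p - p'‖)]
  have hq0 : ‖q'‖ = 0 := by
    rw [hy] at a0
    nlinarith [norm_nonneg q']
  have hq1 : q' = 0 := norm_eq_zero.mp hq0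
  have := z.2 n
  change q' n = _ at this
  rw [hq1] at this
  have hne : ((1 / ((n : ℝ) + 1) : ℝ) : 𝕜) ≠ 0 := by
    rw [Ne, RCLike.ofReal_eq_zero]; positivity
  exact (mul_eq_zero.mp this.symm).resolve_left hne

theorem not_bpb_abs {Y : Type} [NormedAddCommGroup Y] [NormedSpace 𝕜 Y] (C : ℝ) (hC : 0 ≤ C)
    (T : ℕ → Z →L[𝕜] Y) (ψ : ℕ → Y →ₗ[𝕜] 𝕜) (m e : Z) (hm : ‖m‖ = 1)
    (hT : ∀ k : ℕ, ‖T k‖ ≤ 1 + 1 / ((k : ℝ) + 1) * C) (hTm : ∀ k, ‖T k m‖ = 1)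
    (hψ : ∀ k y, ‖ψ k y‖ ≤ C * ‖y‖) (hψe : ∀ k, ψ k (T k e) = 1)
    (kill : ∀ y z : Y, ‖y‖ = 1 → ‖y + z‖ ≤ 1 → ‖y - z‖ ≤ 1 → ∀ k, ψ k z = 0)
    (ε₀ : ℝ) (hε₀ : 0 < ε₀)
    (hflat : ∀ u : Z, ‖u‖ = 1 → ‖m - u‖ < ε₀ → ‖u + e‖ ≤ 1 ∧ ‖u - e‖ ≤ 1) :
    ¬ BPBp 𝕜 Z Y := by
  intro h
  set A : ℝ := (1 + C) * C * ‖e‖ + 2 with hA
  have hA0 : 2 ≤ A := by
    have : 0 ≤ (1 + C) * C * ‖e‖ := by positivity
    linarith
  set ε := min ε₀ (1 / A) with hε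
  have hε0 : 0 < ε := lt_min hε₀ (by positivity)
  have hεA : ε * A ≤ 1 := by
    have := min_le_right ε₀ (1 / A)
    rw [le_div_iff₀ (by linarith)] at this
    exact this
  obtain ⟨η, hη, hB⟩ := h ε hε0 (by nlinarith)
  obtain ⟨k, hk⟩ := exists_nat_one_div_lt (show 0 < η / (C + 1) by positivity)
  have hT'le := hT k
  set r : ℝ := 1 / ((k : ℝ) + 1) with hr
  have hr0 : 0 < r := by positivity
  have hr1 : r ≤ 1 := by rw [hr, div_le_one (by positivity)]; linarith [Nat.cast_nonneg (α := ℝ) k]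
  have hrη : r * C < η := by
    rw [lt_div_iff₀ (by positivity)] at hk
    nlinarith
  have hT'ge : 1 ≤ ‖T k‖ := by
    have := (T k).le_opNorm m
    rwa [hTm, hm, mul_one] at this
  set μ := ‖T k‖ with hμ
  have hμ0 : 0 < μ := by linarith
  obtain ⟨S, u, hS, hu, hSu, hmu, hST⟩ := hB (((μ⁻¹ : ℝ) : 𝕜) • T k) m
    (by rw [norm_smul, RCLike.norm_ofReal, abs_of_pos (inv_pos.mpr hμ0), inv_mul_cancel₀ hμ0.ne'])
    hm (by
      rw [smul_apply, norm_smul, RCLike.norm_ofReal, abs_of_pos (inv_pos.mpr hμ0), hTm, mul_one,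
        ← one_div, lt_div_iff₀ hμ0]
      by_cases hη1 : η ≤ 1
      · nlinarith [mul_nonneg hr0.le hC]
      · nlinarith)
  obtain ⟨f1, f2⟩ := hflat u hu (hmu.trans_le (min_le_left _ _))
  have g1 : ‖S u + S e‖ ≤ 1 := by
    rw [← map_add]
    have := S.le_opNorm (u + e)
    rw [hS] at this; linarith
  have g2 : ‖S u - S e‖ ≤ 1 := by
    rw [← map_sub]
    have := S.le_opNorm (u - e)
    rw [hS] at this; linarith
  have hk0 := kill (S u) (S e) hSu g1 g2 k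
  set D : Y := (S - ((μ⁻¹ : ℝ) : 𝕜) • T k) e with hD
  have hD1 : ‖D‖ ≤ ε * ‖e‖ :=
    ((S - ((μ⁻¹ : ℝ) : 𝕜) • T k).le_opNorm e).trans
      (mul_le_mul_of_nonneg_right hST.le (norm_nonneg _))
  have hD3 : ψ k D = -((μ⁻¹ : ℝ) : 𝕜) := by
    simp [hD, hk0, hψe]
  have hD4 : μ⁻¹ ≤ C * (ε * ‖e‖) := by
    have := hψ k D
    rw [hD3, norm_neg, RCLike.norm_ofReal, abs_of_pos (inv_pos.mpr hμ0)] at this
    exact this.trans (mul_le_mul_of_nonneg_left hD1 hC)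
  rw [← one_div, div_le_iff₀ hμ0] at hD4
  have hμ2 : μ ≤ 1 + C := by nlinarith
  have : C * (ε * ‖e‖) * μ ≤ C * (ε * ‖e‖) * (1 + C) :=
    mul_le_mul_of_nonneg_left hμ2 (by positivity)
  nlinarith

/-- evaluation functional -/
noncomputable def psi (φ : Z →L[𝕜] 𝕜) (k : ℕ) : Ysub φ →ₗ[𝕜] 𝕜 where
  toFun y := φ ((y : Amb 𝕜 Z).fst k)
  map_add' u v := by simp
  map_smul' c v := by simp

theorem not_bpb (φ : Z →L[𝕜] 𝕜) (m e : Z) (hm : ‖m‖ = 1) (hφm : φ m = 0) (hφe : φ e = 1)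
    (ε₀ : ℝ) (hε₀ : 0 < ε₀)
    (hflat : ∀ u : Z, ‖u‖ = 1 → ‖m - u‖ < ε₀ → ‖u + e‖ ≤ 1 ∧ ‖u - e‖ ≤ 1) :
    ¬ BPBp 𝕜 Z (Ysub φ) := by
  refine not_bpb_abs ‖φ‖ (norm_nonneg _) (fun k => (Tlin φ k).mkContinuous _ (Tlin_le φ k))
    (psi φ) m e hm (fun k => LinearMap.mkContinuous_norm_le _ (by positivity) _) ?_ ?_ ?_
    (fun y z hy h1 h2 k => flat_kill φ y z hy h1 h2 k) ε₀ hε₀ hflat
  · intro k
    have := Tlin_norm_sq φ k m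
    rw [hφm, hm] at this
    have h2 : ‖Tlin φ k m‖ ^ 2 = 1 := by simpa using this
    exact (pow_eq_one_iff_of_nonneg (norm_nonneg _) two_ne_zero).mp h2
  · intro k D
    refine (φ.le_opNorm _).trans (mul_le_mul_of_nonneg_left ?_ (norm_nonneg _))
    refine (lp.norm_apply_le_norm (by simp) _ k).trans ?_
    refine (pow_le_pow_iff_left₀ (norm_nonneg _) (norm_nonneg _) two_ne_zero).mp ?_
    rw [norm_sq_Y]
    nlinarith [sq_nonneg ‖(D : Amb 𝕜 Z).snd‖]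
  · intro k
    simp [psi, Tlin, hφe]

theorem exists_not_bpb [CompleteSpace Z] (φ : Z →L[𝕜] 𝕜) (m e : Z) (hm : ‖m‖ = 1) (hφm : φ m = 0)
    (hφe : φ e = 1) (ε₀ : ℝ) (hε₀ : 0 < ε₀)
    (hflat : ∀ u : Z, ‖u‖ = 1 → ‖m - u‖ < ε₀ → ‖u + e‖ ≤ 1 ∧ ‖u - e‖ ≤ 1) :
    ∃ (Y : Type) (_ : NormedAddCommGroup Y) (_ : NormedSpace 𝕜 Y) (_ : CompleteSpace Y),
      ¬ BPBp 𝕜 Z Y :=
  ⟨Ysub φ, inferInstance, inferInstance, (Ysub_closed φ).completeSpace_coe,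
    not_bpb φ m e hm hφm hφe ε₀ hε₀ hflat⟩

end Pool.Agent.H248Z.Bpb
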