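import Pool.Agent.H248Z.BpbGeo
import Pool.Agent.H248Z.BpbNeg

namespace Pool.Agent.H248Z.Bpb

variable {𝕜 : Type} [RCLike 𝕜] {X : Type} [NormedAddCommGroup X] [NormedSpace 𝕜 X]

/-- the norm of X is the supremum of the forms Q in the coordinates e -/
structure Model (e : X ≃ₗ[𝕜] 𝕜 × 𝕜 × 𝕜) : Prop where
  le : ∀ v a b, ‖a‖ ^ 2 + ‖b‖ ^ 2 = 1 → Q a b (e v) ≤ ‖v‖ ^ 2
  ex : ∀ v, ∃ a b, ‖a‖ ^ 2 + ‖b‖ ^ 2 = 1 ∧ Q a b (e v) = ‖v‖ ^ 2

/-- Euclidean realisation of Q -/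
noncomputable def Lab (a b : 𝕜) : (𝕜 × 𝕜 × 𝕜) →ₗ[𝕜] EuclideanSpace 𝕜 (Fin 3) where
  toFun p := !₂[a * p.1 + b * p.2.1, b ^ 2 * p.2.2, b ^ 3 * p.1 / 2]
  map_add' u v := by
    ext i; fin_cases i <;> simp <;> ring
  map_smul' t v := by
    ext i; fin_cases i <;> simp <;> ring

theorem Lab_norm (a b : 𝕜) (p : 𝕜 × 𝕜 × 𝕜) : ‖Lab a b p‖ ^ 2 = Q a b p := by
  rw [EuclideanSpace.norm_sq_eq, Fin.sum_univ_three]
  simp [Lab, Q]
  ring

theorem Lab_inj (a b : 𝕜) (hb : b ≠ 0) : Function.Injective (Lab a b) := by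
  rw [injective_iff_map_eq_zero]
  intro p hp
  have h0 := congrArg (fun z => z 0) hp
  have h1 := congrArg (fun z => z 1) hp
  have h2 := congrArg (fun z => z 2) hp
  simp [Lab, hb] at h0 h1 h2
  rw [h2] at h0
  simp [hb] at h0
  ext <;> simp [h0, h1, h2]

namespace Model

variable {e : X ≃ₗ[𝕜] 𝕜 × 𝕜 × 𝕜}

theorem inB (h : Model e) {v : X} (hv : ‖v‖ ≤ 1) : InB (e v) := fun a b hab =>
  (h.le v a b hab).trans (pow_le_one₀ (norm_nonneg _) hv)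

theorem norm_le (h : Model e) (v : X) :
    ‖v‖ ≤ 2 * (‖(e v).1‖ + ‖(e v).2.1‖ + ‖(e v).2.2‖) := by
  obtain ⟨a, b, hab, hQ⟩ := h.ex v
  refine (pow_le_pow_iff_left₀ (norm_nonneg _) (by positivity) two_ne_zero).mp ?_
  rw [← hQ]; exact Q_le a b hab _

theorem loc_exp [FiniteDimensional 𝕜 X] (h : Model e) (x₀ : X) (hx₀ : ‖x₀‖ = 1) (a b : 𝕜)
    (hab : ‖a‖ ^ 2 + ‖b‖ ^ 2 = 1) (hb : b ≠ 0) (hQ : Q a b (e x₀) = 1) : Loc 𝕜 x₀ := by
  refine loc_of_exposed ((Lab a b).comp e.toLinearMap) ((Lab_inj a b hb).comp e.injective)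
    (fun v => ?_) x₀ hx₀ ?_
  · refine (pow_le_pow_iff_left₀ (norm_nonneg _) (norm_nonneg _) two_ne_zero).mp ?_
    exact (Lab_norm a b (e v)).trans_le (h.le v a b hab)
  · refine (pow_eq_one_iff_of_nonneg (norm_nonneg _) two_ne_zero).mp ?_
    exact (Lab_norm a b (e x₀)).trans hQ

theorem loc_face [FiniteDimensional 𝕜 X] (h : Model e) (d₀ : 𝕜) (hd₀ : ‖d₀‖ ^ 2 < 3 / 4) :
    Loc 𝕜 (e.symm (1, 0, d₀)) := by
  intro ε hε
  have hec : Continuous e := e.toLinearMap.continuous_of_finiteDimensional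
  obtain ⟨τ, hτ, hτ1, hfar⟩ := far_bound (𝕜 := 𝕜) (e.symm (1, 0, d₀)) ε hε
    (fun v => ‖(e v).2.2 - (e v).1 * d₀‖ ^ 2 + (1 - ‖(e v).1‖ ^ 2)) (by fun_prop) (by
      intro v hv hle
      have hB := h.inB hv
      have hx := hB.x_le
      have hx2 : ‖(e v).1‖ ^ 2 ≤ 1 := pow_le_one₀ (norm_nonneg _) hx
      have h1 : ‖(e v).1‖ ^ 2 = 1 := by nlinarith [sq_nonneg ‖(e v).2.2 - (e v).1 * d₀‖]
      have h2 : ‖(e v).2.2 - (e v).1 * d₀‖ ^ 2 = 0 := by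
        nlinarith [sq_nonneg ‖(e v).2.2 - (e v).1 * d₀‖]
      have h3 : ‖(e v).1‖ = 1 := (pow_eq_one_iff_of_nonneg (norm_nonneg _) two_ne_zero).mp h1
      have h4 : (e v).2.2 = (e v).1 * d₀ := by simpa [sub_eq_zero] using h2
      refine ⟨(e v).1, h3, e.injective ?_⟩
      rw [map_smul, e.apply_symm_apply]
      ext
      · simp
      · simp [hB.y_zero h3]
      · simp [h4])
  set γ : ℝ := 3 / 4 - ‖d₀‖ ^ 2 with hγ
  have hγ0 : 0 < γ := by linarith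
  have hγ1 : γ ≤ 1 := by nlinarith [sq_nonneg ‖d₀‖]
  have hd1 : ‖d₀‖ ≤ 1 := by nlinarith [norm_nonneg d₀]
  set σ : ℝ := min (ε / 20) 1 with hσ
  have hσ0 : 0 < σ := lt_min (by positivity) one_pos
  have hσ1 : σ ≤ 1 := min_le_right _ _
  have hσ2 : σ ≤ ε / 20 := min_le_left _ _
  set s : ℝ := σ * γ * τ / 100 with hs
  have hs0 : 0 < s := by positivity
  have k1 : 100 * s ≤ σ * γ := by
    have := mul_le_of_le_one_right (show 0 ≤ σ * γ by positivity) hτ1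
    linarith
  have k2 : 100 * s ≤ σ * τ := by
    have := mul_le_of_le_one_right (show 0 ≤ σ * τ by positivity) hγ1
    linarith
  have k3 : σ * γ ≤ γ := mul_le_of_le_one_left hγ0.le hσ1
  have k4 : σ * γ ≤ σ := mul_le_of_le_one_right hσ0.le hγ1
  have k5 : σ * τ ≤ τ := mul_le_of_le_one_left hτ.le hσ1
  have hs1 : s ≤ 1 := by linarith
  set c := Real.sqrt (1 - s ^ 2) with hc
  have hc0 : 0 ≤ c := Real.sqrt_nonneg _
  have hcs : c ^ 2 + s ^ 2 = 1 := by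
    rw [hc, Real.sq_sqrt (by nlinarith)]; ring
  set S : X →L[𝕜] X := LinearMap.toContinuousLinearMap
    (e.symm.toLinearMap.comp ((Smap c s σ d₀).comp e.toLinearMap)) with hS
  have hSe : ∀ v, e (S v) = Smap c s σ d₀ (e v) := fun v => by simp [hS]
  have ht : 0 < s ^ 4 := by positivity
  refine ⟨S, e.symm (wp c s d₀), 1 - σ * τ * s ^ 4 / 100, ?_, ?_, ?_, ?_⟩
  · have : 0 < σ * τ * s ^ 4 := by positivity
    linarith
  · refine opNorm_le_of_unit _ _ hε.le fun v hv => ?_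
    have h1 := h.norm_le ((S - 1) v)
    have h2 := geoI hs0.le hc0 hcs d₀ hσ0.le hσ1 hd1 (e v) (h.inB hv)
    have h3 : e ((S - 1) v) = Smap c s σ d₀ (e v) - e v := by simp [hSe]
    rw [h3] at h1
    linarith
  · apply e.injective
    rw [hSe, e.apply_symm_apply, e.apply_symm_apply, Smap_wp c s σ hcs]
  · intro v hv hf
    obtain ⟨a, b, hab, hQ⟩ := h.ex (S v)
    obtain ⟨a', b', hab', hQ'⟩ := h.ex (e.symm (wp c s d₀))
    have V := geoV hs0.le hc0 hcs d₀ hσ0.le hσ1 hτ.le hτ1 hγ0.le (by linarith) (by linarith)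
      (by linarith) (by linarith) (e v) (h.inB hv) (hfar v hv hf) a b hab
    have W := geoW hs0.le hc0 hcs d₀ (γ := γ) (by linarith) (by linarith) a' b' hab'
    rw [← hSe, hQ] at V
    rw [e.apply_symm_apply] at hQ'
    rw [hQ'] at W
    set A := ‖S v‖
    set B := ‖e.symm (wp c s d₀)‖
    set M := 1 + s ^ 4 * ‖d₀‖ ^ 2 with hM
    have hM1 : 1 ≤ M := by
      have : 0 ≤ s ^ 4 * ‖d₀‖ ^ 2 := by positivity
      linarith
    have hM2 : M ≤ 2 := by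
      have := mul_le_one₀ (pow_le_one₀ hs0.le hs1 (n := 4)) (sq_nonneg ‖d₀‖) (by linarith)
      linarith
    set κ := σ * τ * s ^ 4 with hκ
    have hκ0 : 0 ≤ κ := by positivity
    have hκ1 : κ ≤ 1 := mul_le_one₀ (by linarith) ht.le (pow_le_one₀ hs0.le hs1)
    have V' : A ^ 2 ≤ M * (1 - κ / 8) := by nlinarith
    have P : A ^ 2 * B ^ 2 ≤ (1 - κ / 8) * (1 + 9 * s ^ 5) := by
      calc A ^ 2 * B ^ 2 ≤ M * (1 - κ / 8) * B ^ 2 := mul_le_mul_of_nonneg_right V' (sq_nonneg _)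
        _ = (1 - κ / 8) * (M * B ^ 2) := by ring
        _ ≤ _ := mul_le_mul_of_nonneg_left W (by linarith)
    have k6 := mul_le_mul_of_nonneg_right k2 ht.le
    have k7 : 0 ≤ κ * s ^ 5 := by positivity
    nlinarith [sq_nonneg (A * B - 1)]

theorem loc_all [FiniteDimensional 𝕜 X] (h : Model e) (x₀ : X) (hx₀ : ‖x₀‖ = 1) : Loc 𝕜 x₀ := by
  obtain ⟨a, b, hab, hQ⟩ := h.ex x₀
  rw [hx₀, one_pow] at hQ
  by_cases hb : b = 0
  swap
  · exact h.loc_exp x₀ hx₀ a b hab hb hQ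
  subst hb
  have hB := h.inB hx₀.le
  have ha : ‖a‖ ^ 2 = 1 := by simpa using hab
  have hx2 : ‖(e x₀).1‖ ^ 2 = 1 := by simpa [Q, mul_pow, ha] using hQ
  have hx : ‖(e x₀).1‖ = 1 := (pow_eq_one_iff_of_nonneg (norm_nonneg _) two_ne_zero).mp hx2
  have hy := hB.y_zero hx
  have hd := hB.yd
  rw [hy, hx] at hd
  by_cases hlt : ‖(e x₀).2.2‖ ^ 2 < 3 / 4
  · have hx0 : (e x₀).1 ≠ 0 := by intro h0; rw [h0] at hx; simp at hx
    have := (h.loc_face ((e x₀).1⁻¹ * (e x₀).2.2) (by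
      rw [norm_mul, norm_inv, hx]; simpa using hlt)).smul (e x₀).1 hx
    convert this
    apply e.injective
    rw [map_smul, e.apply_symm_apply]
    ext
    · simp
    · simp [hy]
    · simp [hx0]
  · refine h.loc_exp x₀ hx₀ 0 1 (by simp) one_ne_zero ?_
    simp only [Q, zero_mul, one_mul, zero_add, norm_one, one_pow, hy, hx, norm_zero]
    simp only [norm_zero] at hd
    linarith

/-- the projection -/
noncomputable def proj [FiniteDimensional 𝕜 X] (e : X ≃ₗ[𝕜] 𝕜 × 𝕜 × 𝕜) : X →L[𝕜] X :=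
  LinearMap.toContinuousLinearMap (e.symm.toLinearMap.comp
    (((LinearMap.fst 𝕜 𝕜 (𝕜 × 𝕜)).prod ((0 : 𝕜 × 𝕜 × 𝕜 →ₗ[𝕜] 𝕜).prod
      ((LinearMap.snd 𝕜 𝕜 𝕜).comp (LinearMap.snd 𝕜 𝕜 (𝕜 × 𝕜))))).comp e.toLinearMap))

theorem e_proj [FiniteDimensional 𝕜 X] (v : X) : e (proj e v) = ((e v).1, 0, (e v).2.2) := by
  simp [proj]

theorem proj_le [FiniteDimensional 𝕜 X] (h : Model e) (v : X) : ‖proj e v‖ ≤ ‖v‖ := by
  set u : X := e.symm ((e v).1, -(e v).2.1, (e v).2.2) with hu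
  have hu1 : ‖u‖ ≤ ‖v‖ := by
    obtain ⟨a, b, hab, hQ⟩ := h.ex u
    refine (pow_le_pow_iff_left₀ (norm_nonneg _) (norm_nonneg _) two_ne_zero).mp ?_
    have := h.le v a (-b) (by simpa using hab)
    rw [← hQ, hu, e.apply_symm_apply]
    simpa [Q] using this
  have : (2 : 𝕜) • proj e v = v + u := by
    apply e.injective
    rw [map_smul, map_add, e_proj, hu, e.apply_symm_apply]
    ext <;> simp [two_mul]
  have h2 := norm_add_le v u
  rw [← this, norm_smul] at h2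
  simp only [RCLike.norm_ofNat] at h2
  linarith

theorem flat_le (h : Model e) (v : X) (hx : ‖(e v).1‖ ≤ 1) (hy : (e v).2.1 = 0)
    (hd : ‖(e v).2.2‖ ^ 2 ≤ 3 / 4) : ‖v‖ ≤ 1 := by
  obtain ⟨a, b, hab, hQ⟩ := h.ex v
  have := Q_flat a b hab _ _ hx hd
  have e1 : e v = ((e v).1, 0, (e v).2.2) := by rw [← hy]
  rw [← e1, hQ] at this
  nlinarith [norm_nonneg v]

theorem d_le_norm (h : Model e) (v : X) : ‖(e v).2.2‖ ≤ ‖v‖ := by
  have := h.le v 0 1 (by simp)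
  simp only [Q, zero_mul, one_mul, zero_add, norm_one, one_pow] at this
  refine (pow_le_pow_iff_left₀ (norm_nonneg _) (norm_nonneg _) two_ne_zero).mp ?_
  nlinarith [sq_nonneg ‖(e v).2.1‖, sq_nonneg ‖(e v).1‖]

theorem neg [FiniteDimensional 𝕜 X] (h : Model e) :
    ∃ (Y : Type) (_ : NormedAddCommGroup Y) (_ : NormedSpace 𝕜 Y) (_ : CompleteSpace Y),
      ¬ BPBp 𝕜 (proj e).range Y := by
  have hmem : ∀ x d : 𝕜, e.symm (x, 0, d) ∈ (proj e).range := fun x d =>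
    ⟨e.symm (x, 0, d), e.injective (by
      change e (proj e _) = _
      rw [e_proj, e.apply_symm_apply])⟩
  have hy : ∀ u : (proj e).range, (e u).2.1 = 0 := by
    rintro ⟨u, v, rfl⟩
    change (e (proj e v)).2.1 = 0
    rw [e_proj]
  have : CompleteSpace (proj e).range := FiniteDimensional.complete 𝕜 _
  set φ : (proj e).range →L[𝕜] 𝕜 := LinearMap.toContinuousLinearMap
    ((2 : 𝕜) • ((LinearMap.snd 𝕜 𝕜 𝕜).comp ((LinearMap.snd 𝕜 𝕜 (𝕜 × 𝕜)).comp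
      (e.toLinearMap.comp (proj e).range.subtype)))) with hφ
  have hφv : ∀ u : (proj e).range, φ u = 2 * (e u).2.2 := fun u => by simp [hφ]
  refine exists_not_bpb φ ⟨_, hmem 1 0⟩ ⟨_, hmem 0 (1 / 2)⟩ ?_ (by simp [hφv]) (by simp [hφv])
    (1 / 4) (by norm_num) ?_
  · change ‖e.symm (1, 0, 0)‖ = 1
    refine le_antisymm (h.flat_le _ (by simp) (by simp) (by simp; norm_num)) ?_
    have := h.le (e.symm (1, 0, 0)) 1 0 (by simp)
    simp only [Q, e.apply_symm_apply] at this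
    simp at this
    nlinarith [norm_nonneg (e.symm (1, 0, 0))]
  · intro u hu hmu
    have hx := (h.inB (v := u) hu.le).x_le
    have hd : ‖(e u).2.2‖ ≤ 1 / 4 := by
      have := h.d_le_norm (e.symm (1, 0, 0) - u)
      simp only [map_sub, e.apply_symm_apply, Prod.snd_sub, zero_sub, norm_neg] at this
      exact this.trans hmu.le
    have hh : ‖(1 / 2 : 𝕜)‖ = 1 / 2 := by simp
    constructor
    · change ‖(u : X) + e.symm (0, 0, 1 / 2)‖ ≤ 1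
      refine h.flat_le _ (by simpa using hx) (by simpa using hy u) ?_
      have : ‖(e u).2.2 + 1 / 2‖ ≤ 3 / 4 := by
        have := norm_add_le (e u).2.2 (1 / 2); linarith
      simp only [map_add, e.apply_symm_apply, Prod.snd_add]
      nlinarith [norm_nonneg ((e u).2.2 + 1 / 2)]
    · change ‖(u : X) - e.symm (0, 0, 1 / 2)‖ ≤ 1
      refine h.flat_le _ (by simpa using hx) (by simpa using hy u) ?_
      have : ‖(e u).2.2 - 1 / 2‖ ≤ 3 / 4 := by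
        have := norm_sub_le (e u).2.2 (1 / 2); linarith
      simp only [map_sub, e.apply_symm_apply, Prod.snd_sub]
      nlinarith [norm_nonneg ((e u).2.2 - 1 / 2)]

end Model

/-- parameter space -/
abbrev Par (𝕜 : Type) [RCLike 𝕜] : Type := {q : 𝕜 × 𝕜 // ‖q.1‖ ^ 2 + ‖q.2‖ ^ 2 = 1}

theorem par_compact : CompactSpace (Par 𝕜) := by
  have : ProperSpace 𝕜 := FiniteDimensional.proper_rclike 𝕜 𝕜
  refine (isCompact_iff_compactSpace (s := {q : 𝕜 × 𝕜 | ‖q.1‖ ^ 2 + ‖q.2‖ ^ 2 = 1})).mp ?_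
  refine (isCompact_closedBall (0 : 𝕜 × 𝕜) 1).of_isClosed_subset
    (isClosed_eq (by fun_prop) continuous_const) ?_
  intro q hq
  have hq' : ‖q.1‖ ^ 2 + ‖q.2‖ ^ 2 = 1 := hq
  rw [mem_closedBall_zero_iff, Prod.norm_def, max_le_iff]
  constructor
  · nlinarith [norm_nonneg q.1, sq_nonneg ‖q.2‖]
  · nlinarith [norm_nonneg q.2, sq_nonneg ‖q.1‖]

/-- the embedding -/
noncomputable def Phi (𝕜 : Type) [RCLike 𝕜] :
    (𝕜 × 𝕜 × 𝕜) →ₗ[𝕜] C(Par 𝕜, EuclideanSpace 𝕜 (Fin 3)) where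
  toFun p := ⟨fun q => Lab q.1.1 q.1.2 p, by
    change Continuous fun q : Par 𝕜 => (!₂[q.1.1 * p.1 + q.1.2 * p.2.1, q.1.2 ^ 2 * p.2.2,
      q.1.2 ^ 3 * p.1 / 2] : EuclideanSpace 𝕜 (Fin 3))
    fun_prop⟩
  map_add' u v := by ext q; simp
  map_smul' t v := by ext q; simp

theorem exists_model (𝕜 : Type) [RCLike 𝕜] :
    ∃ (X : Type) (_ : NormedAddCommGroup X) (_ : NormedSpace 𝕜 X) (e : X ≃ₗ[𝕜] 𝕜 × 𝕜 × 𝕜),
      Model e := by
  have := par_compact (𝕜 := 𝕜)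
  have q0 : Par 𝕜 := ⟨(0, 1), by simp⟩
  have hinj : Function.Injective (Phi 𝕜) := by
    intro u v huv
    exact Lab_inj (0 : 𝕜) 1 one_ne_zero
      (congrArg (fun f : C(Par 𝕜, EuclideanSpace 𝕜 (Fin 3)) => f ⟨(0, 1), by simp⟩) huv)
  have key : ∀ v : (Phi 𝕜).range, Phi 𝕜 ((LinearEquiv.ofInjective _ hinj).symm v) = v :=
    fun v => by simp
  refine ⟨(Phi 𝕜).range, inferInstance, inferInstance, (LinearEquiv.ofInjective _ hinj).symm,
    fun v a b hab => ?_, fun v => ?_⟩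
  · rw [← Lab_norm]
    refine pow_le_pow_left₀ (norm_nonneg _) ?_ 2
    have := (v : C(Par 𝕜, EuclideanSpace 𝕜 (Fin 3))).norm_coe_le_norm ⟨(a, b), hab⟩
    rw [← key v] at this
    rw [Submodule.coe_norm, ← key v]
    exact this
  · obtain ⟨q, -, hq⟩ := isCompact_univ.exists_isMaxOn ⟨q0, Set.mem_univ _⟩
      (f := fun q => ‖(v : C(Par 𝕜, EuclideanSpace 𝕜 (Fin 3))) q‖) (by fun_prop)
    refine ⟨q.1.1, q.1.2, q.2, ?_⟩
    rw [← Lab_norm]
    congr 1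
    have h1 : ‖(v : C(Par 𝕜, EuclideanSpace 𝕜 (Fin 3))) q‖ = ‖v‖ :=
      le_antisymm (ContinuousMap.norm_coe_le_norm _ _)
        ((ContinuousMap.norm_le _ (norm_nonneg _)).mpr fun r => hq (Set.mem_univ r))
    rw [← h1, ← key v]
    simp [Phi]

end Pool.Agent.H248Z.Bpb
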