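import Mathlib

namespace Pool.Agent.H248Z.Bpb

variable {𝕜 : Type*} [RCLike 𝕜]

/-- the quadratic forms whose supremum is the squared norm -/
noncomputable def Q (a b : 𝕜) (p : 𝕜 × 𝕜 × 𝕜) : ℝ :=
  ‖a * p.1 + b * p.2.1‖ ^ 2 + ‖b‖ ^ 4 * ‖p.2.2‖ ^ 2 + ‖b‖ ^ 6 * ‖p.1‖ ^ 2 / 4

theorem rot_norm (a b : 𝕜) (c s : ℝ) (h : c ^ 2 + s ^ 2 = 1) :
    ‖a * c - b * s‖ ^ 2 + ‖a * s + b * c‖ ^ 2 = ‖a‖ ^ 2 + ‖b‖ ^ 2 := by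
  simp only [RCLike.norm_sq_eq_def, map_sub, map_add, RCLike.mul_re, RCLike.mul_im,
    RCLike.ofReal_re, RCLike.ofReal_im]
  linear_combination (RCLike.re a ^ 2 + RCLike.im a ^ 2 + RCLike.re b ^ 2 + RCLike.im b ^ 2) * h

theorem lagrange (ξ d d₀ : 𝕜) (t : ℝ) :
    ‖ξ + t * (starRingEnd 𝕜) d₀ * d‖ ^ 2 + t * ‖d - ξ * d₀‖ ^ 2
      = (‖ξ‖ ^ 2 + t * ‖d‖ ^ 2) * (1 + t * ‖d₀‖ ^ 2) := by
  simp only [RCLike.norm_sq_eq_def, map_sub, map_add, RCLike.mul_re, RCLike.mul_im,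
    RCLike.ofReal_re, RCLike.ofReal_im, RCLike.conj_re, RCLike.conj_im]
  ring

theorem convex_sq (p q : 𝕜) (σ : ℝ) (h0 : 0 ≤ σ) (h1 : σ ≤ 1) :
    ‖((1 - σ : ℝ) : 𝕜) * p + σ * q‖ ^ 2 ≤ (1 - σ) * ‖p‖ ^ 2 + σ * ‖q‖ ^ 2 := by
  have h : ‖((1 - σ : ℝ) : 𝕜) * p + σ * q‖ ≤ (1 - σ) * ‖p‖ + σ * ‖q‖ := by
    refine (norm_add_le _ _).trans ?_
    rw [norm_mul, norm_mul, RCLike.norm_ofReal, RCLike.norm_ofReal, abs_of_nonneg h0,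
      abs_of_nonneg (by linarith)]
  have h2 := pow_le_pow_left₀ (norm_nonneg _) h 2
  have h3 := mul_nonneg (mul_nonneg h0 (show 0 ≤ 1 - σ by linarith)) (sq_nonneg (‖p‖ - ‖q‖))
  linarith

/-- membership in the unit ball, in coordinates -/
def InB (p : 𝕜 × 𝕜 × 𝕜) : Prop := ∀ a b : 𝕜, ‖a‖ ^ 2 + ‖b‖ ^ 2 = 1 → Q a b p ≤ 1

theorem InB.x_le {p : 𝕜 × 𝕜 × 𝕜} (h : InB p) : ‖p.1‖ ≤ 1 := by
  have := h 1 0 (by simp)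
  simp only [Q, one_mul, zero_mul, add_zero, norm_zero] at this
  nlinarith [norm_nonneg p.1]

theorem InB.yd {p : 𝕜 × 𝕜 × 𝕜} (h : InB p) :
    ‖p.2.1‖ ^ 2 + ‖p.2.2‖ ^ 2 + ‖p.1‖ ^ 2 / 4 ≤ 1 := by
  have := h 0 1 (by simp)
  simpa [Q] using this

theorem InB.y_le {p : 𝕜 × 𝕜 × 𝕜} (h : InB p) : ‖p.2.1‖ ≤ 1 := by
  have := h.yd
  nlinarith [norm_nonneg p.2.1, sq_nonneg ‖p.2.2‖, sq_nonneg ‖p.1‖]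

theorem InB.d_le {p : 𝕜 × 𝕜 × 𝕜} (h : InB p) : ‖p.2.2‖ ≤ 1 := by
  have := h.yd
  nlinarith [norm_nonneg p.2.2, sq_nonneg ‖p.2.1‖, sq_nonneg ‖p.1‖]

theorem InB.y_zero {p : 𝕜 × 𝕜 × 𝕜} (h : InB p) (hx : ‖p.1‖ = 1) : p.2.1 = 0 := by
  set r := Real.sqrt (1 + ‖p.2.1‖ ^ 2) with hr
  have hr2 : r ^ 2 = 1 + ‖p.2.1‖ ^ 2 := Real.sq_sqrt (by positivity)
  have hr0 : 0 < r := Real.sqrt_pos.mpr (by positivity)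
  have h1 := h (((r⁻¹ : ℝ) : 𝕜) * (starRingEnd 𝕜) p.1) (((r⁻¹ : ℝ) : 𝕜) * (starRingEnd 𝕜) p.2.1) (by
    rw [norm_mul, norm_mul, RCLike.norm_conj, RCLike.norm_conj, RCLike.norm_ofReal,
      abs_of_pos (inv_pos.mpr hr0), hx]
    field_simp
    linarith)
  have h2 : ((r⁻¹ : ℝ) : 𝕜) * (starRingEnd 𝕜) p.1 * p.1
      + ((r⁻¹ : ℝ) : 𝕜) * (starRingEnd 𝕜) p.2.1 * p.2.1 = (r : 𝕜) := by
    rw [mul_assoc, mul_assoc, RCLike.conj_mul, RCLike.conj_mul, hx, ← mul_add]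
    norm_cast
    field_simp
    push_cast
    linarith
  have h3 : r ^ 2 ≤ 1 := by
    unfold Q at h1
    rw [h2, RCLike.norm_ofReal, abs_of_pos hr0] at h1
    have := h1
    have a1 : 0 ≤ ‖((r⁻¹ : ℝ) : 𝕜) * (starRingEnd 𝕜) p.2.1‖ ^ 4 * ‖p.2.2‖ ^ 2 := by positivity
    have a2 : 0 ≤ ‖((r⁻¹ : ℝ) : 𝕜) * (starRingEnd 𝕜) p.2.1‖ ^ 6 * ‖p.1‖ ^ 2 / 4 := by positivity
    linarith
  have : ‖p.2.1‖ ^ 2 = 0 := by nlinarith [sq_nonneg ‖p.2.1‖]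
  simpa using this

theorem Q_le (a b : 𝕜) (hab : ‖a‖ ^ 2 + ‖b‖ ^ 2 = 1) (p : 𝕜 × 𝕜 × 𝕜) :
    Q a b p ≤ (2 * (‖p.1‖ + ‖p.2.1‖ + ‖p.2.2‖)) ^ 2 := by
  have ha : ‖a‖ ≤ 1 := by nlinarith [norm_nonneg a, sq_nonneg ‖b‖]
  have hb : ‖b‖ ≤ 1 := by nlinarith [norm_nonneg b, sq_nonneg ‖a‖]
  have h1 : ‖a * p.1 + b * p.2.1‖ ≤ ‖p.1‖ + ‖p.2.1‖ := by
    refine (norm_add_le _ _).trans ?_
    rw [norm_mul, norm_mul]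
    exact add_le_add (mul_le_of_le_one_left (norm_nonneg _) ha)
      (mul_le_of_le_one_left (norm_nonneg _) hb)
  have h2 := pow_le_pow_left₀ (norm_nonneg _) h1 2
  have h3 : ‖b‖ ^ 4 * ‖p.2.2‖ ^ 2 ≤ ‖p.2.2‖ ^ 2 :=
    mul_le_of_le_one_left (by positivity) (pow_le_one₀ (norm_nonneg _) hb)
  have h4 : ‖b‖ ^ 6 * ‖p.1‖ ^ 2 ≤ ‖p.1‖ ^ 2 :=
    mul_le_of_le_one_left (by positivity) (pow_le_one₀ (norm_nonneg _) hb)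
  unfold Q
  have := mul_nonneg (norm_nonneg p.1) (norm_nonneg p.2.1)
  have := mul_nonneg (norm_nonneg p.1) (norm_nonneg p.2.2)
  have := mul_nonneg (norm_nonneg p.2.1) (norm_nonneg p.2.2)
  nlinarith [sq_nonneg ‖p.1‖, sq_nonneg ‖p.2.1‖, sq_nonneg ‖p.2.2‖]

theorem Q_flat (a b : 𝕜) (hab : ‖a‖ ^ 2 + ‖b‖ ^ 2 = 1) (x d : 𝕜) (hx : ‖x‖ ≤ 1)
    (hd : ‖d‖ ^ 2 ≤ 3 / 4) : Q a b (x, 0, d) ≤ 1 := by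
  have hb : ‖b‖ ≤ 1 := by nlinarith [norm_nonneg b, sq_nonneg ‖a‖]
  have hx2 : ‖x‖ ^ 2 ≤ 1 := pow_le_one₀ (norm_nonneg _) hx
  simp only [Q, mul_zero, add_zero, norm_mul, mul_pow]
  have h1 : ‖a‖ ^ 2 * ‖x‖ ^ 2 ≤ ‖a‖ ^ 2 := mul_le_of_le_one_right (by positivity) hx2
  have h2 : ‖b‖ ^ 6 * ‖x‖ ^ 2 ≤ ‖b‖ ^ 6 := mul_le_of_le_one_right (by positivity) hx2
  have h3 : ‖b‖ ^ 2 * ‖b‖ ^ 4 ≤ ‖b‖ ^ 2 :=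
    mul_le_of_le_one_right (by positivity) (pow_le_one₀ (norm_nonneg _) hb)
  have h4 : ‖b‖ ^ 2 * ‖b‖ ^ 2 ≤ ‖b‖ ^ 2 :=
    mul_le_of_le_one_right (by positivity) (pow_le_one₀ (norm_nonneg _) hb)
  have h5 := mul_le_mul_of_nonneg_left hd (show 0 ≤ ‖b‖ ^ 4 by positivity)
  linarith

end Pool.Agent.H248Z.Bpb
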