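import Pool.Agent.H953Z.St

/- Ergodic times Bernoulli is ergodic. -/

set_option autoImplicit false
open MeasureTheory Filter Set Topology
open scoped ENNReal
open Pool.Agent.H953Z

namespace Pool.Agent.H248Z.ErgBern

theorem dyn {X : Type} [mX : MeasurableSpace X] (P : Measure X) [IsFiniteMeasure P]
    (μ ν : ℕ → Measure X) (hμ : ∀ n, μ n ≤ P) (hν : ∀ n, ν n ≤ P) (s : Set (Set X))
    (hgen : mX = MeasurableSpace.generateFrom s) (hpi : IsPiSystem s)
    (huniv : ∀ n, μ n univ = ν n univ)
    (hs : ∀ D ∈ s, ∀ᶠ n in atTop, μ n D = ν n D) (D : Set X) (hD : MeasurableSet D) :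
    Tendsto (fun n => (μ n).real D - (ν n).real D) atTop (𝓝 0) := by
  have fμ : ∀ n, IsFiniteMeasure (μ n) := fun n => isFiniteMeasure_of_le P (hμ n)
  have fν : ∀ n, IsFiniteMeasure (ν n) := fun n => isFiniteMeasure_of_le P (hν n)
  induction D, hD using MeasurableSpace.induction_on_inter hgen hpi with
  | empty => simp
  | basic t ht =>
    refine tendsto_const_nhds.congr' ?_
    filter_upwards [hs t ht] with n hn
    simp [Measure.real, hn]
  | compl t htm ih =>
    have h := ih.neg
    rw [neg_zero] at h
    refine h.congr fun n => ?_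
    have := fμ n
    have := fν n
    rw [measureReal_compl htm, measureReal_compl htm]
    have : (μ n).real univ = (ν n).real univ := by simp [Measure.real, huniv n]
    linarith
  | iUnion f hd hm ih =>
    have hsum : Summable fun i => P.real (f i) := by
      refine ENNReal.summable_toReal ?_
      rw [← measure_iUnion hd hm]
      exact measure_ne_top _ _
    have key : ∀ (ρ : Measure X) [IsFiniteMeasure ρ], HasSum (fun i => ρ.real (f i))
        (ρ.real (⋃ i, f i)) := by
      intro ρ _
      have h1 : ∑' i, ρ (f i) ≠ ⊤ := by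
        rw [← measure_iUnion hd hm]
        exact measure_ne_top _ _
      have := ENNReal.hasSum_toReal h1
      rw [← ENNReal.tsum_toReal_eq (fun i => measure_ne_top _ _), ← measure_iUnion hd hm] at this
      exact this
    have h := tendsto_tsum_of_dominated_convergence (𝓕 := atTop)
      (f := fun n i => (μ n).real (f i) - (ν n).real (f i)) (g := fun _ => (0 : ℝ))
      (bound := fun i => P.real (f i)) hsum ih (Eventually.of_forall fun n i => by
        have h1 : (μ n).real (f i) ≤ P.real (f i) :=
          ENNReal.toReal_mono (measure_ne_top _ _) (hμ n _)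
        have h2 : (ν n).real (f i) ≤ P.real (f i) :=
          ENNReal.toReal_mono (measure_ne_top _ _) (hν n _)
        have h3 : 0 ≤ (μ n).real (f i) := measureReal_nonneg
        have h4 : 0 ≤ (ν n).real (f i) := measureReal_nonneg
        rw [Real.norm_eq_abs, abs_le]
        constructor <;> linarith)
    rw [tsum_zero] at h
    refine h.congr fun n => ?_
    have := fμ n
    have := fν n
    exact ((key (μ n)).sub (key (ν n))).tsum_eq

variable {C : Type} [MeasurableSpace C]

omit [MeasurableSpace C] in
theorem shift_iter (n : ℕ) (x : ℤ → C) (i : ℤ) : (shift^[n] x) i = x (i + n) := by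
  induction n generalizing x i with
  | zero => simp
  | succ n ih =>
    rw [Function.iterate_succ_apply', shift, ih]
    congr 1
    push_cast
    ring

omit [MeasurableSpace C] in
theorem pre_iter (n : ℕ) (s : Finset ℤ) (t : ℤ → Set C) :
    shift^[n] ⁻¹' Set.pi (s : Set ℤ) t =
      Set.pi ((s.image fun i => i + n : Finset ℤ) : Set ℤ) (fun i => t (i - n)) := by
  ext x
  simp only [Set.mem_preimage, Set.mem_pi, shift_iter, Finset.coe_image, Set.forall_mem_image,
    add_sub_cancel_right]

theorem meas_shift : Measurable (shift : (ℤ → C) → ℤ → C) :=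
  measurable_pi_lambda _ fun _ => measurable_pi_apply _

theorem mp_shift (κ : Measure C) [IsProbabilityMeasure κ] :
    MeasurePreserving (shift : (ℤ → C) → ℤ → C) (Measure.infinitePi fun _ : ℤ => κ)
      (Measure.infinitePi fun _ : ℤ => κ) := by
  refine ⟨meas_shift, Measure.eq_infinitePi _ fun s t ht => ?_⟩
  rw [Measure.map_apply meas_shift (MeasurableSet.pi s.countable_toSet fun i _ => ht i)]
  have := pre_iter 1 s t
  rw [Function.iterate_one] at this
  rw [this, Measure.infinitePi_pi _ (fun i _ => ht _), Finset.prod_image (by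
    intro a _ b _ hab
    simpa using hab)]
  simp

theorem indep_box (κ : Measure C) [IsProbabilityMeasure κ] (s s' : Finset ℤ) (t t' : ℤ → Set C)
    (ht : ∀ i, MeasurableSet (t i)) (ht' : ∀ i, MeasurableSet (t' i)) (hd : Disjoint s s') :
    (Measure.infinitePi fun _ : ℤ => κ) (Set.pi s t ∩ Set.pi s' t') =
      (Measure.infinitePi fun _ : ℤ => κ) (Set.pi s t) *
        (Measure.infinitePi fun _ : ℤ => κ) (Set.pi s' t') := by
  classical
  have h1 : Set.pi (s : Set ℤ) t ∩ Set.pi s' t' =
      Set.pi ((s ∪ s' : Finset ℤ) : Set ℤ) (fun i => if i ∈ s then t i else t' i) := by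
    rw [Finset.coe_union, Set.union_pi]
    congr 1
    · exact Set.pi_congr rfl fun i hi => by rw [if_pos (by exact_mod_cast hi)]
    · refine Set.pi_congr rfl fun i hi => ?_
      rw [if_neg (Finset.disjoint_right.1 hd (by exact_mod_cast hi))]
  rw [h1, Measure.infinitePi_pi _ (fun i _ => by split_ifs; exacts [ht i, ht' i]),
    Measure.infinitePi_pi _ (fun i _ => ht i), Measure.infinitePi_pi _ (fun i _ => ht' i),
    Finset.prod_union hd]
  congr 1
  · exact Finset.prod_congr rfl fun i hi => by rw [if_pos hi]
  · exact Finset.prod_congr rfl fun i hi => by rw [if_neg (Finset.disjoint_right.1 hd hi)]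

theorem ev_disj (s s' : Finset ℤ) :
    ∀ᶠ n : ℕ in atTop, Disjoint s (s'.image fun i => i + (n : ℤ)) := by
  have : ∀ᶠ n : ℕ in atTop, ∀ a ∈ s, ∀ b ∈ s', a - b < (n : ℤ) := by
    simp only [eventually_all_finset]
    intro a _ b _
    exact tendsto_natCast_atTop_atTop.eventually_gt_atTop _
  filter_upwards [this] with n hn
  rw [Finset.disjoint_left]
  intro a ha hb
  obtain ⟨b, hb', rfl⟩ := Finset.mem_image.1 hb
  have := hn _ ha _ hb'
  omega

theorem thm_erg : S_erg := by
  intro Ω C _ _ m _ κ _ S hS
  set β : Measure (ℤ → C) := Measure.infinitePi fun _ : ℤ => κ with hβ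
  set T : Ω × (ℤ → C) → Ω × (ℤ → C) := fun p => (S p.1, shift p.2) with hT
  have hTm : MeasurePreserving T (m.prod β) (m.prod β) :=
    hS.toMeasurePreserving.prod (mp_shift κ)
  have hTn : ∀ n : ℕ, T^[n] = Prod.map S^[n] shift^[n] := fun n => Prod.map_iterate S shift n
  set Cy : Set (Set (ℤ → C)) := squareCylinders fun _ : ℤ => {s : Set C | MeasurableSet s}
    with hCy
  have hgenC : MeasurableSpace.generateFrom Cy = MeasurableSpace.pi :=
    generateFrom_squareCylinders
  have hpiC : IsPiSystem Cy :=
    isPiSystem_squareCylinders (fun _ => MeasurableSpace.isPiSystem_measurableSet) (by simp)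
  have hunivC : (univ : Set (ℤ → C)) ∈ Cy := ⟨∅, fun _ => univ, by simp, by simp⟩
  have hgen : (Prod.instMeasurableSpace : MeasurableSpace (Ω × (ℤ → C))) =
      MeasurableSpace.generateFrom (image2 (· ×ˢ ·) {U : Set Ω | MeasurableSet U} Cy) :=
    (generateFrom_eq_prod MeasurableSpace.generateFrom_measurableSet hgenC
      isCountablySpanning_measurableSet ⟨fun _ => univ, fun _ => hunivC, iUnion_const _⟩).symm
  have hpi : IsPiSystem (image2 (· ×ˢ ·) {U : Set Ω | MeasurableSet U} Cy) :=
    MeasurableSpace.isPiSystem_measurableSet.prod hpiC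
  refine ⟨hTm, ⟨fun A hA hinv => ?_⟩⟩
  have hAn : ∀ n : ℕ, T^[n] ⁻¹' A = A := fun n =>
    Function.IsFixedPt.preimage_iterate hinv n
  have step1 : ∀ U : Set Ω, MeasurableSet U → ∀ Z ∈ Cy,
      (m.prod β) (A ∩ U ×ˢ Z) = β Z * (m.prod β) (A ∩ U ×ˢ univ) := by
    rintro U hU Z ⟨s, t, ht, rfl⟩
    have ht' : ∀ i, MeasurableSet (t i) := fun i => ht i (mem_univ i)
    have hZ : MeasurableSet (Set.pi (s : Set ℤ) t) :=
      MeasurableSet.pi s.countable_toSet fun i _ => ht' i
    have hβ1 : β (Set.pi (s : Set ℤ) t) ≤ 1 := prob_le_one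
    have hle : ∀ (n : ℕ) (B : Set (Ω × (ℤ → C))),
        ((m.prod β).restrict B).map T^[n] ≤ m.prod β := fun n B => by
      have := Measure.map_mono (Measure.restrict_le_self (μ := m.prod β) (s := B))
        (hTm.iterate n).measurable
      rwa [(hTm.iterate n).map_eq] at this
    have h := dyn (m.prod β)
      (fun n => ((m.prod β).restrict (U ×ˢ Set.pi (s : Set ℤ) t)).map T^[n])
      (fun n => β (Set.pi (s : Set ℤ) t) • ((m.prod β).restrict (U ×ˢ univ)).map T^[n])
      (fun n => hle n _)
      (fun n => Measure.le_iff'.2 fun D => by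
        rw [Measure.smul_apply, smul_eq_mul]
        exact (mul_le_of_le_one_left' hβ1).trans (hle n _ D))
      _ hgen hpi
      (fun n => by
        rw [Measure.smul_apply, Measure.map_apply (hTm.iterate n).measurable MeasurableSet.univ,
          Measure.map_apply (hTm.iterate n).measurable MeasurableSet.univ]
        simp [Measure.prod_prod, mul_comm])
      (by
        rintro _ ⟨V, hV, _, ⟨s', t', ht2, rfl⟩, rfl⟩
        have ht2' : ∀ i, MeasurableSet (t' i) := fun i => ht2 i (mem_univ i)
        have hY : MeasurableSet (Set.pi (s' : Set ℤ) t') :=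
          MeasurableSet.pi s'.countable_toSet fun i _ => ht2' i
        have hVY : MeasurableSet (V ×ˢ Set.pi (s' : Set ℤ) t') := MeasurableSet.prod hV hY
        filter_upwards [ev_disj s s'] with n hn
        rw [Measure.smul_apply, Measure.map_apply (hTm.iterate n).measurable hVY,
          Measure.map_apply (hTm.iterate n).measurable hVY,
          Measure.restrict_apply ((hTm.iterate n).measurable hVY),
          Measure.restrict_apply ((hTm.iterate n).measurable hVY), hTn, Set.preimage_prod_map_prod,
          Set.prod_inter_prod, Set.prod_inter_prod, Measure.prod_prod, Measure.prod_prod,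
          inter_univ, pre_iter, inter_comm (Set.pi _ _),
          indep_box κ _ _ _ _ ht' (fun i => ht2' _) hn, smul_eq_mul]
        ring)
      A hA
    have hc : ∀ (n : ℕ) (B : Set (Ω × (ℤ → C))),
        (((m.prod β).restrict B).map T^[n]) A = (m.prod β) (A ∩ B) := fun n B => by
      rw [Measure.map_apply (hTm.iterate n).measurable hA, hAn, Measure.restrict_apply hA]
    simp only [Measure.real, Measure.smul_apply, hc, smul_eq_mul] at h
    have h0 := tendsto_nhds_unique tendsto_const_nhds h
    exact (ENNReal.toReal_eq_toReal_iff' (measure_ne_top _ _)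
      (ENNReal.mul_ne_top (measure_ne_top _ _) (measure_ne_top _ _))).1 (sub_eq_zero.1 h0)
  have hres : MeasurePreserving T ((m.prod β).restrict A) ((m.prod β).restrict A) := by
    have := hTm.restrict_preimage hA
    rwa [hinv] at this
  set ν : Measure Ω := ((m.prod β).restrict A).map Prod.fst with hν
  have hνS : MeasurePreserving S ν ν := by
    refine ⟨hS.measurable, ?_⟩
    rw [hν, Measure.map_map hS.measurable measurable_fst]
    have : S ∘ Prod.fst = Prod.fst ∘ T := rfl
    rw [this, ← Measure.map_map measurable_fst hTm.measurable, hres.map_eq]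
  have hνU : ∀ U : Set Ω, MeasurableSet U → ν U = (m.prod β) (A ∩ U ×ˢ univ) := fun U hU => by
    rw [hν, Measure.map_apply measurable_fst hU, Measure.restrict_apply (measurable_fst hU),
      inter_comm, Set.prod_univ]
  have hac : ν ≪ m := Measure.AbsolutelyContinuous.mk fun U hU h0 => by
    rw [hνU U hU]
    refine measure_mono_null inter_subset_right ?_
    rw [Measure.prod_prod, h0, zero_mul]
  obtain ⟨c, hc⟩ := hS.eq_smul_of_absolutelyContinuous hνS hac
  have hfin : (m.prod β).restrict A = c • m.prod β := by
    refine ext_of_generate_finite _ hgen hpi ?_ ?_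
    · rintro _ ⟨U, hU, Z, hZ, rfl⟩
      rw [Measure.restrict_apply' hA, inter_comm, step1 U hU Z hZ, ← hνU U hU, hc,
        Measure.smul_apply, Measure.smul_apply, Measure.prod_prod, smul_eq_mul, smul_eq_mul]
      ring
    · have := hνU univ MeasurableSet.univ
      rw [hc, univ_prod_univ, inter_univ] at this
      simp [← this]
  rw [eventuallyConst_set']
  by_cases hc0 : c = 0
  · left
    rw [ae_eq_empty]
    have := congrArg (fun ρ : Measure (Ω × (ℤ → C)) => ρ A) hfin
    simpa [hc0] using this
  · right
    rw [ae_eq_univ]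
    have := congrArg (fun ρ : Measure (Ω × (ℤ → C)) => ρ Aᶜ) hfin
    simp only [Measure.restrict_apply hA.compl, compl_inter_self, measure_empty,
      Measure.smul_apply, smul_eq_mul] at this
    exact (mul_eq_zero.1 this.symm).resolve_left hc0

end Pool.Agent.H248Z.ErgBern
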