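import Mathlib

namespace Pool.Agent.H248Z.MD

open MeasureTheory Set
open scoped symmDiff

/-- Lebesgue measure on the unit interval. -/
noncomputable abbrev lam : Measure unitInterval := volume

/-- Invertible Lebesgue measure preserving Borel transformations of the unit interval. -/
abbrev Pre : Type := {T : unitInterval ≃ᵐ unitInterval // MeasurePreserving T lam lam}

/-- Equality almost everywhere. -/
def aeSetoid : Setoid Pre where
  r S T := ∀ᵐ x ∂lam, S.1 x = T.1 x
  iseqv := ⟨fun _ => Filter.Eventually.of_forall fun _ => rfl,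
    fun h => h.mono fun _ hx => hx.symm,
    fun h1 h2 => (h1.and h2).mono fun _ hx => hx.1.trans hx.2⟩

/-- The group MPT: transformations identified when they agree almost everywhere. -/
def MPT : Type := Quotient aeSetoid

/-- The class of a transformation. -/
def cls (T : Pre) : MPT := Quotient.mk aeSetoid T

/-- The weak topology, generated by the sets of all S with lam (S A ∆ T A) < ε. -/
instance weakTopology : TopologicalSpace MPT :=
  TopologicalSpace.generateFrom {U | ∃ (T : Pre) (A : Set unitInterval) (ε : ENNReal),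
    MeasurableSet A ∧ U = {q | ∃ S : Pre, cls S = q ∧ lam ((S.1 '' A) ∆ (T.1 '' A)) < ε}}

/-- The ergodic elements of MPT, with the subspace topology. -/
abbrev EMPT : Type := {q : MPT // ∃ T : Pre, cls T = q ∧ Ergodic T.1 lam}

/-- Measure conjugacy. -/
def MConj (p q : MPT) : Prop :=
  ∃ S T φ : Pre, cls S = p ∧ cls T = q ∧ ∀ᵐ x ∂lam, S.1 x = φ.1 (T.1 (φ.1.symm x))

/-- The n-th power, n an integer. -/
def iter (T : Pre) (n : ℤ) : unitInterval → unitInterval :=
  ⇑((T.1.toEquiv : Equiv.Perm unitInterval) ^ n)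

/-- Inclusion of σ-algebras modulo null sets. -/
def SubMod (A B : MeasurableSpace unitInterval) : Prop :=
  ∀ s, MeasurableSet[A] s → ∃ t, MeasurableSet[B] t ∧ s =ᵐ[lam] t

/-- A factor: a sub-σ-algebra of the Borel sets invariant under T and its inverse mod null sets. -/
def IsFactor (T : Pre) (A : MeasurableSpace unitInterval) : Prop :=
  A ≤ borel unitInterval ∧ ∀ s, MeasurableSet[A] s →
    (∃ t, MeasurableSet[A] t ∧ T.1 ⁻¹' s =ᵐ[lam] t) ∧ ∃ t, MeasurableSet[A] t ∧ T.1 '' s =ᵐ[lam] t

/-- f is almost periodic over the factor A inside the factor B (Furstenberg). -/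
def AlmostPeriodic (T : Pre) (A B : MeasurableSpace unitInterval) (f : unitInterval → ℂ) : Prop :=
  ∀ δ : ℝ, 0 < δ → ∃ (k : ℕ) (g : Fin k → unitInterval → ℂ),
    (∀ j, MemLp (g j) 2 lam ∧ AEStronglyMeasurable[B] (g j) lam) ∧
    ∀ n : ℤ, ∀ᵐ x ∂lam, ∃ j, (lam[fun y => ‖f (iter T n y) - g j y‖ ^ 2 | A]) x < δ ^ 2

/-- B is a compact (isometric) extension of A: almost periodic functions are dense in L²(B). -/
def CompactExt (T : Pre) (A B : MeasurableSpace unitInterval) : Prop :=
  ∀ f : unitInterval → ℂ, MemLp f 2 lam → AEStronglyMeasurable[B] f lam →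
    ∀ ε : ENNReal, 0 < ε → ∃ f' : unitInterval → ℂ, MemLp f' 2 lam ∧
      AEStronglyMeasurable[B] f' lam ∧ AlmostPeriodic T A B f' ∧ eLpNorm (f - f') 2 lam < ε

/-- Measure distality in the sense of Furstenberg and Zimmer. -/
def MDistal (q : MPT) : Prop :=
  ∃ T : Pre, cls T = q ∧ ∃ (η : Ordinal.{0}) (F : Ordinal.{0} → MeasurableSpace unitInterval),
    (∀ α ≤ η, IsFactor T (F α)) ∧
    (∀ α β, α ≤ β → β ≤ η → SubMod (F α) (F β)) ∧
    SubMod (F 0) ⊥ ∧ SubMod (borel unitInterval) (F η) ∧
    (∀ α < η, CompactExt T (F α) (F (α + 1))) ∧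
    ∀ α ≤ η, Order.IsSuccLimit α → SubMod (F α) (⨆ β < α, F β)

end Pool.Agent.H248Z.MD
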