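import Pool.Agent.H248Z.MDistalDefs
import Pool.Agent.H248Z.AffTop

namespace Pool.Agent.H248Z.MD

open MeasureTheory Set Filter
open Pool.Agent.H248Z.Aff

variable {I : Type}

/-- restriction -/
def rs (J : Set I) (x : K I) : K J := fun i => x i

theorem measurable_rs (J : Set I) : Measurable (rs J) :=
  measurable_pi_lambda _ fun _ => measurable_pi_apply _

/-- the inverse -/
def tinv (T : Pre) : unitInterval → unitInterval := T.1.symm

theorem lam_borel : (Subtype.instMeasurableSpace : MeasurableSpace unitInterval)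
    = borel unitInterval := BorelSpace.measurable_eq

/-- σ-algebra generated by the coordinates in J -/
@[reducible] noncomputable def FJ (π : unitInterval → K I) (J : Set I) :
    MeasurableSpace unitInterval :=
  MeasurableSpace.comap (fun x => rs J (π x)) inferInstance

theorem meas_pr (π : unitInterval → K I) (J : Set I) (γ : G I)
    (hγ : γ ∈ Finsupp.supported ℤ ℤ J) : Measurable[FJ π J] fun x => pr (π x) γ := by
  rw [Finsupp.supported_eq_span_single] at hγ
  induction hγ using Submodule.span_induction with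
  | mem γ hγ =>
    obtain ⟨i, hi, rfl⟩ := hγ
    simp only [pr_single]
    exact (measurable_pi_apply (⟨i, hi⟩ : J)).comp
      (comap_measurable (fun x => rs J (π x)))
  | zero => simpa using measurable_const
  | add a b _ _ ha hb => simp only [map_add]; exact ha.add hb
  | smul n a _ ha => simp only [map_zsmul]; exact ha.const_smul n

theorem meas_aff (π : unitInterval → K I) (J : Set I) (S : unitInterval → unitInterval)
    (Φ : G I →ₗ[ℤ] G I) (c : G I →ₗ[ℤ] UnitAddCircle) (hS : ∀ x, π (S x) = aff Φ c (π x))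
    (hΦ : ∀ γ ∈ Finsupp.supported ℤ ℤ J, Φ γ ∈ Finsupp.supported ℤ ℤ J) :
    Measurable[FJ π J, FJ π J] S := by
  rw [measurable_comap_iff]
  refine @measurable_pi_lambda _ _ _ (FJ π J) _ _ fun i => ?_
  simp only [Function.comp_apply, rs, hS, aff]
  exact (meas_pr π J _ (hΦ _ (Finsupp.single_mem_supported ℤ 1 i.2))).add_const _

theorem iter_zero (T : Pre) (x : unitInterval) : iter T 0 x = x := by simp [iter]

theorem iter_succ (T : Pre) (n : ℤ) (x : unitInterval) : iter T (n + 1) x = T.1 (iter T n x) := by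
  rw [iter, add_comm, zpow_one_add]; rfl

theorem iter_pred (T : Pre) (n : ℤ) (x : unitInterval) :
    iter T (n - 1) x = T.1.symm (iter T n x) := by
  rw [MeasurableEquiv.eq_symm_apply, ← iter_succ, sub_add_cancel]

theorem iter_meas (T : Pre) (A : MeasurableSpace unitInterval) (h1 : Measurable[A, A] T.1)
    (h2 : Measurable[A, A] (tinv T)) (n : ℤ) : Measurable[A, A] (iter T n) := by
  induction n using Int.induction_on with
  | zero => rw [show iter T 0 = id from funext (iter_zero T)]; exact measurable_id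
  | succ n ih => rw [show iter T (n + 1) = T.1 ∘ iter T n from funext (iter_succ T n)]
                 exact h1.comp ih
  | pred n ih => rw [show iter T (-n - 1) = tinv T ∘ iter T (-n) from funext (iter_pred T _)]
                 exact h2.comp ih

theorem iter_mp (T : Pre) (n : ℤ) : MeasurePreserving (iter T n) lam lam := by
  induction n using Int.induction_on with
  | zero => rw [show iter T 0 = id from funext (iter_zero T)]; exact MeasurePreserving.id _
  | succ n ih => rw [show iter T (n + 1) = T.1 ∘ iter T n from funext (iter_succ T n)]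
                 exact T.2.comp ih
  | pred n ih => rw [show iter T (-n - 1) = T.1.symm ∘ iter T (-n) from funext (iter_pred T _)]
                 exact (T.2.symm T.1).comp ih

/-- pointwise almost periodicity -/
def PAP (T : Pre) (A B : MeasurableSpace unitInterval) (f : unitInterval → ℂ) : Prop :=
  ∀ δ : ℝ, 0 < δ → ∃ (J : Type) (_ : Finite J) (g : J → unitInterval → ℂ),
    (∀ j, MemLp (g j) 2 lam ∧ AEStronglyMeasurable[B] (g j) lam) ∧
    ∀ n : ℤ, ∃ E : J → Set unitInterval, (∀ j, MeasurableSet[A] (E j)) ∧ (∀ x, ∃ j, x ∈ E j) ∧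
      ∀ j, ∀ x ∈ E j, ‖f (iter T n x) - g j x‖ ≤ δ

theorem PAP.ap {T : Pre} {A B : MeasurableSpace unitInterval} {f : unitInterval → ℂ}
    (h : PAP T A B f) (hA : A ≤ borel unitInterval) (hf : MemLp f 2 lam) :
    AlmostPeriodic T A B f := by
  intro δ hδ
  obtain ⟨J, hJ, g, hg, hE⟩ := h (δ / 2) (by positivity)
  obtain ⟨k, ⟨e⟩⟩ := Finite.exists_equiv_fin J
  refine ⟨k, fun j => g (e.symm j), fun j => hg _, fun n => ?_⟩
  obtain ⟨E, hE1, hE2, hE3⟩ := hE n
  have hA' : A ≤ Subtype.instMeasurableSpace := hA.trans lam_borel.ge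
  have key : ∀ j, ∀ᵐ x ∂lam, x ∈ E j →
      (lam[fun y => ‖f (iter T n y) - g j y‖ ^ 2 | A]) x ≤ (δ / 2) ^ 2 := by
    intro j
    have hint : Integrable (fun y => ‖f (iter T n y) - g j y‖ ^ 2) lam :=
      ((hf.comp_measurePreserving (iter_mp T n)).sub (hg j).1).norm.integrable_sq
    have h1 := condExp_indicator hint (hE1 j)
    have h2 := condExp_mono (m := A) (hint.indicator (hA' _ (hE1 j)))
      (integrable_const ((δ / 2) ^ 2)) (Eventually.of_forall fun x => by
        by_cases hx : x ∈ E j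
        · rw [indicator_of_mem hx]
          exact pow_le_pow_left₀ (norm_nonneg _) (hE3 j x hx) 2
        · rw [indicator_of_notMem hx]; positivity)
    rw [condExp_const hA'] at h2
    filter_upwards [h1, h2] with x a1 a2 hx
    rw [a1, indicator_of_mem hx] at a2
    exact a2
  filter_upwards [ae_all_iff.mpr key] with x hx
  obtain ⟨j, hj⟩ := hE2 x
  refine ⟨e j, ?_⟩
  simp only [Equiv.symm_apply_apply]
  exact (hx j hj).trans_lt (by nlinarith)

theorem PAP.zero (T : Pre) (A B : MeasurableSpace unitInterval) : PAP T A B fun _ => 0 :=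
  fun δ hδ => ⟨Unit, inferInstance, fun _ _ => 0,
    fun _ => ⟨MemLp.zero', aestronglyMeasurable_const⟩,
    fun _ => ⟨fun _ => univ, fun _ => MeasurableSet.univ, fun _ => ⟨(), trivial⟩,
      fun _ _ _ => by simpa using hδ.le⟩⟩

theorem PAP.add {T : Pre} {A B : MeasurableSpace unitInterval} {f f' : unitInterval → ℂ}
    (h : PAP T A B f) (h' : PAP T A B f') : PAP T A B fun x => f x + f' x := by
  intro δ hδ
  obtain ⟨J, hJ, g, hg, hE⟩ := h (δ / 2) (by positivity)
  obtain ⟨J', hJ', g', hg', hE'⟩ := h' (δ / 2) (by positivity)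
  refine ⟨J × J', inferInstance, fun j x => g j.1 x + g' j.2 x,
    fun j => ⟨(hg j.1).1.add (hg' j.2).1, (hg j.1).2.add (hg' j.2).2⟩, fun n => ?_⟩
  obtain ⟨E, hE1, hE2, hE3⟩ := hE n
  obtain ⟨E', hE1', hE2', hE3'⟩ := hE' n
  refine ⟨fun j => E j.1 ∩ E' j.2, fun j => (hE1 _).inter (hE1' _), fun x => ?_, fun j x hx => ?_⟩
  · obtain ⟨j, hj⟩ := hE2 x
    obtain ⟨j', hj'⟩ := hE2' x
    exact ⟨(j, j'), hj, hj'⟩
  · rw [add_sub_add_comm]
    linarith [norm_add_le (f (iter T n x) - g j.1 x) (f' (iter T n x) - g' j.2 x),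
      hE3 _ x hx.1, hE3' _ x hx.2]

theorem PAP.smul {T : Pre} {A B : MeasurableSpace unitInterval} {f : unitInterval → ℂ}
    (h : PAP T A B f) (a : ℂ) : PAP T A B fun x => a * f x := by
  intro δ hδ
  obtain ⟨J, hJ, g, hg, hE⟩ := h (δ / (‖a‖ + 1)) (by positivity)
  refine ⟨J, hJ, fun j x => a * g j x, fun j => ⟨(hg j).1.const_mul a, (hg j).2.const_mul a⟩,
    fun n => ?_⟩
  obtain ⟨E, hE1, hE2, hE3⟩ := hE n
  refine ⟨E, hE1, hE2, fun j x hx => ?_⟩
  rw [← mul_sub, norm_mul]
  have h1 := hE3 j x hx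
  rw [le_div_iff₀ (by positivity)] at h1
  nlinarith [norm_nonneg (f (iter T n x) - g j x), norm_nonneg a]

theorem PAP.of_cocycle {T : Pre} {A B : MeasurableSpace unitInterval} {f : unitInterval → ℂ}
    (hf : MemLp f 2 lam) (hfB : AEStronglyMeasurable[B] f lam) (hf1 : ∀ x, ‖f x‖ ≤ 1)
    (h : ∀ n : ℤ, ∃ u : unitInterval → ℂ, Measurable[A] u ∧ (∀ x, ‖u x‖ ≤ 1) ∧
      ∀ x, f (iter T n x) = u x * f x) : PAP T A B f := by
  intro δ hδ
  obtain ⟨t, -, ht, hc⟩ := (isCompact_closedBall (0 : ℂ) 1).finite_cover_balls hδ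
  refine ⟨t, ht, fun j x => j.1 * f x, fun j => ⟨hf.const_mul _, hfB.const_mul _⟩, fun n => ?_⟩
  obtain ⟨u, hu, hu1, hu2⟩ := h n
  refine ⟨fun j => u ⁻¹' Metric.ball j.1 δ, fun j => hu Metric.isOpen_ball.measurableSet,
    fun x => ?_, fun j x hx => ?_⟩
  · obtain ⟨j, hj, hx⟩ := mem_iUnion₂.mp (hc (mem_closedBall_zero_iff.mpr (hu1 x)))
    exact ⟨⟨j, hj⟩, hx⟩
  · rw [hu2, ← sub_mul, norm_mul]
    have h1 : ‖u x - j.1‖ < δ := by rw [← dist_eq_norm]; exact hx
    nlinarith [norm_nonneg (u x - j.1), hf1 x, norm_nonneg (f x)]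

variable {σ : G I →ₗ[ℤ] G I} {ι : G I →ₗ[ℤ] UnitAddCircle}

theorem T_meas (h : Good σ ι) (π : unitInterval → K I) (T : Pre)
    (hT : ∀ x, π (T.1 x) = TT σ ι (π x)) (J : Set I)
    (hJ : ∀ γ ∈ Finsupp.supported ℤ ℤ J, σ γ ∈ Finsupp.supported ℤ ℤ J) :
    Measurable[FJ π J, FJ π J] T.1 ∧ Measurable[FJ π J, FJ π J] T.1.symm := by
  refine ⟨meas_aff π J _ _ _ hT fun γ hγ => Submodule.add_mem _ hγ (hJ γ hγ), ?_⟩
  refine meas_aff π J _ (LinearMap.id - σ + σ.comp σ) (-(ι.comp (LinearMap.id - σ + σ.comp σ)))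
    (fun x => ?_) fun γ hγ =>
      Submodule.add_mem _ (Submodule.sub_mem _ hγ (hJ γ hγ)) (hJ _ (hJ γ hγ))
  change _ = (TH h).symm (π x)
  rw [Homeomorph.eq_symm_apply, TH_apply, ← hT, T.1.apply_symm_apply]

theorem pr_restrict (J : Set I) (x : K I) (γ : G J) :
    pr (rs J x) γ = pr x (Finsupp.mapDomain Subtype.val γ) := by
  rw [pr, pr, Finsupp.linearCombination_mapDomain]; rfl

theorem mapDomain_supp (J : Set I) (γ : G J) :
    Finsupp.mapDomain Subtype.val γ ∈ Finsupp.supported ℤ ℤ J := by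
  rw [Finsupp.mem_supported']
  intro i hi
  exact Finsupp.mapDomain_of_notMem_range _ _ (by simpa using hi)

variable [Countable I]

theorem restrict_mp (J : Set I) :
    MeasurePreserving (fun x : K I => (rs J x)) (mu I) (mu J) := by
  have hm : Measurable fun x : K I => (rs J x) := measurable_rs J
  have : IsProbabilityMeasure ((mu I).map fun x : K I => (rs J x)) :=
    Measure.isProbabilityMeasure_map hm.aemeasurable
  refine ⟨hm, meas_ext _ fun γ hγ => ?_⟩
  rw [integral_map hm.aemeasurable (ch γ).continuous.aestronglyMeasurable]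
  simp only [ch_apply, pr_restrict]
  refine int_ch (γ := Finsupp.mapDomain Subtype.val γ) fun h0 => hγ ?_
  exact Finsupp.mapDomain_injective Subtype.val_injective (h0.trans Finsupp.mapDomain_zero.symm)

omit [Countable I] in
theorem FJ_le (π : unitInterval → K I) (hπ : Measurable π) (J : Set I) :
    FJ π J ≤ borel unitInterval := by
  rw [← BorelSpace.measurable_eq (α := unitInterval)]
  exact ((measurable_rs J).comp hπ).comap_le

theorem compactExt (h : Good σ ι) (π : unitInterval → K I) (hπ : MeasurePreserving π lam (mu I))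
    (T : Pre) (hT : ∀ x, π (T.1 x) = TT σ ι (π x)) (J J' : Set I) (hJJ : J ⊆ J')
    (hJ : ∀ γ ∈ Finsupp.supported ℤ ℤ J', σ γ ∈ Finsupp.supported ℤ ℤ J) :
    CompactExt T (FJ π J) (FJ π J') := by
  intro f hf hfB ε hε
  have hmeas := T_meas h π T hT J fun γ hγ => hJ γ (Finsupp.supported_mono hJJ hγ)
  set ρ : unitInterval → K J' := fun x => rs J' (π x) with hρ
  have hρm : MeasurePreserving ρ lam (mu J') := (restrict_mp J').comp hπ
  obtain ⟨f₀, hf₀, hf₀'⟩ := hfB.stronglyMeasurable_mk.exists_eq_measurable_comp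
  have hff : f =ᵐ[lam] f₀ ∘ ρ := by rw [← hf₀']; exact hfB.ae_eq_mk
  have hmem : MemLp f₀ 2 (mu J') := by
    rw [← hρm.map_eq, memLp_map_measure_iff hf₀.aestronglyMeasurable hρm.aemeasurable]
    exact hf.ae_eq hff
  have := wr (mu J')
  have hd := Submodule.dense_iff_topologicalClosure_eq_top.2 ((fam J').spanLp_closure (mu J'))
  obtain ⟨g, hg, hgε⟩ := EMetric.mem_closure_iff.mp (hd (hmem.toLp f₀)) ε hε
  obtain ⟨p, hp, rfl⟩ : ∃ p ∈ Submodule.span ℂ (range (ch (I := J'))),
      ContinuousMap.toLp (E := ℂ) 2 (mu J') ℂ p = g := by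
    have : (range fun d => ContinuousMap.toLp (E := ℂ) 2 (mu J') ℂ ((fam J').χ d))
        = (ContinuousMap.toLp (E := ℂ) 2 (mu J') ℂ).toLinearMap '' range (ch (I := J')) := by
      rw [← range_comp]; rfl
    rw [this, ← Submodule.map_span] at hg
    exact hg
  have hLp : ∀ q : C(K J', ℂ), MemLp (q ∘ ρ) 2 lam := fun q =>
    (MemLp.of_bound q.continuous.aestronglyMeasurable ‖q‖
      (Eventually.of_forall q.norm_coe_le_norm)).comp_measurePreserving hρm
  have hB : ∀ q : C(K J', ℂ), AEStronglyMeasurable[FJ π J'] (q ∘ ρ) lam := fun q =>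
    (q.continuous.measurable.comp (comap_measurable ρ)).stronglyMeasurable.aestronglyMeasurable
  refine ⟨p ∘ ρ, hLp p, hB p, PAP.ap ?_ (FJ_le π hπ.measurable J) (hLp p), ?_⟩
  · clear hgε hg
    induction hp using Submodule.span_induction with
    | mem q hq =>
      obtain ⟨γ, rfl⟩ := hq
      refine PAP.of_cocycle (hLp _) (hB _) (fun x => (norm_ch _ _).le) fun n => ?_
      set δ := Finsupp.mapDomain Subtype.val γ with hδ
      have hσ := meas_pr π J _ (hJ δ (mapDomain_supp J' γ))
      have hc : Measurable[FJ π J] fun x => pr (π (iter T n x)) δ - pr (π x) δ := by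
        induction n using Int.induction_on with
        | zero => simp [iter_zero]
        | succ n ih =>
          have := ih.add ((hσ.comp (iter_meas T _ hmeas.1 hmeas.2 n)).add_const (ι δ))
          convert this using 2 with x
          simp only [Pi.add_apply, Function.comp_apply]
          rw [iter_succ, hT, pr_TT]; abel
        | pred n ih =>
          have := ih.sub ((hσ.comp (iter_meas T _ hmeas.1 hmeas.2 (-n - 1))).add_const (ι δ))
          convert this using 2 with x
          have h1 := iter_succ T (-n - 1) x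
          rw [sub_add_cancel] at h1
          simp only [Pi.sub_apply, Function.comp_apply]
          rw [h1, hT, pr_TT]; abel
      refine ⟨fun x => ee (pr (π (iter T n x)) δ - pr (π x) δ), continuous_ee.measurable.comp hc,
        fun x => (norm_ee _).le, fun x => ?_⟩
      simp only [Function.comp_apply, ch_apply, hρ, pr_restrict, ← hδ]
      rw [← ee_add, sub_add_cancel]
    | zero => exact PAP.zero _ _ _
    | add a b _ _ ha hb => exact ha.add hb
    | smul a q _ hq => exact hq.smul a
  · have h1 : f - p ∘ ρ =ᵐ[lam] (f₀ - ⇑p) ∘ ρ := by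
      filter_upwards [hff] with x hx
      simp only [Pi.sub_apply, hx, Function.comp_apply]
    rw [eLpNorm_congr_ae h1, eLpNorm_comp_measurePreserving
      (hf₀.aestronglyMeasurable.sub p.continuous.aestronglyMeasurable) hρm]
    rw [Lp.edist_def] at hgε
    refine lt_of_eq_of_lt (eLpNorm_congr_ae ?_) hgε
    filter_upwards [hmem.coeFn_toLp, ContinuousMap.coeFn_toLp (p := 2) (𝕜 := ℂ) (mu J') p]
      with x a1 a2
    simp only [Pi.sub_apply, a1, a2]

theorem mdistal (h : Good σ ι) (e : K I ≃ᵐ unitInterval) (he : MeasurePreserving e (mu I) lam)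
    (T : Pre) (hT : ∀ x, e.symm (T.1 x) = TT σ ι (e.symm x)) (lev : I → ℕ) (h0 : ∀ i, 0 < lev i)
    (h3 : ∀ i, lev i ≤ 3)
    (hlev : ∀ i, σ (Finsupp.single i 1) ∈ Finsupp.supported ℤ ℤ {j | lev j < lev i}) :
    MDistal (cls T) := by
  set J : Ordinal.{0} → Set I := fun α => {i | (lev i : Ordinal.{0}) ≤ α} with hJ
  have hmono : ∀ α β, α ≤ β → J α ⊆ J β := fun α β hab i hi => le_trans hi hab
  have hstep : ∀ α, ∀ γ ∈ Finsupp.supported ℤ ℤ (J (α + 1)),
      σ γ ∈ Finsupp.supported ℤ ℤ (J α) := by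
    intro α γ hγ
    rw [Finsupp.supported_eq_span_single] at hγ
    induction hγ using Submodule.span_induction with
    | mem γ hγ =>
      obtain ⟨i, hi, rfl⟩ := hγ
      refine Finsupp.supported_mono (fun j hj => ?_) (hlev i)
      have h1 : ((lev j : ℕ) : Ordinal.{0}) < lev i := by exact_mod_cast hj
      exact Order.lt_add_one_iff.mp (h1.trans_le hi)
    | zero => simp
    | add a b _ _ ha hb => rw [map_add]; exact Submodule.add_mem _ ha hb
    | smul n a _ ha => rw [map_smul]; exact Submodule.smul_mem _ n ha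
  have hπ := he.symm e
  refine ⟨T, rfl, 3, fun α => FJ e.symm (J α), fun α _ => ⟨FJ_le _ hπ.measurable _, fun s hs => ?_⟩,
    fun α β hab _ s hs => ⟨s, ?_, EventuallyEq.rfl⟩, fun s hs => ⟨s, ?_, EventuallyEq.rfl⟩,
    fun s hs => ⟨s, ?_, EventuallyEq.rfl⟩,
    fun α _ => compactExt h _ hπ T hT _ _ (hmono _ _ le_self_add) (hstep α), fun α hα hl => ?_⟩
  · have := T_meas h e.symm T hT (J α) fun γ hγ =>
      hstep α γ (Finsupp.supported_mono (hmono _ _ le_self_add) hγ)
    refine ⟨⟨_, this.1 hs, EventuallyEq.rfl⟩, ⟨_, this.2 hs, ?_⟩⟩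
    rw [T.1.image_eq_preimage_symm]
  · have : Measurable[FJ e.symm (J β)] fun x => rs (J α) (e.symm x) :=
      @measurable_pi_lambda _ _ _ (FJ e.symm (J β)) _ _ fun i =>
        (measurable_pi_apply (⟨i.1, hmono α β hab i.2⟩ : J β)).comp
          (comap_measurable fun x => rs (J β) (e.symm x))
    exact this.comap_le s hs
  · have hc : (fun x => rs (J 0) (e.symm x)) = fun _ => 0 := by
      funext x i
      have h1 : ((lev i.1 : ℕ) : Ordinal.{0}) ≤ 0 := i.2
      have h2 : lev i.1 = 0 := by exact_mod_cast le_antisymm h1 zero_le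
      exact absurd h2 (h0 _).ne'
    have : Measurable[⊥] fun x => rs (J 0) (e.symm x) := by
      rw [hc]; exact measurable_const
    exact this.comap_le s hs
  · have hall : ∀ i, i ∈ J 3 := fun i => by
      change ((lev i : ℕ) : Ordinal.{0}) ≤ 3
      exact_mod_cast h3 i
    have h1 : Measurable fun y : K (J 3) => e fun i => y ⟨i, hall i⟩ :=
      e.measurable.comp (measurable_pi_lambda _ fun i => measurable_pi_apply _)
    rw [← BorelSpace.measurable_eq (α := unitInterval)] at hs
    refine ⟨_, h1 hs, ?_⟩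
    ext x
    change e (e.symm x) ∈ s ↔ x ∈ s
    rw [e.apply_symm_apply]
  · exfalso
    have h1 := (Ordinal.omega0_le_of_isSuccLimit hl).trans hα
    exact absurd h1 (not_le.mpr (by exact_mod_cast Ordinal.natCast_lt_omega0 3))

end Pool.Agent.H248Z.MD
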