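import Mathlib

set_option autoImplicit false

namespace Pool.Agent.H248Z.Poly

open Finset

/-- Greedy choice of a sequence avoiding finitely many values determined by earlier choices. -/
lemma greedy {K : Type} [DecidableEq K] (A : ℕ → Set K) (hA : ∀ s, (A s).Infinite)
    (B : Finset K → Finset K) (z : K) :
    ∃ k : ℕ → K, ∃ P : ℕ → Finset K, (∀ s, k s ∈ A s) ∧ (∀ s, k s ∉ B (P s)) ∧
      (∀ s, z ∈ P s) ∧ ∀ r s, r < s → k r ∈ P s := by
  have h : ∀ s (P : Finset K), ∃ y, y ∈ A s ∧ y ∉ B P := fun s P => by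
    obtain ⟨y, hy, hy'⟩ := (hA s).exists_notMem_finset (B P)
    exact ⟨y, hy, hy'⟩
  choose step hstepA hstepB using h
  let P : ℕ → Finset K := fun s => Nat.rec ({z} : Finset K) (fun s Q => insert (step s Q) Q) s
  have hP0 : P 0 = {z} := rfl
  have hPs : ∀ s, P (s + 1) = insert (step s (P s)) (P s) := fun s => rfl
  have hmono : ∀ s t, s ≤ t → P s ⊆ P t := by
    intro s t hst
    induction hst with
    | refl => exact Finset.Subset.refl _
    | step _ ih => rw [hPs]; exact ih.trans (Finset.subset_insert _ _)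
  refine ⟨fun s => step s (P s), P, fun s => hstepA _ _, fun s => hstepB _ _, fun s => ?_, ?_⟩
  · exact hmono 0 s (Nat.zero_le _) (by simp [hP0])
  · intro r s hrs
    exact hmono (r + 1) s hrs (by rw [hPs]; exact Finset.mem_insert_self _ _)

/-- A sequence with prescribed infinite ranges satisfying no relation from a finite list. -/
lemma generic {K : Type} [Field K] {Λ : Type} [Fintype Λ] {ι : Type} [Fintype ι]
    (A : ℕ → Set K) (hA : ∀ s, (A s).Infinite) (lam : Λ → ι → K) :
    ∃ k : ℕ → K, (∀ s, k s ∈ A s) ∧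
      ∀ (l : Λ) (σ : ι → ℕ), Function.Injective σ → lam l ≠ 0 →
        ∑ κ, lam l κ * k (σ κ) ≠ 0 := by
  classical
  let B : Finset K → Finset K := fun P =>
    ((Finset.univ : Finset Λ) ×ˢ (Finset.univ : Finset ι) ×ˢ
      (Fintype.piFinset (fun _ : ι => P))).image
      (fun q => -(∑ κ, lam q.1 κ * q.2.2 κ) / lam q.1 q.2.1)
  obtain ⟨k, P, hkA, hkB, hz, hlt⟩ := greedy A hA B 0
  refine ⟨k, hkA, fun l σ hσ hl hsum => ?_⟩
  have hne : (Finset.univ.filter (fun κ => lam l κ ≠ 0)).Nonempty := by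
    obtain ⟨κ, hκ⟩ := Function.ne_iff.1 hl
    exact ⟨κ, by simpa using hκ⟩
  obtain ⟨κ0, hκ0, hmax⟩ := Finset.exists_max_image _ σ hne
  have hκ0' : lam l κ0 ≠ 0 := by simpa using hκ0
  let p : ι → K := fun κ => if κ ≠ κ0 ∧ lam l κ ≠ 0 then k (σ κ) else 0
  apply hkB (σ κ0)
  refine Finset.mem_image.2 ⟨(l, κ0, p), ?_, ?_⟩
  · simp only [Finset.mem_product, Finset.mem_univ, true_and, Fintype.mem_piFinset]
    intro κ
    by_cases h : κ ≠ κ0 ∧ lam l κ ≠ 0
    · simp only [p, if_pos h]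
      apply hlt
      have h1 : σ κ ≤ σ κ0 := hmax κ (by simpa using h.2)
      exact lt_of_le_of_ne h1 (fun h2 => h.1 (hσ h2))
    · simp only [p, if_neg h]
      exact hz _
  · have h2 : ∑ κ, lam l κ * k (σ κ) = lam l κ0 * k (σ κ0) + ∑ κ, lam l κ * p κ := by
      rw [← Finset.add_sum_erase _ _ (Finset.mem_univ κ0),
        ← Finset.add_sum_erase _ (fun κ => lam l κ * p κ) (Finset.mem_univ κ0)]
      have h3 : p κ0 = 0 := by simp [p]
      rw [h3, mul_zero, zero_add]
      congr 1
      apply Finset.sum_congr rfl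
      intro κ hκ
      have hκ' : κ ≠ κ0 := (Finset.mem_erase.1 hκ).1
      by_cases h : lam l κ = 0
      · simp [h]
      · simp [p, hκ', h]
    rw [h2] at hsum
    simp only
    field_simp
    linear_combination -hsum

/-- Ramsey's theorem for finitely many transitive relations. -/
lemma ramsey_trans {α I : Type} (r : I → α → α → Prop)
    (htr : ∀ i a b c, r i a b → r i b c → r i a c) (s : Finset I) :
    ∀ f : ℕ → α, (∀ m n, m < n → ∃ i ∈ s, r i (f m) (f n)) →
      ∃ i, ∃ g : ℕ → ℕ, StrictMono g ∧ ∀ m n, m < n → r i (f (g m)) (f (g n)) := by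
  classical
  induction s using Finset.induction_on with
  | empty =>
    intro f hf
    obtain ⟨i, hi, _⟩ := hf 0 1 one_pos
    simp at hi
  | insert i s _ ih =>
    intro f hf
    haveI : IsTrans α (r i) := ⟨htr i⟩
    obtain ⟨g, hg | hg⟩ := exists_increasing_or_nonincreasing_subseq (r i) f
    · exact ⟨i, g, g.strictMono, hg⟩
    · obtain ⟨j, g', hg', h⟩ := ih (fun n => f (g n)) (fun m n hmn => by
        obtain ⟨j, hj, hr⟩ := hf (g m) (g n) (g.strictMono hmn)
        rcases Finset.mem_insert.1 hj with rfl | hj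
        · exact absurd hr (hg m n hmn)
        · exact ⟨j, hj, hr⟩)
      exact ⟨j, fun n => g (g' n), g.strictMono.comp hg', h⟩

/-- signed linear functional -/
noncomputable def L {n m : ℕ} (a : Fin m → Fin n → ℝ) (i : Fin m × Bool) (x : Fin n → ℝ) : ℝ :=
  (if i.2 then 1 else -1) * ∑ j, a i.1 j * x j

/-- the polyhedral norm -/
noncomputable def N {n m : ℕ} (a : Fin m → Fin n → ℝ) (x : Fin n → ℝ) : ℝ :=
  ⨆ i, |∑ j, a i j * x j|

lemma L_add {n m : ℕ} (a : Fin m → Fin n → ℝ) (i : Fin m × Bool) (x y : Fin n → ℝ) :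
    L a i (x + y) = L a i x + L a i y := by
  simp only [L, Pi.add_apply, mul_add, Finset.sum_add_distrib]

lemma L_le_N {n m : ℕ} (a : Fin m → Fin n → ℝ) (i : Fin m × Bool) (x : Fin n → ℝ) :
    L a i x ≤ N a x := by
  have h : |∑ j, a i.1 j * x j| ≤ N a x :=
    le_ciSup (f := fun i => |∑ j, a i j * x j|) (Set.finite_range _).bddAbove i.1
  unfold L
  split_ifs
  · rw [one_mul]; exact (le_abs_self _).trans h
  · rw [neg_one_mul]; exact (neg_le_abs _).trans h

lemma exists_L_eq_N {n m : ℕ} [Nonempty (Fin m)] (a : Fin m → Fin n → ℝ) (x : Fin n → ℝ) :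
    ∃ i, L a i x = N a x := by
  obtain ⟨i, hi⟩ := exists_eq_ciSup_of_finite (f := fun i => |∑ j, a i j * x j|)
  rcases abs_choice (∑ j, a i j * x j) with h | h
  · exact ⟨(i, true), by simp only [L, N, ← hi, h]; simp⟩
  · exact ⟨(i, false), by simp only [L, N, ← hi, h]; simp⟩

lemma N_add_le {n m : ℕ} [Nonempty (Fin m)] (a : Fin m → Fin n → ℝ) (x y : Fin n → ℝ) :
    N a (x + y) ≤ N a x + N a y := by
  obtain ⟨i, hi⟩ := exists_L_eq_N a (x + y)
  rw [← hi, L_add]
  exact add_le_add (L_le_N a i x) (L_le_N a i y)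

/-- An infinite set contains an infinite geodesic sequence. -/
lemma geodesic {n m : ℕ} [Nonempty (Fin m)] (a : Fin m → Fin n → ℝ)
    (ha : ∀ x : Fin n → ℝ, x ≠ 0 → 0 < N a x) (M : Set (Fin n → ℝ)) (hM : M.Infinite) :
    ∃ x : ℕ → Fin n → ℝ, (∀ k, x k ∈ M) ∧ StrictMono (fun k => N a (x k - x 0)) ∧
      ∀ k l, k ≤ l → N a (x l - x 0) = N a (x l - x k) + N a (x k - x 0) := by
  let f : ℕ → Fin n → ℝ := fun k => (hM.natEmbedding M k : Fin n → ℝ)
  have hfinj : Function.Injective f := Subtype.val_injective.comp (hM.natEmbedding M).injective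
  let r : Fin m × Bool → (Fin n → ℝ) → (Fin n → ℝ) → Prop := fun i u v =>
    L a i (v - u) = N a (v - u)
  have htr : ∀ i u v w, r i u v → r i v w → r i u w := by
    intro i u v w h1 h2
    have e : w - u = (w - v) + (v - u) := by abel
    apply le_antisymm (L_le_N a i _)
    rw [e, L_add, h1, h2]
    exact N_add_le a _ _
  obtain ⟨i, g, hg, h⟩ := ramsey_trans r htr Finset.univ f (fun k l _ => by
    obtain ⟨i, hi⟩ := exists_L_eq_N a (f l - f k)
    exact ⟨i, Finset.mem_univ _, hi⟩)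
  have h0 : N a 0 = 0 := by simp [N]
  have h' : ∀ k l, k ≤ l → L a i (f (g l) - f (g k)) = N a (f (g l) - f (g k)) := by
    intro k l hkl
    rcases hkl.eq_or_lt with rfl | hkl
    · simp [h0, L]
    · exact h k l hkl
  have hadd : ∀ k l, k ≤ l → N a (f (g l) - f (g 0)) =
      N a (f (g l) - f (g k)) + N a (f (g k) - f (g 0)) := by
    intro k l hkl
    rw [← h' 0 l (Nat.zero_le _), ← h' k l hkl, ← h' 0 k (Nat.zero_le _), ← L_add]
    congr 1
    abel
  refine ⟨fun k => f (g k), fun k => (hM.natEmbedding M (g k)).2, ?_, hadd⟩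
  intro k l hkl
  simp only
  rw [hadd k l hkl.le]
  have : 0 < N a (f (g l) - f (g k)) := by
    apply ha
    intro h0
    have := hfinj (sub_eq_zero.1 h0)
    exact absurd this (hg hkl).ne'
  linarith

/-- A geodesic sequence is seen isometrically by one signed functional. -/
lemma one_functional {n m : ℕ} [Nonempty (Fin m)] (a : Fin m → Fin n → ℝ)
    (p : ℕ → Fin n → ℝ)
    (hp : ∀ k l, k ≤ l → N a (p l - p 0) = N a (p l - p k) + N a (p k - p 0)) :
    ∃ i, ∀ k, L a i (p k - p 0) = N a (p k - p 0) := by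
  choose c hc using fun l => exists_L_eq_N a (p l - p 0)
  obtain ⟨i, hi⟩ := Finite.exists_infinite_fiber c
  refine ⟨i, fun k => ?_⟩
  have hinf : (c ⁻¹' {i}).Infinite := Set.infinite_coe_iff.1 hi
  obtain ⟨l, hl, hkl⟩ := hinf.exists_gt k
  have hl' : c l = i := hl
  have h1 := hc l
  rw [hl'] at h1
  have e : p l - p 0 = (p l - p k) + (p k - p 0) := by abel
  have h2 := hp k l hkl.le
  rw [← h1, e, L_add] at h2
  have h3 := L_le_N a i (p l - p k)
  have h4 := L_le_N a i (p k - p 0)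
  linarith

theorem main (n m : ℕ) (a : Fin m → Fin n → ℝ)
    (ha : ∀ x : Fin n → ℝ, x ≠ 0 → 0 < N a x) (M : Set (Fin n → ℝ)) (hM : M.Infinite) :
    ∃ c : (Fin n → ℝ) → Fin (n + 1),
      ∀ f : (Fin n → ℝ) → (Fin n → ℝ),
        (∀ x ∈ M, ∀ y ∈ M, N a (f x - f y) = N a (x - y)) →
        ¬ ∃ k : Fin (n + 1), ∀ x ∈ M, c (f x) = k := by
  classical
  haveI : Nonempty (Fin m) := by
    by_contra hne
    rw [not_nonempty_iff] at hne
    obtain ⟨x, -, hx⟩ := hM.exists_notMem_finset {0}
    have := ha x (by simpa using hx)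
    simp [N] at this
  obtain ⟨x, hxM, hxmono, hxadd⟩ := geodesic a ha M hM
  let d : ℕ → ℝ := fun k => N a (x k - x 0)
  -- linear dependencies
  have hdep : ∀ ι : Fin (n + 1) → Fin m, ∃ lam : Fin (n + 1) → ℝ, lam ≠ 0 ∧
      ∑ κ, lam κ • a (ι κ) = 0 := by
    intro ι
    have : ¬ LinearIndependent ℝ (fun κ => a (ι κ)) := by
      intro h
      have := h.fintype_card_le_finrank
      simp at this
    rw [Fintype.not_linearIndependent_iff] at this
    obtain ⟨g, hg, κ, hκ⟩ := this
    exact ⟨g, Function.ne_iff.2 ⟨κ, hκ⟩, hg⟩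
  choose lam hlam0 hlam using hdep
  -- the countable field
  let S : Set ℝ := Set.range d ∪ Set.range (fun q : (Fin (n + 1) → Fin m) × Fin (n + 1) => lam q.1 q.2)
  have hS : S.Countable := (Set.countable_range _).union (Set.countable_range _)
  let K : Subfield ℝ := Subfield.closure S
  haveI hK : Countable K := by
    rw [← Cardinal.mk_le_aleph0_iff]
    refine (Subfield.cardinalMk_closure_le_max S).trans ?_
    exact max_le (Cardinal.mk_le_aleph0_iff.2 hS.to_subtype) le_rfl
  obtain ⟨ρ, hρ⟩ := LinearMap.exists_leftInverse_of_injective (Algebra.linearMap K ℝ)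
    (LinearMap.ker_eq_bot.2 (algebraMap K ℝ).injective)
  have hρ' : ∀ y : K, ρ (y : ℝ) = y := fun y => LinearMap.congr_fun hρ y
  let dK : ℕ → K := fun k => ⟨d k, Subfield.subset_closure (Or.inl ⟨k, rfl⟩)⟩
  let lamK : (Fin (n + 1) → Fin m) → Fin (n + 1) → K := fun ι κ =>
    ⟨lam ι κ, Subfield.subset_closure (Or.inr ⟨(ι, κ), rfl⟩)⟩
  have hdK : Function.Injective dK := by
    intro k l h
    exact hxmono.injective (congrArg Subtype.val h)
  obtain ⟨e, he⟩ := exists_surjective_nat ((Fin m × Bool) × K × Fin (n + 1))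
  let A : ℕ → Set K := fun s =>
    Set.range (fun k => (e s).2.1 + (if (e s).1.2 then 1 else -1) * dK k)
  have hA : ∀ s, (A s).Infinite := by
    intro s
    apply Set.infinite_range_of_injective
    intro k l h
    simp only [add_right_inj] at h
    apply hdK
    split_ifs at h
    · simpa using h
    · simpa using h
  obtain ⟨k, hkA, hk⟩ := generic A hA lamK
  -- the colouring
  have hcol : ∀ y : Fin n → ℝ, ∃ κ : Fin (n + 1), ∀ s, (e s).2.2 = κ →
      ρ (∑ j, a (e s).1.1 j * y j) ≠ k s := by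
    intro y
    by_contra hcon
    push Not at hcon
    choose σ hσ1 hσ2 using hcon
    have hσinj : Function.Injective σ := by
      intro κ κ' h
      rw [← hσ1 κ, ← hσ1 κ', h]
    let ι : Fin (n + 1) → Fin m := fun κ => (e (σ κ)).1.1
    have hl0 : lamK ι ≠ 0 := by
      intro h
      apply hlam0 ι
      funext κ
      exact congrArg Subtype.val (congrFun h κ)
    apply hk ι σ hσinj hl0
    have h1 : ∑ κ, lam ι κ * (∑ j, a (ι κ) j * y j) = 0 := by
      have h2 : ∀ j, ∑ κ, lam ι κ * a (ι κ) j = 0 := fun j => by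
        have := congrFun (hlam ι) j
        simpa [Finset.sum_apply] using this
      simp_rw [Finset.mul_sum]
      rw [Finset.sum_comm]
      apply Finset.sum_eq_zero
      intro j _
      simp_rw [← mul_assoc]
      rw [← Finset.sum_mul, h2, zero_mul]
    have h3 := congrArg ρ h1
    rw [map_sum, map_zero] at h3
    rw [← h3]
    apply Finset.sum_congr rfl
    intro κ _
    rw [← hσ2 κ, ← smul_eq_mul, ← map_smul]
    rfl
  choose c hc using hcol
  refine ⟨c, fun f hf ⟨κ, hκ⟩ => ?_⟩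
  let p : ℕ → Fin n → ℝ := fun k => f (x k)
  have hpN : ∀ k l, N a (p l - p k) = N a (x l - x k) := fun k l => hf _ (hxM l) _ (hxM k)
  obtain ⟨i, hi⟩ := one_functional a p (fun k l hkl => by
    rw [hpN, hpN, hpN]; exact hxadd k l hkl)
  obtain ⟨s, hs⟩ := he (i, ρ (∑ j, a i.1 j * p 0 j), κ)
  obtain ⟨j0, hj0⟩ := hkA s
  apply hc (p j0) s
  · rw [hs]; exact (hκ _ (hxM j0)).symm
  · rw [← hj0, hs]
    have h1 := hi j0
    rw [hpN] at h1
    have h2 : ∑ j, a i.1 j * p j0 j =
        ∑ j, a i.1 j * p 0 j + (((if i.2 then 1 else -1) * dK j0 : K) : ℝ) := by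
      have h3 : ∑ j, a i.1 j * (p j0 - p 0) j = ∑ j, a i.1 j * p j0 j - ∑ j, a i.1 j * p 0 j := by
        simp only [Pi.sub_apply, mul_sub, Finset.sum_sub_distrib]
      unfold L at h1
      rw [h3] at h1
      have h4 : ((dK j0 : K) : ℝ) = N a (x j0 - x 0) := rfl
      split_ifs at h1 ⊢
      · push_cast; rw [h4]; linarith
      · push_cast; rw [h4]; linarith
    simp only
    rw [h2, map_add, hρ']

end Pool.Agent.H248Z.Poly
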