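import Pool.Agent.H113Z.Dist.Defs

/- Bounds for the derivatives of the piecewise affine vector field. -/

namespace Pool.Agent.H113Z.Dist
open Filter Topology Set Asymptotics

namespace ZB

theorem ramp_cd (k : ℕ) : ContDiff ℝ k ramp := by
  unfold ramp
  exact contDiff_id.mul (Real.smoothTransition.contDiff.comp (by fun_prop))

theorem ramp_abs (u : ℝ) : |ramp u| ≤ |u| := by
  unfold ramp
  rw [abs_mul, abs_of_nonneg (Real.smoothTransition.nonneg _)]
  exact mul_le_of_le_one_right (abs_nonneg _) (Real.smoothTransition.le_one _)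

theorem ramp_hd (j : ℕ) (u : ℝ) : HasDerivAt (D j ramp) (D (j + 1) ramp u) u := by
  have h : Differentiable ℝ (iteratedDeriv j ramp) :=
    (ramp_cd (j + 1)).differentiable_iteratedDeriv j (by exact_mod_cast Nat.lt_succ_self j)
  have := (h u).hasDerivAt
  rwa [← iteratedDeriv_succ] at this

theorem ramp_bd (j : ℕ) : ∃ M : ℝ, 0 ≤ M ∧ ∀ u, |D (j + 1) ramp u| ≤ M := by
  have hc : Continuous (D (j + 1) ramp) :=
    (ramp_cd (j + 1)).continuous_iteratedDeriv (j + 1) le_rfl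
  obtain ⟨M, hM⟩ := (isCompact_Icc (a := (-1 : ℝ)) (b := 1)).exists_bound_of_continuousOn
    hc.continuousOn
  refine ⟨max M 1, le_max_of_le_right zero_le_one, fun u => ?_⟩
  rcases lt_or_ge u (-1) with h | h
  · have : ramp =ᶠ[𝓝 u] fun _ => (0 : ℝ) := by
      filter_upwards [Iio_mem_nhds h] with v hv
      unfold ramp
      rw [Real.smoothTransition.zero_of_nonpos (by have : v < -1 := hv; linarith), mul_zero]
    unfold D
    rw [this.iteratedDeriv_eq]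
    simp
  rcases le_or_gt u 1 with h' | h'
  · exact (hM u ⟨h, h'⟩).trans (le_max_left _ _)
  · have : ramp =ᶠ[𝓝 u] fun v => v := by
      filter_upwards [Ioi_mem_nhds h'] with v hv
      unfold ramp
      rw [Real.smoothTransition.one_of_one_le (by have : 1 < v := hv; linarith), mul_one]
    unfold D
    rw [this.iteratedDeriv_eq, iteratedDeriv_fun_id]
    split_ifs <;> simp_all

theorem comp_hd (b L : ℝ) (j : ℕ) (y : ℝ) :
    HasDerivAt (fun y => D j ramp ((y - b) / L)) (D (j + 1) ramp ((y - b) / L) * (1 / L)) y := by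
  have h : HasDerivAt (fun y => (y - b) / L) (1 / L) y :=
    ((hasDerivAt_id y).sub_const b).div_const L
  exact HasDerivAt.comp (h₂ := D j ramp) (h := fun y => (y - b) / L) y (ramp_hd j _) h

theorem form1 (p q c b L : ℝ) :
    deriv (fun y => (p - y) / q + c * ramp ((y - b) / L)) =
      fun y => -1 / q + c * (1 / L) * D 1 ramp ((y - b) / L) := by
  funext y
  have h1 : HasDerivAt (fun y => (p - y) / q) (-1 / q) y :=
    ((hasDerivAt_id y).const_sub p).div_const q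
  have h2 := (comp_hd b L 0 y).const_mul c
  have h3 := (h1.add h2).deriv
  simp only [D, iteratedDeriv_zero] at h3
  refine Eq.trans h3 ?_
  simp only [D, zero_add]
  ring

theorem form2 (p q c b L : ℝ) (j : ℕ) :
    D (j + 2) (fun y => (p - y) / q + c * ramp ((y - b) / L)) =
      fun y => c * (1 / L) ^ (j + 2) * D (j + 2) ramp ((y - b) / L) := by
  induction j with
  | zero =>
    funext y
    unfold D
    rw [iteratedDeriv_succ, iteratedDeriv_one, form1]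
    have h := (((comp_hd b L 1 y).const_mul (c * (1 / L))).const_add (-1 / q)).deriv
    refine Eq.trans h ?_
    simp only [D, zero_add]
    ring
  | succ j ih =>
    funext y
    unfold D at ih ⊢
    rw [iteratedDeriv_succ, ih]
    have h := ((comp_hd b L (j + 2) y).const_mul (c * (1 / L) ^ (j + 2))).deriv
    refine Eq.trans h ?_
    simp only [D]
    ring

theorem Fz_cd (e n : ℕ) : ContDiff ℝ 6 (Fz e n) := by
  unfold Fz lin
  exact (by fun_prop : ContDiff ℝ 6 fun y : ℝ => (2 ^ e * (2 * (n : ℝ) - 1) - y) /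
    (4 ^ e * (n : ℝ) * ((n : ℝ) - 1))).add (contDiff_const.mul ((ramp_cd 6).comp (by fun_prop)))

theorem loc (hC : Cover) (z : ℝ → ℝ) (hz : ZLoc z) (y : ℝ) (hy : 24 ≤ y) :
    ∃ e n : ℕ, 3 ≤ e ∧ e ≤ n ∧ n ≤ 2 * e ∧ |y - 2 ^ e * n| ≤ 11 / 16 * 2 ^ e ∧
      z =ᶠ[𝓝 y] Fz e n := by
  obtain ⟨e, n, h1, h2, h3, h4⟩ := hC y hy
  refine ⟨e, n, h1, h2, h3, h4, ?_⟩
  have hp : (0 : ℝ) < 2 ^ e := by positivity
  have ho : IsOpen {v : ℝ | |v - 2 ^ e * n| < 3 / 4 * 2 ^ e} :=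
    isOpen_lt (by fun_prop) continuous_const
  filter_upwards [ho.mem_nhds (show |y - 2 ^ e * n| < 3 / 4 * 2 ^ e by linarith)] with v hv
  exact hz e n h1 h2 h3 v hv

theorem kap_bd (e n : ℕ) (hn : 3 ≤ n) :
    0 ≤ kap e n ∧ kap e n ≤ 6 / (((2 : ℝ) ^ e) ^ 2 * (n : ℝ) ^ 3) := by
  have hN : (3 : ℝ) ≤ n := by exact_mod_cast hn
  have h4 : (4 : ℝ) ^ e = ((2 : ℝ) ^ e) ^ 2 := by
    rw [← pow_mul, mul_comm, pow_mul]; norm_num
  have hp : (0 : ℝ) < ((2 : ℝ) ^ e) ^ 2 := by positivity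
  have h1 : (0 : ℝ) < (n : ℝ) - 1 := by linarith
  unfold kap
  rw [h4]
  generalize ((2 : ℝ) ^ e) ^ 2 = B at hp
  generalize (n : ℝ) = N at hN h1
  have hN0 : 0 < N := by linarith
  split_ifs
  · refine ⟨by positivity, ?_⟩
    rw [div_le_div_iff₀ (by positivity) (by positivity)]
    have : 2 * N ^ 3 ≤ 6 * ((N - 1) * N * (N + 1)) := by nlinarith [mul_pos hN0 hN0]
    nlinarith [mul_le_mul_of_nonneg_left this hp.le]
  · refine ⟨by positivity, ?_⟩
    rw [div_le_div_iff₀ (by positivity) (by positivity)]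
    have : 3 * N ^ 3 ≤ 6 * ((N - 1) * N * (N + 2)) := by nlinarith [mul_pos hN0 hN0]
    nlinarith [mul_le_mul_of_nonneg_left this hp.le]

theorem four (e : ℕ) : (4 : ℝ) ^ e = ((2 : ℝ) ^ e) ^ 2 := by
  rw [← pow_mul, mul_comm, pow_mul]; norm_num

theorem bd0 (e n : ℕ) (hn : 3 ≤ n) (y : ℝ) (hy : |y - 2 ^ e * n| ≤ 11 / 16 * 2 ^ e) :
    |Fz e n y| ≤ 6 * y⁻¹ := by
  have hN : (3 : ℝ) ≤ n := by exact_mod_cast hn
  obtain ⟨k0, k1⟩ := kap_bd e n hn
  unfold Fz lin wd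
  rw [four]
  have hA : (0 : ℝ) < 2 ^ e := by positivity
  generalize (2 : ℝ) ^ e = A at *
  generalize (n : ℝ) = N at *
  generalize kap e n = κ at *
  have hN0 : 0 < N := by linarith
  have hN1 : 0 < N - 1 := by linarith
  obtain ⟨y1, y2⟩ := abs_le.1 hy
  have hAN : 3 * A ≤ A * N := by nlinarith
  have hy0 : 0 < y := by linarith
  have hL : 0 < A * (1 / N ^ 14) := by positivity
  have t1 : |(A * (2 * N - 1) - y) / (A ^ 2 * N * (N - 1))| ≤ 2 * y⁻¹ := by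
    rw [abs_div, abs_of_pos (by positivity : 0 < A ^ 2 * N * (N - 1)), ← div_eq_mul_inv,
      div_le_div_iff₀ (by positivity) hy0]
    have a1 : |A * (2 * N - 1) - y| ≤ A * N := by
      rw [abs_le]; constructor <;> nlinarith
    have a2 : y ≤ 2 * (A * (N - 1)) := by nlinarith
    calc |A * (2 * N - 1) - y| * y ≤ (A * N) * (2 * (A * (N - 1))) := by gcongr
      _ = _ := by ring
  have t2 : |κ * (A * (1 / N ^ 14)) * ramp ((y - A * N) / (A * (1 / N ^ 14)))| ≤ 4 * y⁻¹ := by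
    rw [abs_mul, abs_of_nonneg (by positivity : 0 ≤ κ * (A * (1 / N ^ 14)))]
    have a1 := ramp_abs ((y - A * N) / (A * (1 / N ^ 14)))
    rw [abs_div, abs_of_pos hL] at a1
    calc κ * (A * (1 / N ^ 14)) * |ramp ((y - A * N) / (A * (1 / N ^ 14)))|
        ≤ κ * (A * (1 / N ^ 14)) * (|y - A * N| / (A * (1 / N ^ 14))) := by gcongr
      _ = κ * |y - A * N| := by field_simp
      _ ≤ 6 / (A ^ 2 * N ^ 3) * A := by gcongr; linarith
      _ = 6 / (A * N ^ 3) := by field_simp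
      _ ≤ 4 / y := by
        rw [div_le_div_iff₀ (by positivity) hy0]
        have b1 : y ≤ 2 * (A * N) := by linarith
        have b2 : 9 ≤ N ^ 2 := by nlinarith
        have b3 : A * N * 9 ≤ A * N * N ^ 2 := by gcongr
        nlinarith
      _ = 4 * y⁻¹ := div_eq_mul_inv _ _
  exact (abs_add_le _ _).trans (by linarith)

theorem bd1 (M : ℝ) (hM : ∀ u, |D 1 ramp u| ≤ M) (e n : ℕ) (hn : 3 ≤ n) (y : ℝ)
    (hy : |y - 2 ^ e * n| ≤ 11 / 16 * 2 ^ e) :
    |deriv (Fz e n) y| ≤ (8 + 8 * M) * (y ^ 2)⁻¹ := by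
  have hN : (3 : ℝ) ≤ n := by exact_mod_cast hn
  obtain ⟨k0, k1⟩ := kap_bd e n hn
  have hf := form1 (2 ^ e * (2 * (n : ℝ) - 1)) (4 ^ e * (n : ℝ) * ((n : ℝ) - 1))
    (kap e n * (2 ^ e * wd n)) (2 ^ e * n) (2 ^ e * wd n)
  have hF : deriv (Fz e n) y = _ := congrFun hf y
  rw [hF, four]
  unfold wd
  have hA : (0 : ℝ) < 2 ^ e := by positivity
  generalize (2 : ℝ) ^ e = A at *
  generalize (n : ℝ) = N at *
  generalize kap e n = κ at *
  have hN0 : 0 < N := by linarith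
  have hN1 : 0 < N - 1 := by linarith
  obtain ⟨y1, y2⟩ := abs_le.1 hy
  have hAN : 3 * A ≤ A * N := by nlinarith
  have hy0 : 0 < y := by linarith
  have hL : 0 < A * (1 / N ^ 14) := by positivity
  have b1 : y ≤ 2 * (A * N) := by linarith
  have b2 : y ^ 2 ≤ (2 * (A * N)) ^ 2 := by gcongr
  have t1 : |-1 / (A ^ 2 * N * (N - 1))| ≤ 8 * (y ^ 2)⁻¹ := by
    rw [abs_div, abs_of_pos (by positivity : 0 < A ^ 2 * N * (N - 1)), ← div_eq_mul_inv,
      div_le_div_iff₀ (by positivity) (by positivity)]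
    have c1 : A ^ 2 * N * N ≤ A ^ 2 * N * (2 * (N - 1)) := by gcongr; linarith
    simp only [abs_neg, abs_one]
    nlinarith
  have t2 : |κ * (A * (1 / N ^ 14)) * (1 / (A * (1 / N ^ 14))) *
      D 1 ramp ((y - A * N) / (A * (1 / N ^ 14)))| ≤ 8 * M * (y ^ 2)⁻¹ := by
    have e1 : κ * (A * (1 / N ^ 14)) * (1 / (A * (1 / N ^ 14))) = κ := by field_simp
    rw [e1, abs_mul, abs_of_nonneg k0]
    have c2 : 6 / (A ^ 2 * N ^ 3) ≤ 8 / y ^ 2 := by
      rw [div_le_div_iff₀ (by positivity) (by positivity)]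
      have c3 : A ^ 2 * N ^ 2 * 3 ≤ A ^ 2 * N ^ 2 * N := by gcongr
      nlinarith
    calc κ * |D 1 ramp ((y - A * N) / (A * (1 / N ^ 14)))| ≤ 8 / y ^ 2 * M := by
          gcongr
          · exact k1.trans c2
          · exact hM _
      _ = _ := by ring
  exact (abs_add_le _ _).trans (by linarith)

theorem bd2 (j : ℕ) (M : ℝ) (hM : ∀ u, |D (j + 2) ramp u| ≤ M) (e n : ℕ)
    (hn : 3 ≤ n) (y : ℝ) :
    |D (j + 2) (Fz e n) y| ≤ 6 * M * (n : ℝ) ^ (14 * j + 11) / ((2 : ℝ) ^ e) ^ (j + 3) := by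
  have hN : (3 : ℝ) ≤ n := by exact_mod_cast hn
  obtain ⟨k0, k1⟩ := kap_bd e n hn
  have hf := form2 (2 ^ e * (2 * (n : ℝ) - 1)) (4 ^ e * (n : ℝ) * ((n : ℝ) - 1))
    (kap e n * (2 ^ e * wd n)) (2 ^ e * n) (2 ^ e * wd n) j
  have hF : D (j + 2) (Fz e n) y = _ := congrFun hf y
  rw [hF]
  unfold wd
  have hA : (0 : ℝ) < 2 ^ e := by positivity
  generalize (2 : ℝ) ^ e = A at *
  generalize (n : ℝ) = N at *
  generalize kap e n = κ at *
  have hN0 : 0 < N := by linarith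
  rw [abs_mul, abs_of_nonneg (by positivity)]
  calc κ * (A * (1 / N ^ 14)) * (1 / (A * (1 / N ^ 14))) ^ (j + 2) *
        |D (j + 2) ramp ((y - A * N) / (A * (1 / N ^ 14)))|
      ≤ 6 / (A ^ 2 * N ^ 3) * (A * (1 / N ^ 14)) * (1 / (A * (1 / N ^ 14))) ^ (j + 2) * M := by
        gcongr
        exact hM _
    _ = _ := by
        have : 1 / (A * (1 / N ^ 14)) = N ^ 14 / A := by field_simp
        rw [this, div_pow]
        field_simp
        ring

theorem bigj (hC : Cover) (z : ℝ → ℝ) (hz : ZLoc z) (j : ℕ) (r : ℝ)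
    (hr : r = 1 / 10 - ((j + 3 : ℕ) : ℝ)) : OP (D (j + 2) z) r := by
  obtain ⟨M, hM0, hM⟩ := ramp_bd (j + 1)
  set k : ℕ := 14 * j + 11 + (j + 3) with hk
  have h1 : D (j + 2) z =O[atTop] fun y : ℝ => Real.log y ^ (k : ℝ) * y ^ (-((j + 3 : ℕ) : ℝ)) := by
    refine IsBigO.of_bound (6 * M * 2 ^ (j + 3) * 4 ^ k) ?_
    filter_upwards [eventually_ge_atTop (24 : ℝ)] with y hy
    obtain ⟨e, n, h1, h2, h3, h4, h5⟩ := loc hC z hz y hy
    have hb := bd2 j M hM e n (h1.trans h2) y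
    have hy0 : 0 < y := by linarith
    have hlog : 0 ≤ Real.log y := Real.log_nonneg (by linarith)
    have hN : (3 : ℝ) ≤ n := by exact_mod_cast h1.trans h2
    have hA : (0 : ℝ) < 2 ^ e := by positivity
    obtain ⟨y1, y2⟩ := abs_le.1 h4
    have hAN : 3 * 2 ^ e ≤ (2 : ℝ) ^ e * n := by nlinarith
    have hel : (n : ℝ) ≤ 4 * Real.log y := by
      have a1 : Real.log ((2 : ℝ) ^ e) ≤ Real.log y := Real.log_le_log hA (by linarith)
      rw [Real.log_pow] at a1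
      have a2 : (n : ℝ) ≤ 2 * e := by exact_mod_cast h3
      have a3 := Real.log_two_gt_d9
      have a4 : (0 : ℝ) ≤ e := Nat.cast_nonneg e
      nlinarith
    unfold D at hb ⊢
    rw [h5.iteratedDeriv_eq, Real.norm_eq_abs, Real.norm_eq_abs, Real.rpow_natCast,
      Real.rpow_neg hy0.le, Real.rpow_natCast,
      abs_of_nonneg (by positivity : 0 ≤ Real.log y ^ k * (y ^ (j + 3))⁻¹)]
    refine hb.trans ?_
    have a5 : (1 : ℝ) / (2 : ℝ) ^ e ≤ 2 * n / y := by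
      rw [div_le_div_iff₀ hA hy0]; nlinarith
    calc 6 * M * (n : ℝ) ^ (14 * j + 11) / ((2 : ℝ) ^ e) ^ (j + 3)
        = 6 * M * (n : ℝ) ^ (14 * j + 11) * (1 / (2 : ℝ) ^ e) ^ (j + 3) := by
          rw [one_div, inv_pow, div_eq_mul_inv]
      _ ≤ 6 * M * (n : ℝ) ^ (14 * j + 11) * (2 * n / y) ^ (j + 3) := by gcongr
      _ = 6 * M * 2 ^ (j + 3) * ((n : ℝ) ^ k * (y ^ (j + 3))⁻¹) := by
          rw [hk, pow_add (n : ℝ) (14 * j + 11) (j + 3), div_pow, mul_pow, div_eq_mul_inv]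
          ring
      _ ≤ 6 * M * 2 ^ (j + 3) * ((4 * Real.log y) ^ k * (y ^ (j + 3))⁻¹) := by gcongr
      _ = _ := by rw [mul_pow]; ring
  have h2 := (isLittleO_log_rpow_rpow_atTop (k : ℝ) (by norm_num : (0 : ℝ) < 1 / 10)).isBigO
  refine h1.trans ((h2.mul (isBigO_refl _ _)).congr' EventuallyEq.rfl ?_)
  filter_upwards [eventually_gt_atTop (0 : ℝ)] with y hy
  rw [← Real.rpow_add hy, hr, sub_eq_add_neg]

end ZB

theorem zbounds (hC : Cover) (z : ℝ → ℝ) (hz : ZLoc z) :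
    ContDiffOn ℝ 6 z (Set.Ioi 24) ∧ ZO z ∧ Z4 z := by
  refine ⟨fun y hy => ?_, ⟨?_, ?_, ZB.bigj hC z hz 0 _ (by norm_num),
    ZB.bigj hC z hz 1 _ (by norm_num), ZB.bigj hC z hz 2 _ (by norm_num),
    ZB.bigj hC z hz 3 _ (by norm_num)⟩, ?_⟩
  · obtain ⟨e, n, -, -, -, -, h5⟩ := ZB.loc hC z hz y (le_of_lt hy)
    exact ((ZB.Fz_cd e n).contDiffAt.congr_of_eventuallyEq h5).contDiffWithinAt
  · refine IsBigO.of_bound 6 ?_
    filter_upwards [eventually_ge_atTop (24 : ℝ)] with y hy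
    obtain ⟨e, n, h1, h2, h3, h4, h5⟩ := ZB.loc hC z hz y hy
    have hy0 : 0 < y := by linarith
    rw [h5.eq_of_nhds, Real.rpow_neg_one, Real.norm_eq_abs, Real.norm_eq_abs,
      abs_of_pos (inv_pos.2 hy0)]
    exact ZB.bd0 e n (h1.trans h2) y h4
  · obtain ⟨M, hM0, hM⟩ := ZB.ramp_bd 0
    refine IsBigO.of_bound (8 + 8 * M) ?_
    filter_upwards [eventually_ge_atTop (24 : ℝ)] with y hy
    obtain ⟨e, n, h1, h2, h3, h4, h5⟩ := ZB.loc hC z hz y hy
    have hy0 : 0 < y := by linarith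
    rw [h5.deriv_eq, Real.rpow_neg hy0.le, Real.rpow_two, Real.norm_eq_abs, Real.norm_eq_abs,
      abs_of_pos (inv_pos.2 (pow_pos hy0 2))]
    exact ZB.bd1 M hM e n (h1.trans h2) y h4
  · obtain ⟨M, hM0, hM⟩ := ZB.ramp_bd 1
    refine ⟨6 * M * 4 ^ 11 * 8, 4, fun e he y hy1 hy2 => ?_⟩
    have hE : (4 : ℝ) ≤ e := by exact_mod_cast he
    have hA : (16 : ℝ) ≤ 2 ^ e := by
      calc (16 : ℝ) = 2 ^ 4 := by norm_num
        _ ≤ 2 ^ e := pow_le_pow_right₀ one_le_two he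
    have hy : 24 ≤ y := by nlinarith
    obtain ⟨e', n, h1, h2, h3, h4, h5⟩ := ZB.loc hC z hz y hy
    have hb := ZB.bd2 0 M hM e' n (h1.trans h2) y
    obtain ⟨y1, y2⟩ := abs_le.1 h4
    have hA' : (0 : ℝ) < 2 ^ e' := by positivity
    have hn1 : (e' : ℝ) ≤ n := by exact_mod_cast h2
    have hn2 : (n : ℝ) ≤ 2 * e' := by exact_mod_cast h3
    have lo : e ≤ e' + 1 := by
      by_contra hcon
      have c1 : e' + 2 ≤ e := by omega
      have c2 : (2 : ℝ) ^ (e' + 2) ≤ 2 ^ e := pow_le_pow_right₀ one_le_two c1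
      have c3 : (e' : ℝ) + 2 ≤ e := by exact_mod_cast c1
      rw [pow_add] at c2
      have c4 : (2 : ℝ) ^ e' * n ≤ 2 ^ e' * (2 * e - 4) := by gcongr; linarith
      have c5 : (2 : ℝ) ^ e' * 2 ^ 2 * ((e : ℝ) - 1) ≤ 2 ^ e * ((e : ℝ) - 1) := by
        gcongr; linarith
      nlinarith
    have hi : e' ≤ e + 3 := by
      by_contra hcon
      have c1 : e + 1 + 3 ≤ e' := by omega
      have c2 : (2 : ℝ) ^ (e + 1 + 3) ≤ 2 ^ e' := pow_le_pow_right₀ one_le_two c1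
      have c3 : (e : ℝ) + 1 + 3 ≤ e' := by exact_mod_cast c1
      rw [pow_add] at c2
      have c0 : (0 : ℝ) < 2 ^ (e + 1) := by positivity
      have c4 : (2 : ℝ) ^ e' * (e + 4) ≤ 2 ^ e' * n := by gcongr; linarith
      have c5 : (2 : ℝ) ^ (e + 1) * 2 ^ 3 * ((e : ℝ) + 3) ≤ 2 ^ e' * ((e : ℝ) + 3) := by
        gcongr
      nlinarith
    have hn4 : (n : ℝ) ≤ 4 * e := by
      have : (e' : ℝ) ≤ e + 3 := by exact_mod_cast hi
      linarith
    have h8 : (8 : ℝ) ^ e ≤ 8 * ((2 : ℝ) ^ e') ^ 3 := by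
      have a1 : ((2 : ℝ) ^ e') ^ 3 = 8 ^ e' := by
        rw [← pow_mul, mul_comm, pow_mul]; norm_num
      rw [a1, ← pow_succ']
      exact pow_le_pow_right₀ (by norm_num) lo
    unfold D at hb ⊢
    rw [h5.iteratedDeriv_eq]
    refine hb.trans ?_
    rw [div_le_div_iff₀ (by positivity) (by positivity)]
    calc 6 * M * (n : ℝ) ^ (14 * 0 + 11) * 8 ^ e
        ≤ 6 * M * (4 * (e : ℝ)) ^ (14 * 0 + 11) * (8 * ((2 : ℝ) ^ e') ^ 3) := by gcongr
      _ = _ := by ring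

end Pool.Agent.H113Z.Dist
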